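import Pool.Agent.J6H16.PR.Cp
import Pool.Agent.J6H16.PR.Mk
import Pool.Agent.J6H16.PF.Fx

/-!
# Project PR (helper16): products of a small prime and of a prime or a rough number: the dispersion
-/

set_option autoImplicit false

namespace Pool.Agent.J6H16.PR

open Finset Filter Topology MeasureTheory
open Pool.Agent.N782.GN Pool.Agent.N855.GN
open Pool.Agent.H304R3.HK (UH bb LamK CS)
open Pool.Agent.J6H16.PF

/-- the difference of the primes and of the model -/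
noncomputable def gP (z0 : ℕ) (c M : ℝ) (m : ZI) : ℝ := f1 M c 3 m - Sf z0 c M * rg (zf M) m

theorem gP_ne {z0 : ℕ} {c M : ℝ} {m : ZI} (h : gP z0 c M m ≠ 0) : f1 M c 3 m ≠ 0 ∨ rg (zf M) m ≠ 0 := by
  by_contra hcon
  push Not at hcon
  apply h
  unfold gP
  rw [hcon.1, hcon.2]
  ring

theorem rg_ne {z : ℕ} {t : ZI} (h : rg z t ≠ 0) : rough z t ∧ ct t = 1 := by
  unfold rg at h
  split_ifs at h with h1
  · exact h1
  · exact absurd rfl h

/-- the basic facts for large `M` -/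
structure Big (z0 : ℕ) (c3 c4 M : ℝ) (B : ℕ) : Prop where
  M3 : 3 ≤ M
  zc : (zf M : ℝ) ≤ M ^ c3
  zB : (Real.log M) ^ B ≤ (zf M : ℝ)
  S0 : 0 ≤ Sf z0 c4 M
  S6 : Sf z0 c4 M ≤ 6

theorem Big.gP_rough {z0 : ℕ} {c3 c4 M : ℝ} {B : ℕ} (h : Big z0 c3 c4 M B) (h34 : c3 ≤ c4) {m : ZI}
    (hm : gP z0 c4 M m ≠ 0) : rough (zf M) m ∧ ct m = 1 := by
  rcases gP_ne hm with h1 | h1
  · have h2 := f1_ne h1
    have h3 : M ^ c3 ≤ M ^ c4 := Real.rpow_le_rpow_of_exponent_le (by linarith [h.M3]) h34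
    exact ⟨rough_np h2.1 (by linarith [h.zc, h2.2.1]), ct_np h2.1⟩
  · exact rg_ne h1

theorem rough_mul {z : ℕ} {a m : ZI} (ha : rough z a) (hm : rough z m) : rough z (a * m) := by
  intro p hp hpz hd
  rw [nn_mul] at hd
  rcases (Nat.Prime.dvd_mul hp).1 hd with h | h
  · exact ha p hp hpz h
  · exact hm p hp hpz h

theorem rough_dvd {z : ℕ} {a m : ZI} (h : rough z (a * m)) : rough z a ∧ rough z m := by
  constructor
  · intro p hp hpz hd
    exact h p hp hpz (by rw [nn_mul]; exact Dvd.dvd.mul_right hd _)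
  · intro p hp hpz hd
    exact h p hp hpz (by rw [nn_mul]; exact Dvd.dvd.mul_left hd _)

theorem Big.f1_rough {z0 : ℕ} {c3 c4 M : ℝ} {B : ℕ} (h : Big z0 c3 c4 M B) {c E : ℝ} (h3 : c3 ≤ c) {m : ZI}
    (hm : f1 M c E m ≠ 0) : rough (zf M) m ∧ ct m = 1 := by
  have h2 := f1_ne hm
  have h3 : M ^ c3 ≤ M ^ c := Real.rpow_le_rpow_of_exponent_le (by linarith [h.M3]) h3
  exact ⟨rough_np h2.1 (by linarith [h.zc, h2.2.1]), ct_np h2.1⟩

theorem Big.gP_bd {z0 : ℕ} {c3 c4 M : ℝ} {B : ℕ} (h : Big z0 c3 c4 M B) (m : ZI) : |gP z0 c4 M m| ≤ 9 := by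
  unfold gP
  have h1 := f1_bd (c := c4) (c' := 3) (show 1 < M by linarith [h.M3]) (by norm_num) m
  have h2 := rg_nonneg (zf M) m
  have h3 := rg_le (zf M) m
  have h4 : |Sf z0 c4 M * rg (zf M) m| ≤ 6 := by
    rw [abs_mul, abs_of_nonneg h.S0, abs_of_nonneg h2]
    nlinarith [h.S0, h.S6]
  calc |f1 M c4 3 m - Sf z0 c4 M * rg (zf M) m| ≤ |f1 M c4 3 m| + |Sf z0 c4 M * rg (zf M) m| := abs_sub _ _
    _ ≤ 9 := by linarith

/-- a rough number is coprime to small moduli -/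
theorem rough_cop {z Q : ℕ} (hQz : Q ≤ z) (hQ : 1 ≤ Q) {t : ZI} (h : rough z t) : IsCoprime t ((Q : ℕ) : ZI) := by
  have h2 : Nat.Coprime (nn t) Q :=
    Nat.Coprime.symm (Nat.coprime_of_dvd fun p hp hp2 hp1 => h p hp ((Nat.le_of_dvd hQ hp2).trans hQz) hp1)
  obtain ⟨u, v, huv⟩ := Nat.isCoprime_iff_coprime.2 h2
  refine ⟨((u : ℤ) : ZI) * star t, ((v : ℤ) : ZI), ?_⟩
  have h4 : t * star t = ((nn t : ℕ) : ZI) := by
    have h5 : t * star t = ((Zsqrtd.norm t : ℤ) : ZI) := (Zsqrtd.norm_eq_mul_conj t).symm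
    rw [h5]
    have h6 : (Zsqrtd.norm t : ℤ) = ((nn t : ℕ) : ℤ) := by
      unfold nn
      rw [Int.natAbs_of_nonneg (GaussianInt.norm_nonneg t)]
    rw [h6]
    push_cast
    rfl
  have h7 := congrArg (fun x : ℤ => ((x : ℤ) : ZI)) huv
  push_cast at h7
  rw [mul_assoc, mul_comm (star t) t, h4]
  exact h7

/-- the coefficients -/
noncomputable def bP (z0 : ℕ) (c3 c4 M R : ℝ) (t : ZI) : ℝ :=
  if (R ^ 2 < nz t ∧ nz t ≤ 4 * R ^ 2) ∧ ct t = 1 then cv (f1 M c3 c4) (gP z0 c4 M) t else 0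

theorem bP_ne {z0 : ℕ} {c3 c4 M R : ℝ} {t : ZI} (h : bP z0 c3 c4 M R t ≠ 0) :
    ((R ^ 2 < nz t ∧ nz t ≤ 4 * R ^ 2) ∧ ct t = 1) ∧ cv (f1 M c3 c4) (gP z0 c4 M) t ≠ 0 := by
  unfold bP at h
  split_ifs at h with h1
  · exact ⟨h1, h⟩
  · exact absurd rfl h

theorem Big.cv_rough {z0 : ℕ} {c3 c4 M : ℝ} {B : ℕ} (h : Big z0 c3 c4 M B) (h34 : c3 ≤ c4) {t : ZI}
    (ht : cv (f1 M c3 c4) (gP z0 c4 M) t ≠ 0) : rough (zf M) t := by
  obtain ⟨a, m, h1, h2, h3, -, -⟩ := cv_ne ht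
  rw [← h1]
  exact rough_mul (h.f1_rough le_rfl h2).1 (h.gP_rough h34 h3).1

theorem Big.cv_bd {z0 : ℕ} {c3 c4 M : ℝ} {B : ℕ} (h : Big z0 c3 c4 M B) {t : ZI} (ht : t ≠ 0) (htM : nz t ≤ M ^ 3) :
    |cv (f1 M c3 c4) (gP z0 c4 M) t| ≤ 108 := by
  have hM1 : 1 < M := by linarith [h.M3]
  have hl := Real.log_pos hM1
  have h1 := Pool.Agent.J6H16.PF.cv_bd (f := f1 M c3 c4) (g := gP z0 c4 M) (κ := 1 / Real.log M) (C1 := 9) (by positivity)
    (by norm_num) (f1_le hM1 _ _) h.gP_bd ht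
  refine h1.trans ?_
  have h2 : Real.log (nz t) ≤ 3 * Real.log M := by
    have := Real.log_le_log (nz_pos ht) htM
    rwa [Real.log_pow] at this
  calc 9 * (1 / Real.log M) * (4 * Real.log (nz t)) ≤ 9 * (1 / Real.log M) * (4 * (3 * Real.log M)) := by gcongr
    _ = 108 := by field_simp; norm_num

open Classical in
/-- the difference in all classes -/
theorem reg_gP : ∃ z0 : ℕ, ∀ (A B : ℕ) (c3 c4 : ℝ), 0 < c3 → c3 < c4 → c4 ≤ 1 → ∀ᶠ M : ℝ in atTop,
    Big z0 c3 c4 M (B + 1) ∧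
    1 / (20000 * (W0 z0 : ℝ) ^ 2) ≤ Real.log M * (Sf z0 c4 M * kq (zf M) z0 (W0 z0)) ∧
    ∀ q : ℕ, 1 ≤ q → (q : ℝ) ≤ (Real.log M) ^ B →
      Reg (gP z0 c4 M) q 0 (1 / (Real.log M) ^ A) (M ^ c4) (M ^ (3 : ℝ)) := by
  obtain ⟨z0, hc⟩ := cmpS
  refine ⟨z0, fun A B c3 c4 h3 h34 h4 => ?_⟩
  have h04 : 0 < c4 := by linarith
  filter_upwards [hc (A + 2 * (B + 1)) (B + 1) 3 c4 h04 h4 (by norm_num), par_c (B + 1), par_b 1 h3, par_e 1, ev_log (W0 z0),
    ev_log 1, eventually_ge_atTop (3 : ℝ)] with M hc hzB hzc hbe hlogW hlog1 hM3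
  have hM0 : 0 < M := by linarith
  have hM1 : 1 ≤ M := by linarith
  set ℓ := Real.log M with hℓ
  have hw1 : (1 : ℝ) ≤ (W0 z0 : ℝ) := by exact_mod_cast W0_pos z0
  obtain ⟨hc1, hc2, hc3, hc4⟩ := hc
  have hlo : 0 < ℓ * (Sf z0 c4 M * kq (zf M) z0 (W0 z0)) := lt_of_lt_of_le (by positivity) hc1
  have hS0 : 0 < Sf z0 c4 M := (mul_pos_iff_of_pos_right hc3).1 ((mul_pos_iff_of_pos_left (by linarith)).1 hlo)
  have hzM : (zf M : ℝ) ≤ M ^ c3 := by
    refine le_trans ?_ hzc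
    have h1 : (1 : ℝ) ≤ (zf M : ℝ) := by
      have : 1 ≤ zf M := by unfold zf; exact Nat.one_le_two_pow
      exact_mod_cast this
    calc (zf M : ℝ) = (zf M : ℝ) ^ 1 := (pow_one _).symm
      _ ≤ (zf M : ℝ) ^ (1 * bf M) := pow_le_pow_right₀ h1 (by omega)
  have hbig : Big z0 c3 c4 M (B + 1) := ⟨hM3, hzM, hzB, hS0.le, by push_cast at hc2; linarith⟩
  refine ⟨hbig, hc1, ?_⟩
  intro q hq hqB s hs Y1 Y2 hY1 hY12 hY2
  set Q := q * W0 z0 with hQ
  have hQ1 : 1 ≤ Q := Nat.one_le_iff_ne_zero.2 (Nat.mul_ne_zero (by omega) (by have := W0_pos z0; omega))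
  have hQB : (Q : ℝ) ≤ ℓ ^ (B + 1) := by
    rw [hQ]
    push_cast
    rw [pow_succ]
    exact mul_le_mul hqB hlogW (by positivity) (by positivity)
  have hQz : Q ≤ zf M := by exact_mod_cast hQB.trans hzB
  have hY0 : 0 < Y1 := lt_of_lt_of_le (by positivity) hY1
  rw [zero_mul, sub_zero, ci_split (gP z0 c4 M) hQ1 (dvd_mul_right _ _) s Y1 Y2]
  have h1 : ∀ r ∈ lifts q Q s, |∑ t ∈ ci Q r Y1 Y2, gP z0 c4 M t| ≤ 1 / ℓ ^ (A + 2 * (B + 1)) * Y2 := by
    intro r _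
    by_cases hr : IsCoprime r ((Q : ℕ) : ZI)
    · have h2 := hc4 Q hQ1 hQB (dvd_mul_left _ _) r hr Y1 Y2 hY1 hY12 (by push_cast; exact hY2)
      unfold gP
      exact_mod_cast h2
    · rw [sum_eq_zero, abs_zero]
      · exact mul_nonneg (by positivity) (by linarith)
      · intro t ht
        by_contra hcon
        apply hr
        rw [mem_ci] at ht
        have ht2 : t ∈ cls Q r Y2 := by
          unfold cls
          rw [mem_filter, mem_bl]
          exact ⟨⟨ht.1, ht.2.1⟩, ht.2.2.1⟩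
        exact cop_cls ht2 (rough_cop hQz hQ1 (hbig.gP_rough h34.le hcon).1)
  refine (abs_sum_le_sum_abs _ _).trans ((sum_le_sum h1).trans ?_)
  rw [sum_const, nsmul_eq_mul]
  have h2 := card_lifts q Q s
  have h3' : (Q : ℝ) ^ 2 ≤ ℓ ^ (2 * (B + 1)) := by
    calc (Q : ℝ) ^ 2 ≤ (ℓ ^ (B + 1)) ^ 2 := by gcongr
      _ = ℓ ^ (2 * (B + 1)) := by rw [← pow_mul, mul_comm]
  calc ((lifts q Q s).card : ℝ) * (1 / ℓ ^ (A + 2 * (B + 1)) * Y2) ≤ ℓ ^ (2 * (B + 1)) * (1 / ℓ ^ (A + 2 * (B + 1)) * Y2) :=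
        mul_le_mul_of_nonneg_right (h2.trans h3') (mul_nonneg (by positivity) (by linarith))
    _ = 1 / ℓ ^ A * Y2 := by
        rw [pow_add]
        field_simp

open Classical in
/-- **the dispersion for the difference** -/
theorem cellP : ∃ z0 : ℕ, ∀ (ε c3 c4 : ℝ), 0 < c3 → c3 < c4 → c4 ≤ ε / 2 → ε ≤ 1 → ∀ A : ℕ, ∃ C : ℝ, 0 < C ∧
    ∀ᶠ M : ℝ in atTop, (Big z0 c3 c4 M 1 ∧ 1 / (20000 * (W0 z0 : ℝ) ^ 2) ≤
        Real.log M * (Sf z0 c4 M * kq (zf M) z0 (W0 z0))) ∧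
      ∀ L R : ℝ, 1 ≤ L → L ≤ M ^ (1 - ε) → 0 < R → M ^ (1 + ε) ≤ R ^ 2 * L → R ^ 2 ≤ L * M ^ (1 - ε) →
      ∀ γ : ZI → ℝ, (∀ v, |γ v| ≤ 1) →
      ∑ l ∈ Icc (1 : ℤ) ⌊L⌋, |Th (bP z0 c3 c4 M R) γ R (M / (8 * R)) l| ≤ C * L * M / (Real.log M) ^ A := by
  obtain ⟨z0, hreg⟩ := reg_gP
  refine ⟨z0, fun ε c3 c4 hc3 h34 h4 hε1 A => ?_⟩
  have hc4 : 0 < c4 := by linarith
  have hε : 0 < ε := by linarith
  obtain ⟨A', B', C, M0, hC, hgc⟩ := gc ε A 109 hε (by norm_num)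
  refine ⟨C, hC, ?_⟩
  have hcE : c4 ≤ ((3 : ℕ) : ℝ) := by push_cast; linarith
  filter_upwards [hreg (A' + 1) B' c3 c4 hc3 h34 (by linarith), par_c (A' + 4), par_c 1,
    msk2 hc3 h34 9 (by norm_num) (A' + 1) B' 3 hcE, ev_log (16 + 2 * (288 * 4 + 8000) ^ 2 * 16), eventually_ge_atTop (3 : ℝ),
    ev_qM (show 0 < ε / 2 by positivity) B', ev_rp hε 4, eventually_ge_atTop M0] with M hreg hzA hz1 k1 hlog hM3 hqM2 hMe hMM0
  obtain ⟨hbig, hlo2, hreg⟩ := hreg
  have hM0 : 0 < M := by linarith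
  have hM1 : 1 ≤ M := by linarith
  have hM1' : 1 < M := by linarith
  refine ⟨⟨⟨hM3, hbig.zc, hz1, hbig.S0, hbig.S6⟩, hlo2⟩, ?_⟩
  intro L R hL1 hLM hR hRL hRL2 γ hγ
  have hL0 : 0 < L := by linarith
  have hRe : M ^ (2 * ε) ≤ R ^ 2 := by
    have h1 : M ^ (2 * ε) * L ≤ R ^ 2 * L := by
      refine le_trans ?_ hRL
      calc M ^ (2 * ε) * L ≤ M ^ (2 * ε) * M ^ (1 - ε) := by gcongr
        _ = M ^ (1 + ε) := by rw [← Real.rpow_add hM0]; ring_nf
    exact le_of_mul_le_mul_right h1 hL0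
  have hR2M : 4 * R ^ 2 ≤ M ^ 3 := by
    have h1 : R ^ 2 ≤ M ^ (2 - 2 * ε) := by
      refine hRL2.trans ?_
      calc L * M ^ (1 - ε) ≤ M ^ (1 - ε) * M ^ (1 - ε) := by gcongr
        _ = M ^ (2 - 2 * ε) := by rw [← Real.rpow_add hM0]; ring_nf
    calc 4 * R ^ 2 ≤ M ^ ε * M ^ (2 - 2 * ε) := by gcongr
      _ = M ^ (2 - ε) := by rw [← Real.rpow_add hM0]; ring_nf
      _ ≤ M ^ (3 : ℝ) := Real.rpow_le_rpow_of_exponent_le hM1 (by linarith)
      _ = M ^ 3 := by norm_num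
  refine hgc M L R _ hMM0 hL1 hLM hR hRL hRL2 ?_ ?_ ?_ γ hγ
  · intro w
    by_cases h0 : bP z0 c3 c4 M R w = 0
    · rw [h0, abs_zero]; norm_num
    · have h1 := bP_ne h0
      have hw0 : w ≠ 0 := by
        rintro rfl
        exact h1.2 (cv_zero _ _)
      unfold bP
      rw [if_pos h1.1]
      linarith [hbig.cv_bd (c3 := c3) hw0 (h1.1.1.2.trans hR2M)]
  · intro w hw
    by_contra hcon
    exact hw (bP_ne hcon).1.2
  · intro q r Y1 Y2 K hq hqB hY1 hY12 hY2 hK hKM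
    set ℓ := Real.log M with hℓ
    have hℓ1 : 1 ≤ ℓ := by linarith
    have hℓ0 : 0 < ℓ := by linarith
    set Y1' := max Y1 (R ^ 2) with hY1'
    have hqz : q ≤ zf M := by
      have h1 : (q : ℝ) ≤ (zf M : ℝ) := by
        refine hqB.trans (le_trans ?_ hbig.zB)
        exact pow_le_pow_right₀ hℓ1 (by omega)
      exact_mod_cast h1
    by_cases hcase : IsCoprime r ((q : ℕ) : ZI) ∧ Y1' ≤ Y2
    swap
    · have h0 : ∀ t ∈ (cls q r Y2).filter (fun t => Y1 < nz t), bP z0 c3 c4 M R t = 0 := by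
        intro t ht
        by_contra hcon
        rw [mem_filter] at ht
        apply hcase
        have h1 := bP_ne hcon
        refine ⟨cop_cls ht.1 (rough_cop hqz hq (hbig.cv_rough h34.le h1.2)), ?_⟩
        have h2 := ((mem_bl _ _).1 (cls_sub q r Y2 ht.1)).2
        exact max_le (ht.2.le.trans h2) (h1.1.1.1.le.trans h2)
      rw [sum_eq_zero]
      · positivity
      · intro k _
        rw [sum_eq_zero, norm_zero]
        · norm_num
        · intro t ht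
          rw [h0 t ht]
          push_cast
          ring
    obtain ⟨hr, hYY⟩ := hcase
    have hY1'' : R ^ 2 ≤ Y1' := le_max_right _ _
    have hY1p : 0 ≤ Y1' := hY1.trans (le_max_left _ _)
    have e1 : ∀ k : ℤ, ∑ t ∈ (cls q r Y2).filter (fun t => Y1 < nz t), (bP z0 c3 c4 M R t : ℂ) * ph k 0 t =
        ∑ t ∈ ci q r Y1' Y2, ((if ct t = 1 then cv (f1 M c3 c4) (gP z0 c4 M) t else 0 : ℝ) : ℂ) * ph k 0 t := by
      intro k
      have hsub : ci q r Y1' Y2 ⊆ (cls q r Y2).filter (fun t => Y1 < nz t) := by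
        intro t ht
        rw [mem_ci] at ht
        have : t ∈ ci q r Y1 Y2 := by
          rw [mem_ci]
          exact ⟨ht.1, ht.2.1, ht.2.2.1, lt_of_le_of_lt (le_max_left _ _) ht.2.2.2⟩
        unfold ci at this
        exact this
      rw [← sum_subset hsub (f := fun t => (bP z0 c3 c4 M R t : ℂ) * ph k 0 t)]
      · refine sum_congr rfl fun t ht => ?_
        rw [mem_ci] at ht
        congr 2
        unfold bP
        by_cases hct : ct t = 1
        · rw [if_pos hct, if_pos ⟨⟨lt_of_le_of_lt (le_max_right _ _) ht.2.2.2, ht.2.1.trans hY2⟩, hct⟩]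
        · rw [if_neg hct, if_neg fun h => hct h.2]
      · intro t ht ht'
        have : bP z0 c3 c4 M R t = 0 := by
          by_contra hcon
          apply ht'
          have h1 := (bP_ne hcon).1
          have h2 : t ∈ ci q r Y1 Y2 := by unfold ci; exact ht
          rw [mem_ci] at h2 ⊢
          exact ⟨h2.1, h2.2.1, h2.2.2.1, max_lt h2.2.2.2 h1.1.1⟩
        rw [this]
        push_cast
        ring
    have hKV : (K : ℝ) ≤ 4 * R ^ 2 / M ^ c4 := by
      rw [le_div_iff₀ (by positivity)]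
      have h1 : M ^ c4 ≤ M ^ (ε / 2) := Real.rpow_le_rpow_of_exponent_le hM1 h4
      calc (K : ℝ) * M ^ c4 ≤ (M / L * ℓ ^ B') * M ^ (ε / 2) := by gcongr
        _ ≤ (M / L * M ^ (ε / 2)) * M ^ (ε / 2) := by gcongr
        _ = M / L * M ^ ε := by rw [mul_assoc, ← Real.rpow_add hM0]; ring_nf
        _ = M ^ (1 + ε) / L := by rw [Real.rpow_add hM0, Real.rpow_one]; ring
        _ ≤ R ^ 2 := by rw [div_le_iff₀ hL0]; exact hRL
        _ ≤ 4 * R ^ 2 := by nlinarith [sq_nonneg R]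
    have hV4 : M ^ (2 * c4) ≤ 4 * R ^ 2 := by
      have : M ^ (2 * c4) ≤ M ^ (2 * ε) := Real.rpow_le_rpow_of_exponent_le hM1 (by linarith)
      nlinarith [sq_nonneg R]
    -- the frequencies `k ≠ 0`
    have m1 := k1 (gP z0 c4 M) hbig.gP_bd (fun m hm => by
      by_contra hcon
      exact hm (hbig.gP_rough h34.le hcon).2) (fun a m ha hm => by
        have h1 := hbig.f1_rough le_rfl ha
        have h2 := hbig.gP_rough h34.le hm
        by_cases hct : ct (a * m) = 1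
        · exact Or.inl hct
        · right
          have h3 : a * m ≠ 0 := by
            intro h0
            have := (rough_mul h1.1 h2.1) 2 Nat.prime_two (by
              have h5 : 1 < zf M := by
                have h6 : (1 : ℝ) < (zf M : ℝ) := by
                  rw [pow_one] at hz1
                  linarith
                exact_mod_cast h6
              omega)
            apply this
            rw [h0]
            unfold nn
            simp
          have h4 := rough_ct (rough_mul h1.1 h2.1) h3 hct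
          have h5 : ((zf M : ℕ) : ℝ) ≤ (ct (a * m) : ℝ) := by exact_mod_cast h4.le
          exact hzA.trans h5) q K r (4 * R ^ 2) Y1' Y2 hq hqB hr hK hKV hR2M hV4 hY1p hYY hY2
    -- the frequency `k = 0`
    have hXw : M ^ c4 * M ^ c4 ≤ Y1' := by
      refine le_trans ?_ hY1''
      refine le_trans ?_ hRe
      rw [← Real.rpow_add hM0]
      exact Real.rpow_le_rpow_of_exponent_le hM1 (by linarith)
    have hstep := reg_step (f := f1 M c3 c4) (w0 := M ^ c3) (w1 := M ^ c4) (Real.one_le_rpow hM1 hc3.le) (by positivity)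
      (f1_nonneg hM1 _ _) (fun a ha => (f1_ne ha).2) (fun a ha => rough_cop hqz hq (hbig.f1_rough le_rfl ha).1)
      (hreg q hq hqB)
    have hY2M : Y2 ≤ M ^ (3 : ℝ) := by
      refine hY2.trans (hR2M.trans (le_of_eq ?_))
      norm_num
    have m0 := hstep r hr Y1' Y2 hXw hYY hY2M
    rw [zero_mul, zero_mul, sub_zero] at m0
    have hs1 : ∑ a ∈ bg (M ^ c3) (M ^ c4), f1 M c3 c4 a / nz a ≤ 288 * 1 := by
      refine (s1_le hM1' hc4.le (c3 := c3)).trans ?_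
      have : c4 ≤ 1 := by linarith
      linarith
    have hs0 : 0 ≤ ∑ a ∈ bg (M ^ c3) (M ^ c4), f1 M c3 c4 a / nz a := s1_nonneg hM1 _ _
    have m0' : |∑ t ∈ ci q r Y1' Y2, (if ct t = 1 then cv (f1 M c3 c4) (gP z0 c4 M) t else 0)| ≤
        (288 * 4 + 8000) * (R ^ 2 / ℓ ^ (A' + 1)) := by
      have e2 : ∑ t ∈ ci q r Y1' Y2, (if ct t = 1 then cv (f1 M c3 c4) (gP z0 c4 M) t else 0) =
          ∑ t ∈ ci q r Y1' Y2, cv (f1 M c3 c4) (gP z0 c4 M) t -
          ∑ t ∈ ci q r Y1' Y2, (if ct t = 1 then 0 else cv (f1 M c3 c4) (gP z0 c4 M) t) := by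
        rw [← sum_sub_distrib]
        refine sum_congr rfl fun t _ => ?_
        split_ifs <;> ring
      rw [e2]
      refine (abs_sub _ _).trans ?_
      have hY20 : 0 ≤ Y2 := hY1.trans hY12
      have h1 : |∑ t ∈ ci q r Y1' Y2, cv (f1 M c3 c4) (gP z0 c4 M) t| ≤ 288 * 4 * (R ^ 2 / ℓ ^ (A' + 1)) := by
        refine m0.trans ?_
        calc 1 / ℓ ^ (A' + 1) * (∑ a ∈ bg (M ^ c3) (M ^ c4), f1 M c3 c4 a / nz a) * Y2 ≤
              1 / ℓ ^ (A' + 1) * (288 * 1) * (4 * R ^ 2) := by gcongr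
          _ = _ := by ring
      have h2 : |∑ t ∈ ci q r Y1' Y2, (if ct t = 1 then 0 else cv (f1 M c3 c4) (gP z0 c4 M) t)| ≤
          8000 * (R ^ 2 / ℓ ^ (A' + 1)) := by
        refine (abs_sum_le_sum_abs _ _).trans ?_
        have h3 : ∀ t ∈ ci q r Y1' Y2, |if ct t = 1 then 0 else cv (f1 M c3 c4) (gP z0 c4 M) t| ≤
            if t ∈ (bl (4 * R ^ 2)).filter (fun t => zf M < ct t) then 108 else 0 := by
          intro t ht
          rw [mem_ci] at ht
          by_cases hct : ct t = 1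
          · rw [if_pos hct, abs_zero]
            split_ifs <;> norm_num
          · rw [if_neg hct]
            by_cases hz : cv (f1 M c3 c4) (gP z0 c4 M) t = 0
            · rw [hz, abs_zero]
              split_ifs <;> norm_num
            · rw [if_pos]
              · exact hbig.cv_bd ht.1 ((ht.2.1.trans hY2).trans hR2M)
              · rw [mem_filter, mem_bl]
                exact ⟨⟨ht.1, ht.2.1.trans hY2⟩, rough_ct (hbig.cv_rough h34.le hz) ht.1 hct⟩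
        refine (sum_le_sum h3).trans ?_
        rw [← sum_filter, sum_const, nsmul_eq_mul]
        have hz1' : 1 ≤ zf M := by unfold zf; exact Nat.one_le_two_pow
        have hR1 : 1 ≤ 4 * R ^ 2 := by
          have : 1 ≤ M ^ (2 * ε) := Real.one_le_rpow hM1 (by positivity)
          nlinarith
        have h4 : (((ci q r Y1' Y2).filter (fun t => t ∈ (bl (4 * R ^ 2)).filter (fun t => zf M < ct t))).card : ℝ) ≤
            9 * (4 * R ^ 2) / (zf M : ℝ) := by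
          refine le_trans ?_ (ct_big hR1 hz1')
          exact_mod_cast card_le_card fun t ht => (mem_filter.1 ht).2
        have h5 : 9 * (4 * R ^ 2) / (zf M : ℝ) ≤ 36 * (R ^ 2 / ℓ ^ (A' + 1)) := by
          have h6 : ℓ ^ (A' + 1) ≤ (zf M : ℝ) := (pow_le_pow_right₀ hℓ1 (by omega)).trans hzA
          calc 9 * (4 * R ^ 2) / (zf M : ℝ) ≤ 9 * (4 * R ^ 2) / ℓ ^ (A' + 1) := by
                apply div_le_div_of_nonneg_left (by positivity) (by positivity) h6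
            _ = _ := by ring
        have h7 : 0 ≤ R ^ 2 / ℓ ^ (A' + 1) := by positivity
        calc _ ≤ 36 * (R ^ 2 / ℓ ^ (A' + 1)) * 108 := mul_le_mul_of_nonneg_right (h4.trans h5) (by norm_num)
          _ ≤ _ := by linarith
      linarith
    have h0mem : (0 : ℤ) ∈ Icc (-(K : ℤ)) K := by rw [mem_Icc]; constructor <;> omega
    simp only [e1]
    rw [← add_sum_erase _ _ h0mem]
    have z1 : ‖∑ t ∈ ci q r Y1' Y2, ((if ct t = 1 then cv (f1 M c3 c4) (gP z0 c4 M) t else 0 : ℝ) : ℂ) * ph 0 0 t‖ ^ 2 ≤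
        (288 * 4 + 8000) ^ 2 * (R ^ 4 / ℓ ^ (A' + 1)) := by
      have h1 : ∀ t, ph 0 0 t = 1 := by
        intro t
        unfold ph
        simp
      simp only [h1, mul_one]
      rw [← Complex.ofReal_sum, Complex.norm_real, Real.norm_eq_abs]
      calc |∑ t ∈ ci q r Y1' Y2, (if ct t = 1 then cv (f1 M c3 c4) (gP z0 c4 M) t else 0)| ^ 2 ≤
            ((288 * 4 + 8000) * (R ^ 2 / ℓ ^ (A' + 1))) ^ 2 := pow_le_pow_left₀ (abs_nonneg _) m0' 2
        _ = (288 * 4 + 8000) ^ 2 * (R ^ 4 / ℓ ^ (A' + 1)) * (1 / ℓ ^ (A' + 1)) := by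
            field_simp
        _ ≤ (288 * 4 + 8000) ^ 2 * (R ^ 4 / ℓ ^ (A' + 1)) * 1 := by
            apply mul_le_mul_of_nonneg_left _ (by positivity)
            rw [div_le_one (by positivity)]
            exact one_le_pow₀ hℓ1
        _ = _ := mul_one _
    have z2 := m1
    calc _ ≤ (288 * 4 + 8000) ^ 2 * (R ^ 4 / ℓ ^ (A' + 1)) + (4 * R ^ 2) ^ 2 / ℓ ^ (A' + 1) := add_le_add z1 z2
      _ = ((288 * 4 + 8000) ^ 2 + 16) * (R ^ 4 / ℓ ^ (A' + 1)) := by ring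
      _ ≤ ℓ * (R ^ 4 / ℓ ^ (A' + 1)) := by
          apply mul_le_mul_of_nonneg_right _ (by positivity)
          norm_num at hlog ⊢
          linarith
      _ = R ^ 4 / ℓ ^ A' := by
          have e9 : ℓ ^ (A' + 1) = ℓ ^ A' * ℓ := pow_succ _ _
          rw [e9]
          field_simp

end Pool.Agent.J6H16.PR
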