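import Pool.Agent.J6H16.PR.Rr

/-!
# Project PR (helper16): the local factors
-/

set_option autoImplicit false

namespace Pool.Agent.J6H16.PR

open Finset Filter Topology MeasureTheory
open Pool.Agent.N782.GN Pool.Agent.N855.GN
open Pool.Agent.H304R3.HK (UH bb LamK CS)
open Pool.Agent.J6H16.PF

/-- a product over a larger set is smaller -/
theorem prod_anti {S T : Finset ℕ} {f : ℕ → ℝ} (h : S ⊆ T) (h0 : ∀ n ∈ T, 0 ≤ f n) (h1 : ∀ n ∈ T, f n ≤ 1) :
    ∏ n ∈ T, f n ≤ ∏ n ∈ S, f n := by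
  classical
  rw [← Finset.prod_sdiff h]
  have h2 : ∏ n ∈ T \ S, f n ≤ 1 :=
    Finset.prod_le_one (fun n hn => h0 n (mem_sdiff.1 hn).1) fun n hn => h1 n (mem_sdiff.1 hn).1
  have h3 : 0 ≤ ∏ n ∈ S, f n := Finset.prod_nonneg fun n hn => h0 n (h hn)
  calc (∏ n ∈ T \ S, f n) * ∏ n ∈ S, f n ≤ 1 * ∏ n ∈ S, f n := mul_le_mul_of_nonneg_right h2 h3
    _ = _ := one_mul _

/-- the number of the solutions of `n² + l² = 0` modulo a prime -/
noncomputable def wl (l p : ℕ) : ℕ := if p ∣ l then 1 else r1 p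

theorem r1_two : r1 2 = 1 := by
  unfold r1
  rw [Nat.card_eq_fintype_card]
  decide

theorem wl_le {l p : ℕ} (hp : p.Prime) : wl l p ≤ 2 := by
  unfold wl
  split_ifs
  · omega
  · exact r1_le hp

/-- the factors are not too small -/
theorem wl_third {l p : ℕ} (hp : p.Prime) : (1 : ℝ) / 3 ≤ 1 - (wl l p : ℝ) / p := by
  rcases Nat.lt_or_ge 2 p with h | h
  · have h1 : (wl l p : ℝ) ≤ 2 := by exact_mod_cast wl_le hp
    have h2 : (3 : ℝ) ≤ p := by exact_mod_cast h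
    have h3 : (wl l p : ℝ) / p ≤ 2 / 3 := by
      rw [div_le_div_iff₀ (by linarith) (by norm_num)]
      linarith
    linarith
  · have h2 : p = 2 := le_antisymm h hp.two_le
    have h3 : wl l 2 = 1 := by
      unfold wl
      rw [r1_two]
      split_ifs <;> rfl
    rw [h2, h3]
    norm_num

theorem gp_eq {p : ℕ} (hp : p.Prime) : 1 - gp p = (1 - (r1 p : ℝ) / p) + ((r1 p : ℝ) - 1) / (p : ℝ) ^ 2 := by
  have hp0 : (p : ℝ) ≠ 0 := by exact_mod_cast hp.ne_zero
  unfold gp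
  rw [N2_prime hp]
  have h1 : ((p - 1 : ℕ) : ℝ) = (p : ℝ) - 1 := by
    rw [Nat.cast_sub hp.one_le]
    push_cast
    rfl
  push_cast
  rw [h1]
  field_simp
  ring

/-- the comparison of the local factors -/
theorem ratio {l p : ℕ} (hp : p.Prime) : (1 - 1 / (p : ℝ) ^ 2) ^ 3 * (if p ∣ l then 1 - 1 / (p : ℝ) else 1) * (1 - gp p) ≤
    1 - (wl l p : ℝ) / p := by
  have hp2 : (2 : ℝ) ≤ p := by exact_mod_cast hp.two_le
  have hx0 : 0 ≤ 1 / (p : ℝ) ^ 2 := by positivity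
  have hx1 : 1 / (p : ℝ) ^ 2 ≤ 1 := by
    rw [div_le_one (by positivity)]
    nlinarith
  have hg0 : 0 ≤ 1 - gp p := by linarith [gp_lt hp]
  have hg1 : 1 - gp p ≤ 1 := by linarith [gp_nonneg p]
  have hy := wl_third (l := l) hp
  have hw0 : 0 ≤ (1 - 1 / (p : ℝ) ^ 2) ^ 3 := pow_nonneg (by linarith) 3
  have hw1 : (1 - 1 / (p : ℝ) ^ 2) ^ 3 ≤ 1 := pow_le_one₀ (by linarith) (by linarith)
  unfold wl at hy ⊢
  split_ifs at hy ⊢ with h
  · have h1 : 0 ≤ 1 - 1 / (p : ℝ) := by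
      push_cast at hy
      linarith
    push_cast
    calc (1 - 1 / (p : ℝ) ^ 2) ^ 3 * (1 - 1 / (p : ℝ)) * (1 - gp p) ≤ 1 * (1 - 1 / (p : ℝ)) * 1 := by gcongr
      _ = _ := by ring
  · rw [mul_one]
    set x := 1 / (p : ℝ) ^ 2 with hx
    set y := 1 - (r1 p : ℝ) / p with hy'
    have h2 : (r1 p : ℝ) ≤ 2 := by exact_mod_cast r1_le hp
    have h3 : 1 - gp p ≤ y + x := by
      rw [gp_eq hp, ← hy']
      have : ((r1 p : ℝ) - 1) / (p : ℝ) ^ 2 ≤ x := by
        rw [hx]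
        gcongr
        linarith
      linarith
    have h4 : (1 - x) ^ 3 * (1 + 3 * x) ≤ 1 := by
      have e1 : (1 - x) ^ 3 * (1 + 3 * x) = 1 - x ^ 2 * (6 - 8 * x + 3 * x ^ 2) := by ring
      rw [e1]
      have h5 : 0 ≤ 6 - 8 * x + 3 * x ^ 2 := by nlinarith [sq_nonneg (3 * x - 4)]
      nlinarith [mul_nonneg (sq_nonneg x) h5]
    have h5 : y + x ≤ y * (1 + 3 * x) := by nlinarith
    calc (1 - x) ^ 3 * (1 - gp p) ≤ (1 - x) ^ 3 * (y * (1 + 3 * x)) :=
          mul_le_mul_of_nonneg_left (h3.trans h5) hw0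
      _ = y * ((1 - x) ^ 3 * (1 + 3 * x)) := by ring
      _ ≤ y * 1 := mul_le_mul_of_nonneg_left h4 (by linarith)
      _ = y := mul_one _

theorem prod_sq (z : ℕ) : (1 : ℝ) / 2 ≤ ∏ p ∈ (Icc 2 z).filter Nat.Prime, (1 - 1 / (p : ℝ) ^ 2) := by
  have h1 : ∀ z : ℕ, 1 ≤ z → ∏ n ∈ Icc 2 z, (1 - 1 / (n : ℝ) ^ 2) = ((z : ℝ) + 1) / (2 * z) := by
    intro z hz
    induction z, hz using Nat.le_induction with
    | base => simp
    | succ n hn ih =>
      rw [← Finset.insert_Icc_right_eq_Icc_add_one (by omega), prod_insert (by simp), ih]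
      have : (0 : ℝ) < n := by exact_mod_cast hn
      push_cast
      field_simp
      ring
  have h0 : ∀ n ∈ Icc 2 z, 0 ≤ (1 - 1 / (n : ℝ) ^ 2) ∧ (1 - 1 / (n : ℝ) ^ 2) ≤ 1 := by
    intro n hn
    rw [mem_Icc] at hn
    have h2 : (2 : ℝ) ≤ n := by exact_mod_cast hn.1
    have h3 : 1 / (n : ℝ) ^ 2 ≤ 1 := by
      rw [div_le_one (by positivity)]
      nlinarith
    have h4 : 0 ≤ 1 / (n : ℝ) ^ 2 := by positivity
    constructor <;> linarith
  rcases Nat.eq_zero_or_pos z with h | h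
  · rw [h]
    simp
    norm_num
  · have h2 := h1 z h
    have h3 : ∏ n ∈ Icc 2 z, (1 - 1 / (n : ℝ) ^ 2) ≤ ∏ p ∈ (Icc 2 z).filter Nat.Prime, (1 - 1 / (p : ℝ) ^ 2) :=
      prod_anti (filter_subset _ _) (fun n hn => (h0 n hn).1) fun n hn => (h0 n hn).2
    refine le_trans ?_ h3
    rw [h2, div_le_div_iff₀ (by norm_num) (by have : (0 : ℝ) < z := by exact_mod_cast h
                                              positivity)]
    have : (0 : ℝ) < z := by exact_mod_cast h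
    linarith

/-- `φ(l) / l` as a product -/
noncomputable def fr (l : ℕ) : ℝ := ∏ p ∈ l.primeFactors, (1 - 1 / (p : ℝ))

/-- **the product over the local factors** -/
theorem Vl_lo (z0 : ℕ) : ∃ c : ℝ, 0 < c ∧ ∀ z l : ℕ, z0 ≤ z → 1 ≤ l →
    c * kq z z0 (W0 z0) * fr l ≤ ∏ p ∈ (Icc 2 z).filter Nat.Prime, (1 - (wl l p : ℝ) / p) := by
  classical
  set c0 : ℝ := ∏ p ∈ (Icc 2 z0).filter Nat.Prime, (1 - gp p) with hc0
  have hc0p : 0 < c0 := prod_pos fun p hp => by linarith [gp_lt (mem_filter.1 hp).2]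
  have hW : (0 : ℝ) < (W0 z0 : ℝ) := by exact_mod_cast W0_pos z0
  refine ⟨1 / 8 * (c0 * ((W0 z0 : ℝ) ^ 2 / Real.pi)), by positivity, ?_⟩
  intro z l hz hl
  set P := (Icc 2 z).filter Nat.Prime with hP
  have hPp : ∀ p ∈ P, p.Prime := fun p hp => (mem_filter.1 hp).2
  have h1 : ∏ p ∈ P, ((1 - 1 / (p : ℝ) ^ 2) ^ 3 * (if p ∣ l then 1 - 1 / (p : ℝ) else 1) * (1 - gp p)) ≤
      ∏ p ∈ P, (1 - (wl l p : ℝ) / p) := by
    apply Finset.prod_le_prod
    · intro p hp
      have hp2 : (2 : ℝ) ≤ p := by exact_mod_cast (hPp p hp).two_le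
      have h2 : 1 / (p : ℝ) ^ 2 ≤ 1 := by
        rw [div_le_one (by positivity)]
        nlinarith
      have h3 : 1 / (p : ℝ) ≤ 1 := by
        rw [div_le_one (by positivity)]
        linarith
      have h4 : 0 ≤ 1 - gp p := by linarith [gp_lt (hPp p hp)]
      apply mul_nonneg (mul_nonneg (pow_nonneg (by linarith) 3) _) h4
      split_ifs <;> linarith
    · intro p hp
      exact ratio (hPp p hp)
  refine le_trans ?_ h1
  rw [prod_mul_distrib, prod_mul_distrib, prod_pow]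
  have h2 : (1 : ℝ) / 8 ≤ (∏ p ∈ P, (1 - 1 / (p : ℝ) ^ 2)) ^ 3 := by
    have := pow_le_pow_left₀ (by norm_num) (prod_sq z) 3
    refine le_trans (by norm_num) this
  have h3 : fr l ≤ ∏ p ∈ P, (if p ∣ l then 1 - 1 / (p : ℝ) else 1) := by
    unfold fr
    rw [← prod_filter]
    apply prod_anti
    · intro p hp
      rw [mem_filter] at hp
      rw [Nat.mem_primeFactors]
      exact ⟨hPp p hp.1, hp.2, by omega⟩
    · intro p hp
      have hp2 : (2 : ℝ) ≤ p := by exact_mod_cast (Nat.prime_of_mem_primeFactors hp).two_le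
      have h3 : 1 / (p : ℝ) ≤ 1 := by
        rw [div_le_one (by positivity)]
        linarith
      linarith
    · intro p hp
      have : 0 ≤ 1 / (p : ℝ) := by positivity
      linarith
  have hfr0 : 0 ≤ fr l := by
    unfold fr
    refine prod_nonneg fun p hp => ?_
    have hp2 : (2 : ℝ) ≤ p := by exact_mod_cast (Nat.prime_of_mem_primeFactors hp).two_le
    have h3 : 1 / (p : ℝ) ≤ 1 := by
      rw [div_le_one (by positivity)]
      linarith
    linarith
  have h4 : ∏ p ∈ P, (1 - gp p) = c0 * ((W0 z0 : ℝ) ^ 2 / Real.pi) * kq z z0 (W0 z0) := by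
    have e1 : P = (Icc 2 z0).filter Nat.Prime ∪ PQ z z0 (W0 z0) := by
      ext p
      rw [hP, mem_union, mem_filter, mem_filter, mem_PQ, mem_Icc, mem_Icc]
      constructor
      · rintro ⟨⟨h2, h3⟩, h4⟩
        rcases Nat.lt_or_ge z0 p with h5 | h5
        · right
          refine ⟨⟨h5, h3⟩, h4, fun hd => ?_⟩
          unfold W0 at hd
          rw [Prime.dvd_finsetProd_iff h4.prime] at hd
          obtain ⟨q, hq, hqd⟩ := hd
          rw [mem_filter, mem_range] at hq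
          rw [Nat.prime_dvd_prime_iff_eq h4 hq.2] at hqd
          omega
        · exact Or.inl ⟨⟨h2, h5⟩, h4⟩
      · rintro (⟨⟨h2, h3⟩, h4⟩ | ⟨⟨h2, h3⟩, h4, -⟩)
        · exact ⟨⟨h2, by omega⟩, h4⟩
        · exact ⟨⟨h4.two_le, h3⟩, h4⟩
    have e2 : Disjoint ((Icc 2 z0).filter Nat.Prime) (PQ z z0 (W0 z0)) := by
      rw [disjoint_left]
      intro p hp hp'
      rw [mem_filter, mem_Icc] at hp
      rw [mem_PQ] at hp'
      omega
    rw [e1, prod_union e2, ← hc0]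
    unfold kq
    field_simp
  rw [h4]
  have hk := kq_nonneg z z0 (W0 z0)
  calc 1 / 8 * (c0 * ((W0 z0 : ℝ) ^ 2 / Real.pi)) * kq z z0 (W0 z0) * fr l =
        (1 / 8) * fr l * (c0 * ((W0 z0 : ℝ) ^ 2 / Real.pi) * kq z z0 (W0 z0)) := by ring
    _ ≤ _ := by gcongr

/-- `φ(l) / l` is not too small -/
theorem prod_lo (S : Finset ℕ) (hS : ∀ n ∈ S, 2 ≤ n) : 1 / ((S.card : ℝ) + 1) ≤ ∏ n ∈ S, (1 - 1 / (n : ℝ)) := by
  classical
  induction S using Finset.induction_on_max with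
  | empty => simp
  | insert a s ha ih =>
    have ih' := ih fun n hn => hS n (mem_insert_of_mem hn)
    have hnot : a ∉ s := fun h => lt_irrefl _ (ha a h)
    rw [prod_insert hnot, card_insert_of_notMem hnot]
    have h1 : s.card + 2 ≤ a := by
      have h2 : s ⊆ Ico 2 a := by
        intro n hn
        rw [mem_Ico]
        exact ⟨hS n (mem_insert_of_mem hn), ha n hn⟩
      have h3 := card_le_card h2
      rw [Nat.card_Ico] at h3
      have h4 := hS a (mem_insert_self _ _)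
      omega
    have h5 : ((s.card : ℝ) + 2) ≤ a := by exact_mod_cast h1
    have hs0 : (0 : ℝ) ≤ s.card := Nat.cast_nonneg _
    have h6 : 1 / (a : ℝ) ≤ 1 / ((s.card : ℝ) + 2) := one_div_le_one_div_of_le (by linarith) h5
    have h7 : 0 ≤ 1 - 1 / ((s.card : ℝ) + 2) := by
      have : 1 / ((s.card : ℝ) + 2) ≤ 1 := by
        rw [div_le_one (by linarith)]
        linarith
      linarith
    push_cast
    calc 1 / ((s.card : ℝ) + 1 + 1) = (1 - 1 / ((s.card : ℝ) + 2)) * (1 / ((s.card : ℝ) + 1)) := by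
          field_simp
          ring
      _ ≤ (1 - 1 / (a : ℝ)) * ∏ n ∈ s, (1 - 1 / (n : ℝ)) := by
          apply mul_le_mul (by linarith) ih' (by positivity)
          linarith

theorem fr_lo {l : ℕ} (hl : 1 ≤ l) {x : ℝ} (hx : 3 ≤ x) (hlx : (l : ℝ) ≤ x) : 1 / (3 * Real.log x) ≤ fr l := by
  have h1 := prod_lo l.primeFactors (fun p hp => (Nat.prime_of_mem_primeFactors hp).two_le)
  refine le_trans ?_ h1
  have hlx1 : 1 ≤ Real.log x := one_le_log hx
  have h2 : (2 : ℕ) ^ l.primeFactors.card ≤ l := by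
    calc 2 ^ l.primeFactors.card = ∏ p ∈ l.primeFactors, 2 := by rw [prod_const]
      _ ≤ ∏ p ∈ l.primeFactors, p := prod_le_prod' fun p hp => (Nat.prime_of_mem_primeFactors hp).two_le
      _ ≤ l := Nat.le_of_dvd hl (Nat.prod_primeFactors_dvd l)
  have h3 : (l.primeFactors.card : ℝ) * Real.log 2 ≤ Real.log x := by
    rw [← Real.log_pow]
    apply Real.log_le_log (by positivity)
    refine le_trans ?_ hlx
    exact_mod_cast h2
  have h4 := Real.log_two_gt_d9
  apply one_div_le_one_div_of_le (by positivity)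
  have h5 : (0 : ℝ) ≤ l.primeFactors.card := Nat.cast_nonneg _
  nlinarith

end Pool.Agent.J6H16.PR
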