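import Pool.Agent.J6H16.PR.Vl
import Pool.Agent.N136.QL.FLC

/-!
# Project PR (helper16): rough numbers on a line, in a class
-/

set_option autoImplicit false

namespace Pool.Agent.J6H16.PR

open Finset Filter Topology MeasureTheory
open Pool.Agent.N782.GN Pool.Agent.N855.GN
open Pool.Agent.H304R3.HK (UH bb LamK CS)
open Pool.Agent.J6H16.PF

/-- the multiples of `u` on the line of the real part `l` -/
theorem line_cls {u : ZI} (hct : ct u = 1) (l : ℤ) : ∃ n0 : ℤ, ∀ j : ℤ, u ∣ (⟨l, n0 + (nn u : ℤ) * j⟩ : ZI) := by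
  have h1 : IsCoprime u.re u.im := by
    rw [Int.isCoprime_iff_gcd_eq_one]
    exact hct
  obtain ⟨s, t, hst⟩ := h1
  refine ⟨l * (u.im * s - u.re * t), fun j => ?_⟩
  have h2 : u ∣ (⟨l, l * (u.im * s - u.re * t)⟩ : ZI) := by
    refine ⟨⟨l * s, -(l * t)⟩, ?_⟩
    apply Zsqrtd.ext
    · rw [Zsqrtd.re_mul]
      simp only
      linear_combination (-l) * hst
    · rw [Zsqrtd.im_mul]
      simp only
      ring
  have h3 : u ∣ (⟨0, (nn u : ℤ) * j⟩ : ZI) := by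
    have h5 : u * star u = ((Zsqrtd.norm u : ℤ) : ZI) := (Zsqrtd.norm_eq_mul_conj u).symm
    have h6 : (Zsqrtd.norm u : ℤ) = ((nn u : ℕ) : ℤ) := by
      unfold nn
      rw [Int.natAbs_of_nonneg (GaussianInt.norm_nonneg u)]
    refine ⟨star u * ⟨0, j⟩, ?_⟩
    rw [← mul_assoc, h5, h6]
    apply Zsqrtd.ext
    · rw [Zsqrtd.re_mul, Zsqrtd.re_intCast, Zsqrtd.im_intCast]
      simp
    · rw [Zsqrtd.im_mul, Zsqrtd.re_intCast, Zsqrtd.im_intCast]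
      simp
  have h4 : (⟨l, l * (u.im * s - u.re * t) + (nn u : ℤ) * j⟩ : ZI) =
      (⟨l, l * (u.im * s - u.re * t)⟩ : ZI) + ⟨0, (nn u : ℤ) * j⟩ := by
    apply Zsqrtd.ext
    · rw [Zsqrtd.re_add]; simp
    · rw [Zsqrtd.im_add]
  rw [h4]
  exact dvd_add h2 h3

theorem nn_mk (l n : ℤ) : ((nn (⟨l, n⟩ : ZI) : ℕ) : ℤ) = l ^ 2 + n ^ 2 := by
  unfold nn
  rw [Int.natAbs_of_nonneg (GaussianInt.norm_nonneg _), Zsqrtd.norm_def]
  ring

theorem dvd_nn_mk (p : ℕ) (l n : ℤ) : p ∣ nn (⟨l, n⟩ : ZI) ↔ (p : ℤ) ∣ l ^ 2 + n ^ 2 := by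
  rw [← nn_mk]
  exact Int.natCast_dvd_natCast.symm

/-- the forbidden classes -/
def Omc (l U : ℕ) (n0 : ℤ) (p : ℕ) : Finset ℕ := (range p).filter (fun j => (p : ℤ) ∣ (l : ℤ) ^ 2 + (n0 + (U : ℤ) * (j : ℤ)) ^ 2)

theorem mod_Omc {l U : ℕ} {n0 : ℤ} {p : ℕ} (hp : 0 < p) (j : ℕ) :
    j % p ∈ Omc l U n0 p ↔ (p : ℤ) ∣ (l : ℤ) ^ 2 + (n0 + (U : ℤ) * (j : ℤ)) ^ 2 := by
  unfold Omc
  rw [mem_filter, mem_range, and_iff_right (Nat.mod_lt _ hp)]
  have h1 : (p : ℤ) ∣ ((l : ℤ) ^ 2 + (n0 + (U : ℤ) * (j : ℤ)) ^ 2) - ((l : ℤ) ^ 2 + (n0 + (U : ℤ) * ((j % p : ℕ) : ℤ)) ^ 2) := by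
    have h2 : (j : ℤ) = ((j % p : ℕ) : ℤ) + (p : ℤ) * ((j / p : ℕ) : ℤ) := by
      exact_mod_cast (Nat.mod_add_div j p).symm
    refine ⟨(U : ℤ) * ((j / p : ℕ) : ℤ) * ((n0 + (U : ℤ) * (j : ℤ)) + (n0 + (U : ℤ) * ((j % p : ℕ) : ℤ))), ?_⟩
    have h3 : ((l : ℤ) ^ 2 + (n0 + (U : ℤ) * (j : ℤ)) ^ 2) - ((l : ℤ) ^ 2 + (n0 + (U : ℤ) * ((j % p : ℕ) : ℤ)) ^ 2) =
        ((U : ℤ) * ((j : ℤ) - ((j % p : ℕ) : ℤ))) * ((n0 + (U : ℤ) * (j : ℤ)) + (n0 + (U : ℤ) * ((j % p : ℕ) : ℤ))) := by ring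
    rw [h3, show (j : ℤ) - ((j % p : ℕ) : ℤ) = (p : ℤ) * ((j / p : ℕ) : ℤ) by linarith]
    ring
  constructor
  · intro h
    have := dvd_add h1 h
    rwa [sub_add_cancel] at this
  · intro h
    have := dvd_sub h h1
    rwa [sub_sub_cancel] at this

theorem Omc_card {l U : ℕ} (n0 : ℤ) {p : ℕ} (hp : p.Prime) (hU : ¬ p ∣ U) : (Omc l U n0 p).card ≤ wl l p := by
  classical
  have : Fact p.Prime := ⟨hp⟩
  have hU0 : (U : ZMod p) ≠ 0 := by rwa [Ne, ZMod.natCast_eq_zero_iff]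
  have hinj : ∀ j ∈ Omc l U n0 p, ∀ j' ∈ Omc l U n0 p, ((n0 : ZMod p) + (U : ZMod p) * (j : ZMod p)) =
      ((n0 : ZMod p) + (U : ZMod p) * (j' : ZMod p)) → j = j' := by
    intro j hj j' hj' h
    unfold Omc at hj hj'
    rw [mem_filter, mem_range] at hj hj'
    have h1 : (j : ZMod p) = (j' : ZMod p) := mul_left_cancel₀ hU0 (add_left_cancel h)
    rw [ZMod.natCast_eq_natCast_iff'] at h1
    rwa [Nat.mod_eq_of_lt hj.1, Nat.mod_eq_of_lt hj'.1] at h1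
  have hz : ∀ j ∈ Omc l U n0 p, (l : ZMod p) ^ 2 + ((n0 : ZMod p) + (U : ZMod p) * (j : ZMod p)) ^ 2 = 0 := by
    intro j hj
    unfold Omc at hj
    rw [mem_filter] at hj
    have h1 := (ZMod.intCast_zmod_eq_zero_iff_dvd _ p).2 hj.2
    push_cast at h1
    exact h1
  unfold wl
  split_ifs with hl
  · rw [card_le_one]
    intro j hj j' hj'
    apply hinj j hj j' hj'
    have hl0 : (l : ZMod p) = 0 := by rwa [ZMod.natCast_eq_zero_iff]
    have h1 := hz j hj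
    have h2 := hz j' hj'
    rw [hl0, zero_pow (by norm_num), zero_add] at h1 h2
    rw [pow_eq_zero_iff (by norm_num)] at h1 h2
    rw [h1, h2]
  · have hl0 : (l : ZMod p) ≠ 0 := by rwa [Ne, ZMod.natCast_eq_zero_iff]
    have h2 : r1 p = (univ.filter (fun x : ZMod p => x ^ 2 + 1 = 0)).card := by
      unfold r1
      rw [Nat.card_eq_fintype_card, Fintype.card_subtype]
    rw [h2]
    refine card_le_card_of_injOn (fun j : ℕ => ((n0 : ZMod p) + (U : ZMod p) * (j : ZMod p)) * (l : ZMod p)⁻¹) ?_ ?_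
    · intro j hj
      rw [mem_coe, mem_filter]
      refine ⟨mem_univ _, ?_⟩
      have h1 := hz j hj
      have h3 : (((n0 : ZMod p) + (U : ZMod p) * (j : ZMod p)) * (l : ZMod p)⁻¹) ^ 2 + 1 =
          ((l : ZMod p) ^ 2 + ((n0 : ZMod p) + (U : ZMod p) * (j : ZMod p)) ^ 2) * ((l : ZMod p)⁻¹) ^ 2 := by
        field_simp
        ring
      rw [h3, h1, zero_mul]
    · intro j hj j' hj' h
      exact hinj j hj j' hj' (mul_right_cancel₀ (inv_ne_zero hl0) h)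

/-- a crude lower bound of the factors -/
theorem wl_cube {l p : ℕ} (hp : p.Prime) : (1 - 1 / (p : ℝ)) ^ 3 ≤ 1 - (wl l p : ℝ) / p := by
  rcases Nat.lt_or_ge 2 p with h | h
  · have h1 : (wl l p : ℝ) ≤ 2 := by exact_mod_cast wl_le hp
    have h2 : (3 : ℝ) ≤ p := by exact_mod_cast h
    have h3 : (wl l p : ℝ) / p ≤ 2 / p := by gcongr
    have h4 : (0 : ℝ) < 1 / p := by positivity
    have h5 : 1 / (p : ℝ) ≤ 1 / 3 := one_div_le_one_div_of_le (by norm_num) h2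
    have h6 : (2 : ℝ) / p = 2 * (1 / p) := by ring
    rw [h6] at h3
    set x := 1 / (p : ℝ)
    nlinarith [mul_pos h4 h4, mul_pos h4 (mul_pos h4 h4)]
  · have h2 : p = 2 := le_antisymm h hp.two_le
    have h3 : wl l 2 = 1 := by
      unfold wl
      rw [r1_two]
      split_ifs <;> rfl
    rw [h2, h3]
    norm_num

theorem prod_inv (z : ℕ) (hz : 1 ≤ z) : ∏ n ∈ Icc 2 z, (1 - 1 / (n : ℝ)) = 1 / z := by
  induction z, hz using Nat.le_induction with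
  | base => simp
  | succ n hn ih =>
    rw [← Finset.insert_Icc_right_eq_Icc_add_one (by omega), prod_insert (by simp), ih]
    have : (0 : ℝ) < n := by exact_mod_cast hn
    push_cast
    field_simp
    ring

/-- the product over the local factors -/
noncomputable def Vp (z l : ℕ) : ℝ := ∏ p ∈ (Icc 2 z).filter Nat.Prime, (1 - (wl l p : ℝ) / p)

theorem Vp_lo {z : ℕ} (hz : 1 ≤ z) (l : ℕ) : 1 / (z : ℝ) ^ 3 ≤ Vp z l := by
  unfold Vp
  have h1 : ∏ p ∈ (Icc 2 z).filter Nat.Prime, (1 - 1 / (p : ℝ)) ^ 3 ≤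
      ∏ p ∈ (Icc 2 z).filter Nat.Prime, (1 - (wl l p : ℝ) / p) := by
    apply Finset.prod_le_prod
    · intro p hp
      have hp2 : (2 : ℝ) ≤ p := by exact_mod_cast (mem_filter.1 hp).2.two_le
      apply pow_nonneg
      have : 1 / (p : ℝ) ≤ 1 := by rw [div_le_one (by linarith)]; linarith
      linarith
    · intro p hp
      exact wl_cube (mem_filter.1 hp).2
  refine le_trans ?_ h1
  rw [prod_pow]
  have h2 : 1 / (z : ℝ) ≤ ∏ p ∈ (Icc 2 z).filter Nat.Prime, (1 - 1 / (p : ℝ)) := by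
    rw [← prod_inv z hz]
    apply prod_anti (filter_subset _ _)
    · intro n hn
      rw [mem_Icc] at hn
      have hp2 : (2 : ℝ) ≤ n := by exact_mod_cast hn.1
      have : 1 / (n : ℝ) ≤ 1 := by rw [div_le_one (by linarith)]; linarith
      linarith
    · intro n hn
      have : 0 ≤ 1 / (n : ℝ) := by positivity
      linarith
  calc 1 / (z : ℝ) ^ 3 = (1 / (z : ℝ)) ^ 3 := by rw [div_pow, one_pow]
    _ ≤ _ := pow_le_pow_left₀ (by positivity) h2 3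

theorem Vp_nonneg (z l : ℕ) : 0 ≤ Vp z l := by
  unfold Vp
  refine prod_nonneg fun p hp => ?_
  linarith [wl_third (l := l) (mem_filter.1 hp).2]

open Classical in
/-- **the number of the rough numbers on a line, in a class** -/
theorem cnt {δ : ℝ} (hδ : 0 < δ) : ∀ᶠ M : ℝ in atTop, ∀ (l U : ℕ) (n0 : ℤ) (n2 : ℕ),
    (∀ p : ℕ, p.Prime → p ≤ zf M → ¬ p ∣ U) → M ^ δ ≤ n2 →
    1 / 4 * (n2 : ℝ) * Vp (zf M) l ≤
      (((Ioc 0 n2).filter (fun j : ℕ => rough (zf M) (⟨l, n0 + (U : ℤ) * (j : ℤ)⟩ : ZI))).card : ℝ) := by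
  obtain ⟨C, hC, H⟩ := Pool.Agent.N136.QL.gen8
  filter_upwards [par_b (2 * C + 3) (show 0 < δ / 2 by positivity), par_d, par_e C,
    ev_qM (show 0 < δ / 4 by positivity) 1, ev_rp (show 0 < δ / 4 by positivity) (4 * (C : ℝ) ^ C),
    eventually_ge_atTop (3 : ℝ)] with M hb hd he hq1 hq2 hM3
  intro l U n0 n2 hU hn2
  have hM0 : 0 < M := by linarith
  have hM1 : 1 ≤ M := by linarith
  set z := zf M with hz
  have hz1 : 1 ≤ z := by rw [hz]; unfold zf; exact Nat.one_le_two_pow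
  have hz1' : (1 : ℝ) ≤ z := by exact_mod_cast hz1
  set P' := (Icc 2 z).filter Nat.Prime with hP'
  have hPp : ∀ p ∈ P', p.Prime ∧ p ≤ z := fun p hp => by
    rw [hP', mem_filter, mem_Icc] at hp
    exact ⟨hp.2, hp.1.2⟩
  have hoc : ∀ p ∈ P', (Omc l U n0 p).card ≤ wl l p := fun p hp =>
    Omc_card n0 (hPp p hp).1 (hU p (hPp p hp).1 (hPp p hp).2)
  have h1 := H (bf M) (Jf M) C n2 P' (Omc l U n0) he le_rfl (fun p hp => hPp p hp)
    (fun p _ => filter_subset _ _) (fun p hp => by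
      have := hoc p hp
      have := wl_le (l := l) (hPp p hp).1
      omega)
  have e1 : (Ioc 0 n2).filter (fun n => ∀ p ∈ P', n % p ∉ Omc l U n0 p) =
      (Ioc 0 n2).filter (fun j : ℕ => rough z (⟨l, n0 + (U : ℤ) * (j : ℤ)⟩ : ZI)) := by
    apply filter_congr
    intro j _
    unfold rough
    constructor
    · intro h p hp hpz
      have hpP : p ∈ P' := by
        rw [hP', mem_filter, mem_Icc]
        exact ⟨⟨hp.two_le, hpz⟩, hp⟩
      rw [dvd_nn_mk]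
      have := h p hpP
      rwa [mod_Omc hp.pos] at this
    · intro h p hp
      have := h p (hPp p hp).1 (hPp p hp).2
      rw [dvd_nn_mk] at this
      rwa [mod_Omc (hPp p hp).1.pos]
  rw [e1] at h1
  set N1 : ℝ := (((Ioc 0 n2).filter (fun j : ℕ => rough z (⟨l, n0 + (U : ℤ) * (j : ℤ)⟩ : ZI))).card : ℝ) with hN1
  set V' := ∏ p ∈ P', (1 - (((Omc l U n0 p).card : ℕ) : ℝ) / p) with hV'
  have hVV : Vp z l ≤ V' := by
    unfold Vp
    rw [hV', ← hP']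
    apply Finset.prod_le_prod
    · intro p hp
      linarith [wl_third (l := l) (hPp p hp).1]
    · intro p hp
      have h2 : (((Omc l U n0 p).card : ℕ) : ℝ) ≤ (wl l p : ℝ) := by exact_mod_cast hoc p hp
      have h3 : (((Omc l U n0 p).card : ℕ) : ℝ) / p ≤ (wl l p : ℝ) / p := by gcongr
      linarith
  have hV0 := Vp_nonneg z l
  have hb1 : (1 / 2 : ℝ) ^ (bf M) ≤ 1 / 2 := by
    calc (1 / 2 : ℝ) ^ (bf M) ≤ (1 / 2 : ℝ) ^ 1 := pow_le_pow_of_le_one (by norm_num) (by norm_num) (by omega)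
      _ = 1 / 2 := pow_one _
  have hn0 : (0 : ℝ) ≤ n2 := Nat.cast_nonneg _
  -- the error
  have herr : (C : ℝ) ^ C * (((Jf M : ℝ) + 2) * (((2 ^ 2 ^ (Jf M) : ℕ) : ℝ) ^ (C * bf M)) ^ 2) ≤ 1 / 4 * (n2 : ℝ) * Vp z l := by
    have e2 : (((2 ^ 2 ^ (Jf M) : ℕ) : ℝ) ^ (C * bf M)) ^ 2 = (z : ℝ) ^ (2 * C * bf M) := by
      rw [hz]
      unfold zf
      rw [← pow_mul]
      congr 1
      ring
    rw [e2]
    rw [pow_one] at hq1
    have hCp : (0 : ℝ) < (C : ℝ) ^ C := by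
      have : (0 : ℝ) < C := by exact_mod_cast hC
      positivity
    have h2 : (z : ℝ) ^ (2 * C * bf M) * (z : ℝ) ^ 3 ≤ M ^ (δ / 2) := by
      refine le_trans ?_ hb
      rw [← pow_add]
      apply pow_le_pow_right₀ hz1'
      have : 1 ≤ bf M := le_trans hC he
      nlinarith
    have h3 : M ^ (δ / 4) * M ^ (δ / 4) * M ^ (δ / 2) = M ^ δ := by
      rw [← Real.rpow_add hM0, ← Real.rpow_add hM0]
      congr 1
      ring
    have h4 : 4 * ((C : ℝ) ^ C * (((Jf M : ℝ) + 2) * (z : ℝ) ^ (2 * C * bf M))) * (z : ℝ) ^ 3 ≤ n2 := by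
      refine le_trans ?_ hn2
      rw [← h3]
      calc 4 * ((C : ℝ) ^ C * (((Jf M : ℝ) + 2) * (z : ℝ) ^ (2 * C * bf M))) * (z : ℝ) ^ 3 =
            (4 * (C : ℝ) ^ C) * ((Jf M : ℝ) + 2) * ((z : ℝ) ^ (2 * C * bf M) * (z : ℝ) ^ 3) := by ring
        _ ≤ M ^ (δ / 4) * M ^ (δ / 4) * M ^ (δ / 2) := by
            have h5 := hd.trans hq1
            gcongr
    have h5 := Vp_lo hz1 l
    have hz3 : (0 : ℝ) < (z : ℝ) ^ 3 := by positivity
    calc (C : ℝ) ^ C * (((Jf M : ℝ) + 2) * (z : ℝ) ^ (2 * C * bf M)) =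
          1 / 4 * (4 * ((C : ℝ) ^ C * (((Jf M : ℝ) + 2) * (z : ℝ) ^ (2 * C * bf M))) * (z : ℝ) ^ 3) * (1 / (z : ℝ) ^ 3) := by
          field_simp
      _ ≤ 1 / 4 * (n2 : ℝ) * Vp z l := by gcongr
  have h6 := (abs_le.1 h1).1
  have h7 : (n2 : ℝ) * Vp z l ≤ (n2 : ℝ) * V' := mul_le_mul_of_nonneg_left hVV hn0
  have h8 : (1 / 2 : ℝ) ^ (bf M) * ((n2 : ℝ) * V') ≤ 1 / 2 * ((n2 : ℝ) * V') :=
    mul_le_mul_of_nonneg_right hb1 (mul_nonneg hn0 (hV0.trans hVV))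
  linarith

end Pool.Agent.J6H16.PR
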