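import Pool.Agent.J6H16.PR.Up

/-!
# Project PR (helper16): the number for almost all `l`, at a fixed scale
-/

set_option autoImplicit false

namespace Pool.Agent.J6H16.PR

open Finset Filter Topology MeasureTheory
open Pool.Agent.N782.GN Pool.Agent.N855.GN
open Pool.Agent.H304R3.HK (UH bb LamK CS)
open Pool.Agent.J6H16.PF

/-- the windows -/
theorem tele (g : ZI → ℝ) {M R₀ : ℝ} (hM : 0 < M) (hR₀ : 0 < R₀) (J : ℕ) :
    ∑ j ∈ range (J + 1), ∑ v ∈ bg ((M / (8 * (2 ^ j * R₀))) ^ 2) (4 * (M / (8 * (2 ^ j * R₀))) ^ 2), g v =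
      ∑ v ∈ bg ((M / (8 * (2 ^ J * R₀))) ^ 2) (4 * (M / (8 * R₀)) ^ 2), g v := by
  have hmono : ∀ j : ℕ, (M / (8 * (2 ^ (j + 1) * R₀))) ^ 2 ≤ (M / (8 * (2 ^ j * R₀))) ^ 2 := by
    intro j
    have : (2 : ℝ) ^ j ≤ 2 ^ (j + 1) := pow_le_pow_right₀ (by norm_num) (Nat.le_succ j)
    gcongr
  have hle : ∀ j : ℕ, (M / (8 * (2 ^ j * R₀))) ^ 2 ≤ 4 * (M / (8 * R₀)) ^ 2 := by
    intro j
    induction j with
    | zero =>
      rw [pow_zero, one_mul]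
      nlinarith [sq_nonneg (M / (8 * R₀))]
    | succ j ih => exact (hmono j).trans ih
  induction J with
  | zero =>
    rw [zero_add, sum_range_one]
    simp
  | succ J ih =>
    rw [sum_range_succ, ih]
    have e1 : 4 * (M / (8 * (2 ^ (J + 1) * R₀))) ^ 2 = (M / (8 * (2 ^ J * R₀))) ^ 2 := by
      rw [pow_succ]
      field_simp
      ring
    rw [e1, bg_sum _ (hle J), bg_sum _ (hmono J), bg_sum _ (hle (J + 1))]
    ring

/-- the number of the windows -/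
theorem parJ {κ : ℝ} (hκ : 0 < κ) (hκ1 : κ ≤ 1) {M : ℝ} (hM : 3 ≤ M) : ∃ J : ℕ, (4 : ℝ) ^ J ≤ M ^ κ ∧ M ^ κ ≤ 4 * 4 ^ J ∧
    (J : ℝ) + 1 ≤ 2 * Real.log M := by
  have hM0 : 0 < M := by linarith
  have hM1 : 1 ≤ M := by linarith
  have hℓ1 : 1 ≤ Real.log M := one_le_log hM
  have hl4 : 1 ≤ Real.log 4 := by
    have h1 : Real.log 4 = 2 * Real.log 2 := by
      rw [show (4 : ℝ) = 2 ^ 2 by norm_num, Real.log_pow]
      norm_num
    linarith [Real.log_two_gt_d9]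
  have hl40 : 0 < Real.log 4 := by linarith
  have hMk : M ^ κ = Real.exp (κ * Real.log M) := by
    rw [Real.rpow_def_of_pos hM0, mul_comm]
  have h4 : ∀ n : ℕ, (4 : ℝ) ^ n = Real.exp (n * Real.log 4) := by
    intro n
    rw [← Real.log_pow, Real.exp_log (by positivity)]
  set y := κ * Real.log M / Real.log 4 with hy
  have hy0 : 0 ≤ y := by positivity
  refine ⟨⌊y⌋₊, ?_, ?_, ?_⟩
  · rw [h4, hMk]
    apply Real.exp_le_exp.2
    have := Nat.floor_le hy0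
    calc (⌊y⌋₊ : ℝ) * Real.log 4 ≤ y * Real.log 4 := by gcongr
      _ = κ * Real.log M := by rw [hy]; field_simp
  · have e1 : (4 : ℝ) * 4 ^ ⌊y⌋₊ = 4 ^ (⌊y⌋₊ + 1) := by ring
    rw [e1, h4, hMk]
    apply Real.exp_le_exp.2
    have := (Nat.lt_floor_add_one y).le
    push_cast
    calc κ * Real.log M = y * Real.log 4 := by rw [hy]; field_simp
      _ ≤ _ := by gcongr
  · have h1 := Nat.floor_le hy0
    have h2 : y ≤ Real.log M := by
      rw [hy, div_le_iff₀ hl40]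
      nlinarith
    linarith

theorem Th_smul (β γ : ZI → ℝ) (s R P : ℝ) (l : ℤ) : Th β (fun v => s * γ v) R P l = s * Th β γ R P l := by
  unfold Th
  rw [mul_sum]
  refine sum_congr rfl fun v _ => ?_
  rw [mul_sum]
  refine sum_congr rfl fun w _ => ?_
  split_ifs <;> ring

theorem fr_nonneg (l : ℕ) : 0 ≤ fr l := by
  unfold fr
  refine prod_nonneg fun p hp => ?_
  have hp2 : (2 : ℝ) ≤ p := by exact_mod_cast (Nat.prime_of_mem_primeFactors hp).two_le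
  have h3 : 1 / (p : ℝ) ≤ 1 := by
    rw [div_le_one (by positivity)]
    linarith
  linarith

/-- one element -/
theorem lowT {c3 c4 M R₀ Cγ cV S κ cW σ μ : ℝ} {γ : ZI → ℝ} {z0 J l : ℕ} (hM : 3 ≤ M) (hR₀ : 0 < R₀)
    (hS : Sf z0 c4 M = S) (hS0 : 0 ≤ S) (hS6 : S ≤ 6) (hW : cW ≤ Real.log M * (S * κ))
    (hcW : 0 < cW) (hCγ : 0 ≤ Cγ)
    (hV : cV * κ * fr l ≤ Vp (zf M) l) (hcV : 0 < cV) (hs1 : σ ≤ s1 M c3 c4) (hσ : 0 < σ)
    (hμ : μ ≤ ∑ v ∈ bg ((M / (8 * (2 ^ J * R₀))) ^ 2) (4 * (M / (8 * R₀)) ^ 2), γ v / nz v) (hμ0 : 0 < μ)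
    (hlow : ∀ j ∈ range (J + 1), M / 128 * Vp (zf M) l * (s1 M c3 c4 *
      ∑ v ∈ bg ((M / (8 * (2 ^ j * R₀))) ^ 2) (4 * (M / (8 * (2 ^ j * R₀))) ^ 2), γ v / nz v) -
      12 * Cγ * (Real.log M * M / zf M) ≤ Th (uR M c3 c4 (2 ^ j * R₀)) γ (2 ^ j * R₀) (M / (8 * (2 ^ j * R₀))) l) :
    cV * cW * σ * μ / 128 * fr l * (M / Real.log M) - (J + 1) * (72 * Cγ * (Real.log M * M / zf M)) -
      ∑ j ∈ range (J + 1), |Th (bP z0 c3 c4 M (2 ^ j * R₀)) γ (2 ^ j * R₀) (M / (8 * (2 ^ j * R₀))) l| ≤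
    ∑ j ∈ range (J + 1), Th (uA M c3 c4 (2 ^ j * R₀)) γ (2 ^ j * R₀) (M / (8 * (2 ^ j * R₀))) l := by
  have hM0 : 0 < M := by linarith
  have hℓ1 : 1 ≤ Real.log M := one_le_log hM
  set ℓ := Real.log M with hℓ
  have hℓ0 : 0 < ℓ := by linarith
  set Γ : ℕ → ℝ := fun j => ∑ v ∈ bg ((M / (8 * (2 ^ j * R₀))) ^ 2) (4 * (M / (8 * (2 ^ j * R₀))) ^ 2), γ v / nz v with hΓ
  have hz1 : (1 : ℝ) ≤ (zf M : ℝ) := by
    have : 1 ≤ zf M := by unfold zf; exact Nat.one_le_two_pow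
    exact_mod_cast this
  set e0 := ℓ * M / zf M with he0
  have he00 : 0 ≤ e0 := by positivity
  have hj : ∀ j ∈ range (J + 1), S * (M / 128 * Vp (zf M) l * (s1 M c3 c4 * Γ j)) - 72 * Cγ * e0 -
      |Th (bP z0 c3 c4 M (2 ^ j * R₀)) γ (2 ^ j * R₀) (M / (8 * (2 ^ j * R₀))) l| ≤
      Th (uA M c3 c4 (2 ^ j * R₀)) γ (2 ^ j * R₀) (M / (8 * (2 ^ j * R₀))) l := by
    intro j hj
    have h1 := hlow j hj
    have h2 : Th (bP z0 c3 c4 M (2 ^ j * R₀)) γ (2 ^ j * R₀) (M / (8 * (2 ^ j * R₀))) l =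
        Th (uA M c3 c4 (2 ^ j * R₀)) γ (2 ^ j * R₀) (M / (8 * (2 ^ j * R₀))) l -
        S * Th (uR M c3 c4 (2 ^ j * R₀)) γ (2 ^ j * R₀) (M / (8 * (2 ^ j * R₀))) l := by
      rw [bP_eq, Th_lin, hS]
    have h3 := neg_abs_le (Th (bP z0 c3 c4 M (2 ^ j * R₀)) γ (2 ^ j * R₀) (M / (8 * (2 ^ j * R₀))) l)
    have h4 := mul_le_mul_of_nonneg_left h1 hS0
    have h5 : S * (12 * Cγ * e0) ≤ 72 * Cγ * e0 := by
      have : 0 ≤ 12 * Cγ * e0 := by positivity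
      nlinarith
    have h6 : S * (M / 128 * Vp (zf M) l * (s1 M c3 c4 * Γ j) - 12 * Cγ * e0) =
        S * (M / 128 * Vp (zf M) l * (s1 M c3 c4 * Γ j)) - S * (12 * Cγ * e0) := by ring
    rw [hΓ] at h6
    simp only at h6
    rw [hΓ]
    simp only
    linarith
  refine le_trans ?_ (sum_le_sum hj)
  rw [sum_sub_distrib, sum_sub_distrib, sum_const, card_range, nsmul_eq_mul, ← mul_sum, ← mul_sum, ← mul_sum]
  push_cast
  apply sub_le_sub_right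
  apply sub_le_sub_right
  have hΓs : ∑ j ∈ range (J + 1), Γ j = ∑ v ∈ bg ((M / (8 * (2 ^ J * R₀))) ^ 2) (4 * (M / (8 * R₀)) ^ 2), γ v / nz v := by
    rw [hΓ]
    exact tele _ hM0 hR₀ J
  rw [hΓs]
  set Γs := ∑ v ∈ bg ((M / (8 * (2 ^ J * R₀))) ^ 2) (4 * (M / (8 * R₀)) ^ 2), γ v / nz v
  have hfr := fr_nonneg l
  have h1 : cW / ℓ ≤ S * κ := by rw [div_le_iff₀ hℓ0]; linarith
  have h2 : cV * fr l * (cW / ℓ) ≤ S * Vp (zf M) l := by
    calc cV * fr l * (cW / ℓ) ≤ cV * fr l * (S * κ) := by gcongr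
      _ = S * (cV * κ * fr l) := by ring
      _ ≤ _ := mul_le_mul_of_nonneg_left hV hS0
  have h3 : σ * μ ≤ s1 M c3 c4 * Γs := mul_le_mul hs1 hμ hμ0.le (by linarith)
  have h4 : 0 ≤ S * Vp (zf M) l := mul_nonneg hS0 (Vp_nonneg _ _)
  calc cV * cW * σ * μ / 128 * fr l * (M / ℓ) = M / 128 * ((cV * fr l * (cW / ℓ)) * (σ * μ)) := by ring
    _ ≤ M / 128 * ((S * Vp (zf M) l) * (s1 M c3 c4 * Γs)) := by
        apply mul_le_mul_of_nonneg_left _ (by positivity)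
        exact mul_le_mul h2 h3 (by positivity) h4
    _ = _ := by ring

open Classical in
/-- **the number for almost all `l`, at a fixed scale** -/
theorem asm {θ ε1 : ℝ} (hθ : 0 < θ) (hθ1 : θ ≤ 1) (hε : 0 < ε1) (hε1 : ε1 ≤ 1) (k : ℕ) : ∃ c c3 : ℝ, 0 < c ∧ 0 < c3 ∧
    ∀ A : ℕ, ∀ᶠ M : ℝ in atTop, ∀ L : ℝ, M ^ θ ≤ L → L ≤ M ^ (1 - ε1) →
      (((Icc (1 : ℤ) ⌊L⌋).filter (fun l => (((Icc (-⌊M / 2⌋) ⌊M / 2⌋).filter (fun n =>
        Good (k + 3) (M ^ c3) (⟨l, n⟩ : ZI))).card : ℝ) < c * fr l.natAbs * (M / Real.log M))).card : ℝ) ≤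
        L / (Real.log M) ^ A := by
  obtain ⟨z0, hcell⟩ := cellP
  obtain ⟨cV, hcV, hVl⟩ := Vl_lo z0
  set k1 : ℝ := (k : ℝ) + 1 with hk1
  have hk0 : (0 : ℝ) ≤ k := Nat.cast_nonneg k
  have hk1' : 1 ≤ k1 := by linarith
  set δ := min θ ε1 / 8 with hδ
  have hδ0 : 0 < δ := by have : 0 < min θ ε1 := lt_min hθ hε; positivity
  have hδθ : 8 * δ ≤ θ := by rw [hδ]; linarith [min_le_left θ ε1]
  have hδε : 8 * δ ≤ ε1 := by rw [hδ]; linarith [min_le_right θ ε1]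
  have hδ1 : δ ≤ 1 / 8 := by linarith
  set c4 := δ / (4 * k1) with hc4
  set c3 := c4 / 2 with hc3
  set h := δ / (4 * k1 ^ 2) with hh
  set X := δ / k1 with hX
  set y1 := 1 - θ + δ with hy1
  set y2 := 1 - 3 * δ with hy2
  have hc40 : 0 < c4 := by positivity
  have hc30 : 0 < c3 := by positivity
  have hh0 : 0 < h := by positivity
  have hc4δ : c4 ≤ δ / 4 := by
    rw [hc4]
    apply div_le_div_of_nonneg_left hδ0.le (by norm_num)
    linarith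
  have hXδ : X ≤ δ := div_le_self hδ0.le hk1'
  have hxX : c4 + k * h ≤ X := by
    have h1 : c4 = X / 4 := by rw [hc4, hX]; field_simp
    have h2 : k * h ≤ X / 4 := by
      rw [hh, hX, mul_div_assoc', div_le_div_iff₀ (by positivity) (by norm_num)]
      have h3 : δ / k1 * (4 * k1 ^ 2) = 4 * (δ * k1) := by field_simp
      rw [h3, show 4 * (δ * k1) = δ * k1 * 4 by ring]
      apply mul_le_mul_of_nonneg_right _ (by norm_num)
      rw [mul_comm]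
      exact mul_le_mul_of_nonneg_left (by linarith) hδ0.le
    have hX0 : 0 < X := by positivity
    linarith
  have hkX : k * X ≤ δ := by
    rw [hX, mul_div_assoc', div_le_iff₀ (by positivity), mul_comm]
    exact mul_le_mul_of_nonneg_left (by linarith) hδ0.le
  have hXy : X ≤ y1 := by linarith
  obtain ⟨μ, hμ0, hmass⟩ := gm_mass (x := c4) (h := h) (y1 := y1) (y2 := y2) (X := X) hc40 hh0 (by linarith) (by linarith)
    hXy k hxX
  set Cγ : ℝ := (12 / c4) ^ (k + 1) with hCγ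
  have hCγ0 : 0 < Cγ := by positivity
  set cW : ℝ := 1 / (20000 * (W0 z0 : ℝ) ^ 2) with hcW
  have hw1 : (1 : ℝ) ≤ (W0 z0 : ℝ) := by exact_mod_cast W0_pos z0
  have hcW0 : 0 < cW := by positivity
  set σ : ℝ := (c4 - c3) / 24000 with hσ
  have hσ0 : 0 < σ := by rw [hσ, hc3]; have : 0 < c4 - c4 / 2 := by linarith
                         positivity
  set c1 := cV * cW * σ * μ / 128 with hc1
  have hc10 : 0 < c1 := by positivity
  refine ⟨c1 / (4 * (144 * Cγ)), c3, by positivity, hc30, fun A => ?_⟩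
  obtain ⟨C, hC, hcell⟩ := hcell δ c3 c4 hc30 (by rw [hc3]; linarith) (by linarith) (by linarith) (A + 5)
  filter_upwards [hcell, hmass, lowR (c3 := c3) (c4 := c4) (show c3 ≤ c4 by rw [hc3]; linarith) (show 0 < δ / 2 by positivity),
    s1_lo hc30 (show c3 < c4 by rw [hc3]; linarith) (by linarith), par_c (z0 + 1), par_c 5, ev_log (z0 + 1),
    ev_log (24 * (144 * Cγ) / c1), ev_log (24 * Cγ * C / c1), ev_rp hε 8, ev_rp hδ0 16,
    eventually_ge_atTop (3 : ℝ)] with M hcell hmass hlowR hs1 hzc hz4 hlogz hlog1 hlog2 hM8 hMδ hM3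
  intro L hL1 hL2
  have hM0 : 0 < M := by linarith
  have hM1 : 1 ≤ M := by linarith
  have hM1' : 1 < M := by linarith
  set ℓ := Real.log M with hℓ
  have hℓ1 : 1 ≤ ℓ := one_le_log hM3
  have hℓ0 : 0 < ℓ := by linarith
  obtain ⟨⟨hbig, hlo⟩, hcell⟩ := hcell
  have hL1' : 1 ≤ L := (Real.one_le_rpow hM1 hθ.le).trans hL1
  have hL8 : L ≤ M / 8 := by
    refine hL2.trans ?_
    rw [le_div_iff₀ (by norm_num)]
    calc M ^ (1 - ε1) * 8 ≤ M ^ (1 - ε1) * M ^ ε1 := by gcongr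
      _ = M := by rw [← Real.rpow_add hM0, show 1 - ε1 + ε1 = 1 by ring, Real.rpow_one]
  obtain ⟨J, hJ1, hJ2, hJ3⟩ := parJ (show 0 < θ - 2 * δ by linarith) (by linarith) hM3
  set R₀ := M ^ ((1 + δ) / 2) with hR₀
  have hR₀0 : 0 < R₀ := by positivity
  have hR₀2 : R₀ ^ 2 = M ^ (1 + δ) := by
    rw [hR₀, ← Real.rpow_natCast, ← Real.rpow_mul hM0.le]
    congr 1
    push_cast
    ring
  set γ := gm M c4 h y1 y2 k with hγ
  have hGam : Gam c4 M Cγ γ := gm_Gam hM1' hc40 hh0.le (hxX.trans hXy) le_rfl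
  have hγle : ∀ v, |γ v| ≤ Cγ := gm_le hM1' hc40 hh0.le (by linarith) hxX (by linarith)
  have h4J : ∀ j : ℕ, ((2 : ℝ) ^ j) ^ 2 = 4 ^ j := by
    intro j
    rw [← pow_mul, mul_comm, pow_mul]
    norm_num
  have hRj : ∀ j ∈ range (J + 1), (2 ^ j * R₀) ^ 2 ≤ L * M ^ (1 - δ) ∧ M ^ (1 + δ) ≤ (2 ^ j * R₀) ^ 2 := by
    intro j hj
    rw [mem_range] at hj
    rw [mul_pow, h4J, hR₀2]
    constructor
    · have h1 : (4 : ℝ) ^ j ≤ M ^ (θ - 2 * δ) := (pow_le_pow_right₀ (by norm_num) (by omega)).trans hJ1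
      calc (4 : ℝ) ^ j * M ^ (1 + δ) ≤ M ^ (θ - 2 * δ) * M ^ (1 + δ) := by gcongr
        _ = M ^ θ * M ^ (1 - δ) := by rw [← Real.rpow_add hM0, ← Real.rpow_add hM0]; ring_nf
        _ ≤ L * M ^ (1 - δ) := by gcongr
    · have h1 : (1 : ℝ) ≤ 4 ^ j := one_le_pow₀ (by norm_num)
      exact le_mul_of_one_le_left (by positivity) h1
  -- the mass
  have hP0 : (M / (8 * R₀)) ^ 2 = M ^ (1 - δ) / 64 := by
    rw [div_pow, mul_pow, hR₀2, div_eq_div_iff (by positivity) (by norm_num)]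
    have : M ^ (1 - δ) * M ^ (1 + δ) = M ^ 2 := by
      rw [← Real.rpow_add hM0, show 1 - δ + (1 + δ) = ((2 : ℕ) : ℝ) by push_cast; ring, Real.rpow_natCast]
    linear_combination (-64) * this
  have hPJ : (M / (8 * (2 ^ J * R₀))) ^ 2 ≤ M ^ y1 := by
    rw [div_pow, mul_pow, mul_pow, h4J, hR₀2, div_le_iff₀ (by positivity)]
    have h1 : M ^ y1 * M ^ (θ - 2 * δ) * M ^ (1 + δ) = M ^ 2 := by
      rw [← Real.rpow_add hM0, ← Real.rpow_add hM0, ← Real.rpow_natCast]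
      congr 1
      rw [hy1]
      push_cast
      ring
    calc M ^ 2 = M ^ y1 * M ^ (θ - 2 * δ) * M ^ (1 + δ) := h1.symm
      _ ≤ M ^ y1 * (4 * 4 ^ J) * M ^ (1 + δ) := by gcongr
      _ ≤ M ^ y1 * (8 ^ 2 * (4 ^ J * M ^ (1 + δ))) := by
          have e0 : 0 ≤ M ^ y1 * 4 ^ J * M ^ (1 + δ) := by positivity
          have e1 : M ^ y1 * (4 * 4 ^ J) * M ^ (1 + δ) = 4 * (M ^ y1 * 4 ^ J * M ^ (1 + δ)) := by ring
          have e2 : M ^ y1 * (8 ^ 2 * (4 ^ J * M ^ (1 + δ))) = 64 * (M ^ y1 * 4 ^ J * M ^ (1 + δ)) := by ring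
          rw [e1, e2]
          exact mul_le_mul_of_nonneg_right (by norm_num) e0
  have hμ := hmass ((M / (8 * (2 ^ J * R₀))) ^ 2) (4 * (M / (8 * R₀)) ^ 2) hPJ (by
    rw [hP0]
    have h1 : 16 * M ^ (1 - 2 * δ) ≤ M ^ (1 - δ) := by
      calc 16 * M ^ (1 - 2 * δ) ≤ M ^ δ * M ^ (1 - 2 * δ) := by gcongr
        _ = M ^ (1 - δ) := by rw [← Real.rpow_add hM0]; ring_nf
    have h2 : M ^ (y2 + k * X) ≤ M ^ (1 - 2 * δ) := Real.rpow_le_rpow_of_exponent_le hM1 (by linarith)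
    linarith)
  -- the error terms
  set E : ℤ → ℝ := fun l => ∑ j ∈ range (J + 1), |Th (bP z0 c3 c4 M (2 ^ j * R₀)) γ (2 ^ j * R₀) (M / (8 * (2 ^ j * R₀))) l| with hE
  have hEs : ∑ l ∈ Icc (1 : ℤ) ⌊L⌋, E l ≤ 2 * ℓ * (Cγ * (C * L * M / ℓ ^ (A + 5))) := by
    rw [hE]
    simp only
    rw [sum_comm]
    have h1 : ∀ j ∈ range (J + 1), ∑ l ∈ Icc (1 : ℤ) ⌊L⌋,
        |Th (bP z0 c3 c4 M (2 ^ j * R₀)) γ (2 ^ j * R₀) (M / (8 * (2 ^ j * R₀))) l| ≤ Cγ * (C * L * M / ℓ ^ (A + 5)) := by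
      intro j hj
      obtain ⟨h2, h3⟩ := hRj j hj
      have h4 := hcell L (2 ^ j * R₀) hL1' (hL2.trans (Real.rpow_le_rpow_of_exponent_le hM1 (by linarith))) (by positivity)
        (h3.trans (le_mul_of_one_le_right (by positivity) hL1')) h2 (fun v => 1 / Cγ * γ v) (fun v => by
          rw [abs_mul, abs_of_pos (show 0 < 1 / Cγ by positivity)]
          calc 1 / Cγ * |γ v| ≤ 1 / Cγ * Cγ := by
                apply mul_le_mul_of_nonneg_left (hγle v) (by positivity)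
            _ = 1 := by field_simp)
      have h5 : ∀ l : ℤ, |Th (bP z0 c3 c4 M (2 ^ j * R₀)) (fun v => 1 / Cγ * γ v) (2 ^ j * R₀) (M / (8 * (2 ^ j * R₀))) l| =
          1 / Cγ * |Th (bP z0 c3 c4 M (2 ^ j * R₀)) γ (2 ^ j * R₀) (M / (8 * (2 ^ j * R₀))) l| := by
        intro l
        rw [Th_smul, abs_mul, abs_of_pos (show 0 < 1 / Cγ by positivity)]
      simp only [h5] at h4
      rw [← mul_sum] at h4
      rw [div_mul_eq_mul_div, one_mul, div_le_iff₀ hCγ0] at h4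
      linarith
    refine (sum_le_sum h1).trans ?_
    rw [sum_const, card_range, nsmul_eq_mul]
    push_cast
    apply mul_le_mul_of_nonneg_right hJ3 (by positivity)
  -- the exceptional elements
  have hsub : (Icc (1 : ℤ) ⌊L⌋).filter (fun l => (((Icc (-⌊M / 2⌋) ⌊M / 2⌋).filter (fun n =>
        Good (k + 3) (M ^ c3) (⟨l, n⟩ : ZI))).card : ℝ) < c1 / (4 * (144 * Cγ)) * fr l.natAbs * (M / ℓ)) ⊆
      (Icc (1 : ℤ) ⌊L⌋).filter (fun l => c1 / 12 * (M / ℓ ^ 2) < E l) := by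
    intro l hl
    rw [mem_filter] at hl ⊢
    refine ⟨hl.1, ?_⟩
    obtain ⟨hlI, hcount⟩ := hl
    have hlI' := hlI
    rw [mem_Icc, Int.le_floor] at hlI
    obtain ⟨hl1, hlL⟩ := hlI
    obtain ⟨m, rfl⟩ : ∃ m : ℕ, l = (m : ℤ) := ⟨l.toNat, by omega⟩
    rw [Int.natAbs_natCast] at hcount
    have hm1 : 1 ≤ m := by omega
    have hmL : (m : ℝ) ≤ L := by exact_mod_cast hlL
    have hV := hVl (zf M) m (by
      have h1 : ((z0 : ℕ) : ℝ) ≤ (zf M : ℝ) := by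
        have h2 : ℓ ≤ ℓ ^ (z0 + 1) := le_self_pow₀ hℓ1 (by omega)
        linarith
      exact_mod_cast h1) hm1
    have h1 := lowT (c3 := c3) (c4 := c4) (S := Sf z0 c4 M) (κ := kq (zf M) z0 (W0 z0)) (cW := cW) (σ := σ) (μ := μ)
      (z0 := z0) (J := J) (l := m) hM3 hR₀0 rfl hbig.S0 hbig.S6 hlo hcW0 hCγ0.le hV hcV hs1 hσ0 hμ hμ0 (by
        intro j hj
        obtain ⟨h2, h3⟩ := hRj j hj
        refine hlowR hbig.zc (2 ^ j * R₀) Cγ γ m (by positivity) ?_ hGam hm1 (hmL.trans hL8) hCγ0.le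
        have h4 : (M / (8 * (2 ^ j * R₀))) ^ 2 ≤ M ^ (1 - δ) / 64 := by
          rw [← hP0]
          have h5 : (1 : ℝ) ≤ 2 ^ j := one_le_pow₀ (by norm_num)
          have h6 : R₀ ≤ 2 ^ j * R₀ := le_mul_of_one_le_left hR₀0.le h5
          gcongr
        calc M ^ c4 * (4 * (M / (8 * (2 ^ j * R₀))) ^ 2) ≤ M ^ c4 * (4 * (M ^ (1 - δ) / 64)) := by gcongr
          _ ≤ M ^ (δ / 2) * M ^ (1 - δ) := by
              have h5 : M ^ c4 ≤ M ^ (δ / 2) := Real.rpow_le_rpow_of_exponent_le hM1 (by linarith)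
              have h6 : 4 * (M ^ (1 - δ) / 64) ≤ M ^ (1 - δ) := by
                have : 0 < M ^ (1 - δ) := by positivity
                linarith
              exact mul_le_mul h5 h6 (by positivity) (by positivity)
          _ = M ^ (1 - δ / 2) := by rw [← Real.rpow_add hM0]; ring_nf)
    have h2 := upT (M := M) (c3 := c3) (c4 := c4) (δ := δ) (Cγ := Cγ) (R₀ := R₀) (γ := γ) (r := k + 1) (J := J + 1) (l := (m : ℤ))
      (by linarith) (by rw [hc3]; linarith) (by linarith) hc30.le hδ0.le hR₀0 hR₀2.ge hGam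
      (fun v hv => (gm_pr hM1 hh0.le (hxX.trans hXy) hv).2.1) (by exact_mod_cast hm1) (by
        push_cast
        linarith)
    rw [show k + 1 + 2 = k + 3 by ring] at h2
    rw [← hc1] at h1
    have hfr := fr_nonneg m
    have hfrlo := fr_lo hm1 hM3 (by linarith)
    rw [← hℓ] at hfrlo
    set cnt := (((Icc (-⌊M / 2⌋) ⌊M / 2⌋).filter (fun n => Good (k + 3) (M ^ c3) (⟨(m : ℤ), n⟩ : ZI))).card : ℝ)
    have h3 : 144 * Cγ * cnt ≤ c1 / 4 * fr m * (M / ℓ) := by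
      calc 144 * Cγ * cnt ≤ 144 * Cγ * (c1 / (4 * (144 * Cγ)) * fr m * (M / ℓ)) := by
            apply mul_le_mul_of_nonneg_left hcount.le (by positivity)
        _ = _ := by field_simp
    -- the small error
    have h4 : ((J : ℝ) + 1) * (72 * Cγ * (ℓ * M / zf M)) ≤ c1 / 4 * fr m * (M / ℓ) := by
      have h5 : ℓ * M / zf M ≤ M / ℓ ^ 4 := by
        rw [div_le_div_iff₀ (by linarith [show 0 < ℓ ^ 5 by positivity]) (by positivity)]
        calc ℓ * M * ℓ ^ 4 = M * ℓ ^ 5 := by ring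
          _ ≤ M * zf M := by gcongr
      calc ((J : ℝ) + 1) * (72 * Cγ * (ℓ * M / zf M)) ≤ (2 * ℓ) * (72 * Cγ * (M / ℓ ^ 4)) := by gcongr
        _ = (24 * (144 * Cγ)) * (M / ℓ ^ 2 * (1 / (24 * ℓ))) := by field_simp; norm_num
        _ ≤ (ℓ * c1) * (M / ℓ ^ 2 * (1 / (24 * ℓ))) := by
            rw [div_le_iff₀ hc10] at hlog1
            gcongr
        _ ≤ c1 / 4 * (1 / (3 * ℓ)) * (M / ℓ) := by
            have e2 : (ℓ * c1) * (M / ℓ ^ 2 * (1 / (24 * ℓ))) = c1 * (M / ℓ ^ 2) / 24 := by field_simp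
            have e3 : c1 / 4 * (1 / (3 * ℓ)) * (M / ℓ) = c1 * (M / ℓ ^ 2) / 12 := by field_simp; norm_num
            have e4 : 0 < c1 * (M / ℓ ^ 2) := by positivity
            rw [e2, e3]
            linarith
        _ ≤ _ := by gcongr
    have h5 : c1 / 2 * (1 / (3 * ℓ)) * (M / ℓ) ≤ c1 / 2 * fr m * (M / ℓ) := by gcongr
    have h6 : c1 / 2 * (1 / (3 * ℓ)) * (M / ℓ) = c1 / 6 * (M / ℓ ^ 2) := by
      field_simp
      norm_num
    have h7 : c1 * fr m * (M / ℓ) - ((J : ℝ) + 1) * (72 * Cγ * (ℓ * M / zf M)) - E m ≤ 144 * Cγ * cnt := h1.trans h2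
    have h8 : c1 / 2 * fr m * (M / ℓ) ≤ E m := by linarith
    have h9 : 0 < c1 * (M / ℓ ^ 2) := by positivity
    linarith
  have hcard := card_le_card hsub
  refine le_trans (by exact_mod_cast hcard) ((markov (F := E) (fun l _ => ?_) (by positivity) hEs).trans ?_)
  · exact sum_nonneg fun j _ => abs_nonneg _
  · rw [div_le_iff₀ (by positivity)]
    have e1 : 2 * ℓ * (Cγ * (C * L * M / ℓ ^ (A + 5))) = (24 * Cγ * C / c1) * (1 / ℓ ^ 2) * (L / ℓ ^ A * (c1 / 12 * (M / ℓ ^ 2))) := by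
      rw [pow_add]
      field_simp
      norm_num
    rw [e1]
    have h1 : 0 ≤ L / ℓ ^ A * (c1 / 12 * (M / ℓ ^ 2)) := by positivity
    have h2 : (24 * Cγ * C / c1) * (1 / ℓ ^ 2) ≤ 1 := by
      rw [mul_one_div, div_le_one (by positivity)]
      exact hlog2.trans (le_self_pow₀ hℓ1 (by norm_num))
    calc (24 * Cγ * C / c1) * (1 / ℓ ^ 2) * (L / ℓ ^ A * (c1 / 12 * (M / ℓ ^ 2))) ≤ 1 * (L / ℓ ^ A * (c1 / 12 * (M / ℓ ^ 2))) :=
          mul_le_mul_of_nonneg_right h2 h1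
      _ = _ := one_mul _

end Pool.Agent.J6H16.PR
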