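import Pool.Agent.J6H16.PR.Rr

/-!
# Project PR (helper16): comparison of the primes and of the rough numbers in classes
-/

set_option autoImplicit false

namespace Pool.Agent.J6H16.PR

open Finset Filter Topology MeasureTheory
open Pool.Agent.N782.GN Pool.Agent.N855.GN
open Pool.Agent.H304R3.HK (UH bb LamK CS)
open Pool.Agent.J6H16.PF

open Classical in
/-- the classes modulo `Q` over a class modulo `q` -/
noncomputable def lifts (q Q : ℕ) (s : ZI) : Finset ZI := (Rq Q).filter (fun r => ((q : ℕ) : ZI) ∣ r - s)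

theorem card_lifts (q Q : ℕ) (s : ZI) : ((lifts q Q s).card : ℝ) ≤ (Q : ℝ) ^ 2 := by
  classical
  have h1 : (lifts q Q s).card ≤ Q ^ 2 := by
    unfold lifts
    exact (card_filter_le _ _).trans (card_Rq Q)
  exact_mod_cast h1

/-- splitting of a class -/
theorem ci_split (F : ZI → ℝ) {q Q : ℕ} (hQ : 1 ≤ Q) (hqQ : q ∣ Q) (s : ZI) (Y1 Y2 : ℝ) :
    ∑ t ∈ ci q s Y1 Y2, F t = ∑ r ∈ lifts q Q s, ∑ t ∈ ci Q r Y1 Y2, F t := by
  classical
  have hqz : ((q : ℕ) : ZI) ∣ ((Q : ℕ) : ZI) := by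
    obtain ⟨k, hk⟩ := hqQ
    exact ⟨((k : ℕ) : ZI), by rw [hk]; push_cast; rfl⟩
  have h1 : ∀ t : ZI, ∀ r ∈ Rq Q, ((Q : ℕ) : ZI) ∣ t - r → (((q : ℕ) : ZI) ∣ t - s ↔ ((q : ℕ) : ZI) ∣ r - s) := by
    intro t r _ h
    have h2 : ((q : ℕ) : ZI) ∣ t - r := hqz.trans h
    have h3 : t - s = (t - r) + (r - s) := by ring
    rw [h3]
    exact dvd_add_right h2
  choose ρ hρ hρ2 using fun t : ZI => Rq_unique hQ t
  have hρd : ∀ t, ((Q : ℕ) : ZI) ∣ t - ρ t := fun t => (hρ2 t (ρ t) (hρ t)).2 rfl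
  have hmap : ∀ t ∈ ci q s Y1 Y2, ρ t ∈ lifts q Q s := by
    intro t ht
    rw [mem_ci] at ht
    unfold lifts
    rw [mem_filter]
    exact ⟨hρ t, (h1 t (ρ t) (hρ t) (hρd t)).1 ht.2.2.1⟩
  rw [← sum_fiberwise_of_maps_to hmap F]
  refine sum_congr rfl fun r hr => ?_
  unfold lifts at hr
  rw [mem_filter] at hr
  refine sum_congr ?_ fun _ _ => rfl
  ext t
  rw [mem_filter, mem_ci, mem_ci]
  constructor
  · rintro ⟨⟨h2, h3, h4, h5⟩, h6⟩
    exact ⟨h2, h3, h6 ▸ hρd t, h5⟩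
  · rintro ⟨h2, h3, h4, h5⟩
    exact ⟨⟨h2, h3, (h1 t r hr.1 h4).2 hr.2, h5⟩, ((hρ2 t r hr.1).1 h4).symm⟩

open Classical in
/-- the densities modulo `q₀` and modulo `Q` -/
theorem dens_lift {g : ZI → ℝ} {q0 Q : ℕ} {κ0 κ η X X' : ℝ} (hQ : 1 ≤ Q) (hqQ : q0 ∣ Q)
    (hX : 0 < X) (hXX : 2 * X ≤ X') (h0 : Reg g q0 κ0 η X X') (h : Reg g Q κ η X X')
    (hg : ∀ t, g t ≠ 0 → X < nz t → IsCoprime t ((Q : ℕ) : ZI)) :
    |κ0 - (((lifts q0 Q 1).filter (fun r => IsCoprime r ((Q : ℕ) : ZI))).card : ℝ) * κ| ≤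
      2 * η * (1 + (((lifts q0 Q 1).filter (fun r => IsCoprime r ((Q : ℕ) : ZI))).card : ℝ)) := by
  set G := (lifts q0 Q 1).filter (fun r => IsCoprime r ((Q : ℕ) : ZI)) with hG
  have e1 : ∑ t ∈ ci q0 1 X (2 * X), g t = ∑ r ∈ G, ∑ t ∈ ci Q r X (2 * X), g t := by
    rw [ci_split g hQ hqQ 1 X (2 * X), hG]
    symm
    apply sum_subset (filter_subset _ _)
    intro r hr hr'
    refine sum_eq_zero fun t ht => ?_
    by_contra hcon
    apply hr'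
    rw [mem_filter]
    refine ⟨hr, ?_⟩
    rw [mem_ci] at ht
    have ht2 : t ∈ cls Q r (2 * X) := by
      unfold cls
      rw [mem_filter, mem_bl]
      exact ⟨⟨ht.1, ht.2.1⟩, ht.2.2.1⟩
    exact cop_cls ht2 (hg t hcon ht.2.2.2)
  have h1 := h0 1 isCoprime_one_left X (2 * X) le_rfl (by linarith) hXX
  have h2 : |∑ r ∈ G, ∑ t ∈ ci Q r X (2 * X), g t - (G.card : ℝ) * (κ * (2 * X - X))| ≤ (G.card : ℝ) * (η * (2 * X)) := by
    have e2 : ∑ r ∈ G, ∑ t ∈ ci Q r X (2 * X), g t - (G.card : ℝ) * (κ * (2 * X - X)) =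
        ∑ r ∈ G, (∑ t ∈ ci Q r X (2 * X), g t - κ * (2 * X - X)) := by
      rw [sum_sub_distrib, sum_const, nsmul_eq_mul]
    rw [e2]
    refine (abs_sum_le_sum_abs _ _).trans ?_
    refine (sum_le_sum fun r hr => h r (mem_filter.1 hr).2 X (2 * X) le_rfl (by linarith) hXX).trans (le_of_eq ?_)
    rw [sum_const, nsmul_eq_mul]
  rw [e1] at h1
  set S := ∑ r ∈ G, ∑ t ∈ ci Q r X (2 * X), g t
  have e3 : 2 * X - X = X := by ring
  rw [e3] at h1 h2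
  have h3 : |(κ0 - (G.card : ℝ) * κ) * X| ≤ (2 * η * (1 + (G.card : ℝ))) * X := by
    have e4 : (κ0 - (G.card : ℝ) * κ) * X = (S - (G.card : ℝ) * (κ * X)) - (S - κ0 * X) := by ring
    rw [e4]
    refine (abs_sub _ _).trans ?_
    linarith
  rw [abs_mul, abs_of_pos hX] at h3
  exact le_of_mul_le_mul_right h3 hX

theorem rough_np {t : ZI} (h : np t) {z : ℕ} (hz : (z : ℝ) < nz t) : rough z t := by
  intro p hp hpz hd
  have h1 := (Nat.prime_dvd_prime_iff_eq hp (show (nn t).Prime from h)).1 hd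
  rw [nz_nn, ← h1] at hz
  have : z < p := by exact_mod_cast hz
  omega

theorem ct_np {t : ZI} (h : np t) : ct t = 1 := ct_sqf (Nat.Prime.prime h).irreducible.squarefree

theorem f1_le_rg {M c : ℝ} {E z : ℕ} (hM : 1 < M) (hz : (z : ℝ) ≤ M ^ c) (t : ZI) : f1 M c E t ≤ E * rg z t := by
  by_cases h : f1 M c E t = 0
  · rw [h]
    have := rg_nonneg z t
    positivity
  · have h1 := f1_ne h
    have h2 : rg z t = 1 := by
      unfold rg
      rw [if_pos]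
      exact ⟨rough_np h1.1 (lt_of_le_of_lt hz h1.2.1), ct_np h1.1⟩
    rw [h2, mul_one]
    exact (le_abs_self _).trans (f1_bd hM (Nat.cast_nonneg E) t)

/-- the factor of the comparison -/
noncomputable def Sf (z0 : ℕ) (c M : ℝ) : ℝ := dn (M ^ (c / 4)) (W0 z0) / Real.log M / kq (zf M) z0 (W0 z0)

/-- elements coprime to a modulus below the roughness -/
theorem rg_cop {z Q : ℕ} (hQz : Q ≤ z) (hQ : 1 ≤ Q) {t : ZI} (h : rg z t ≠ 0) : IsCoprime t ((Q : ℕ) : ZI) := by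
  unfold rg at h
  split_ifs at h with h1
  · -- `N(t)` is coprime to `Q`
    have h2 : Nat.Coprime (nn t) Q :=
      Nat.Coprime.symm (Nat.coprime_of_dvd fun p hp hp2 hp1 => h1.1 p hp ((Nat.le_of_dvd hQ hp2).trans hQz) hp1)
    obtain ⟨u, v, huv⟩ := Nat.isCoprime_iff_coprime.2 h2
    refine ⟨((u : ℤ) : ZI) * star t, ((v : ℤ) : ZI), ?_⟩
    have h4 : t * star t = ((nn t : ℕ) : ZI) := by
      have h5 : t * star t = ((Zsqrtd.norm t : ℤ) : ZI) := (Zsqrtd.norm_eq_mul_conj t).symm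
      rw [h5]
      have h6 : (Zsqrtd.norm t : ℤ) = ((nn t : ℕ) : ℤ) := by
        unfold nn
        rw [Int.natAbs_of_nonneg (GaussianInt.norm_nonneg t)]
      rw [h6]
      push_cast
      rfl
    have h7 := congrArg (fun x : ℤ => ((x : ℤ) : ZI)) huv
    push_cast at h7
    rw [mul_assoc, mul_comm (star t) t, h4]
    exact h7
  · exact absurd rfl h

theorem ar1 {W ℓ E : ℝ} (hw1 : 1 ≤ W) (hE0 : 0 ≤ E) (hlog : 1000000 * (E + 1) ^ 2 * W ^ 4 ≤ ℓ) :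
    1000000 * W ^ 2 ≤ ℓ ∧ 1000000 * (E + 1) ^ 2 ≤ ℓ ∧ 1000000 ≤ ℓ := by
  have h0 : (1 : ℝ) ≤ (E + 1) ^ 2 := by nlinarith
  have h2 : W ^ 2 ≤ W ^ 4 := pow_le_pow_right₀ hw1 (by norm_num)
  have h3 : (0 : ℝ) ≤ W ^ 4 := by positivity
  have h4 : (1 : ℝ) ≤ W ^ 4 := one_le_pow₀ hw1
  refine ⟨?_, ?_, ?_⟩
  · refine le_trans ?_ hlog
    nlinarith
  · refine le_trans ?_ hlog
    nlinarith
  · refine le_trans ?_ hlog
    nlinarith

/-- **the comparison** -/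
theorem cmpS : ∃ z0 : ℕ, ∀ (A B E : ℕ) (c : ℝ), 0 < c → c ≤ 1 → 2 ≤ E → ∀ᶠ M : ℝ in atTop,
    1 / (20000 * (W0 z0 : ℝ) ^ 2) ≤ Real.log M * (Sf z0 c M * kq (zf M) z0 (W0 z0)) ∧ Sf z0 c M ≤ 2 * E ∧
    0 < kq (zf M) z0 (W0 z0) ∧
    ∀ Q : ℕ, 1 ≤ Q → (Q : ℝ) ≤ (Real.log M) ^ B → W0 z0 ∣ Q → ∀ s : ZI, IsCoprime s ((Q : ℕ) : ZI) →
      ∀ Y1 Y2 : ℝ, M ^ c ≤ Y1 → Y1 ≤ Y2 → Y2 ≤ M ^ (E : ℝ) →
      |∑ t ∈ ci Q s Y1 Y2, (f1 M c E t - Sf z0 c M * rg (zf M) t)| ≤ 1 / (Real.log M) ^ A * Y2 := by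
  classical
  obtain ⟨z0, hrg⟩ := reg_rg
  refine ⟨z0, fun A B E c hc hc1 hE => ?_⟩
  set B1 := B + 1 with hB1
  set A1 := A + 2 * B1 + 4 with hA1
  have hf := reg_f1 hc A1 B1 E
  have hr := hrg A1 B1 E c hc
  have hw1 : (1 : ℝ) ≤ (W0 z0 : ℝ) := by exact_mod_cast W0_pos z0
  filter_upwards [hf, hr, dn_lo hc hc1, par_c B1, par_b 1 hc, par_e 1, ev_rp hc 2,
    ev_log (1000000 * (E + 1) ^ 2 * (W0 z0 : ℝ) ^ 4), ev_log (W0 z0), eventually_ge_atTop (3 : ℝ), ev_qM hc B1] with M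
    hf hr hdn hzB hzc hbe hM2 hlog hlogW hM3 hqM
  have hM0 : 0 < M := by linarith
  have hM1 : 1 ≤ M := by linarith
  have hM1' : 1 < M := by linarith
  set ℓ := Real.log M with hℓ
  set W := W0 z0 with hW
  have hW1 : 1 ≤ W := W0_pos z0
  have hE0 : (0 : ℝ) ≤ E := Nat.cast_nonneg E
  have hE2 : (2 : ℝ) ≤ E := by exact_mod_cast hE
  have hℓW : 1000000 * (W : ℝ) ^ 2 ≤ ℓ := (ar1 hw1 hE0 hlog).1
  have hℓE : 1000000 * (E + 1 : ℝ) ^ 2 ≤ ℓ := (ar1 hw1 hE0 hlog).2.1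
  have hℓ6 : 1000000 ≤ ℓ := (ar1 hw1 hE0 hlog).2.2
  have hℓ1 : 1 ≤ ℓ := by linarith
  have hℓ0 : 0 < ℓ := by linarith
  set z := zf M with hz
  have hzM : (z : ℝ) ≤ M ^ c := by
    refine le_trans ?_ hzc
    have h1 : (1 : ℝ) ≤ (z : ℝ) := by
      have : 1 ≤ z := by rw [hz]; unfold zf; exact Nat.one_le_two_pow
      exact_mod_cast this
    calc (z : ℝ) = (z : ℝ) ^ 1 := (pow_one _).symm
      _ ≤ (z : ℝ) ^ (1 * bf M) := pow_le_pow_right₀ h1 (by omega)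
  set η : ℝ := 1 / ℓ ^ A1 with hη
  have hη0 : 0 < η := by positivity
  have hX0 : 0 < M ^ c := by positivity
  have hXX : 2 * M ^ c ≤ M ^ (E : ℝ) := by
    calc 2 * M ^ c ≤ M ^ c * M ^ c := by gcongr
      _ = M ^ (c + c) := by rw [← Real.rpow_add hM0]
      _ ≤ M ^ (E : ℝ) := Real.rpow_le_rpow_of_exponent_le hM1 (by linarith)
  set k0 := kq z z0 W with hk0
  set a0 := dn (M ^ (c / 4)) W / ℓ with ha0
  have hk0n : 0 ≤ k0 := kq_nonneg _ _ _
  -- elements in the support are coprime to small numbers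
  have hfc : ∀ Q : ℕ, 1 ≤ Q → (Q : ℝ) ≤ ℓ ^ B1 → ∀ t, f1 M c E t ≠ 0 → M ^ c < nz t → IsCoprime t ((Q : ℕ) : ZI) := by
    intro Q hQ hQB t ht _
    have h1 := f1_ne ht
    exact cop_np h1.1 hQ (by linarith [h1.2.1, hQB.trans hqM])
  have hrc : ∀ Q : ℕ, 1 ≤ Q → (Q : ℝ) ≤ ℓ ^ B1 → ∀ t, rg z t ≠ 0 → M ^ c < nz t → IsCoprime t ((Q : ℕ) : ZI) := by
    intro Q hQ hQB t ht _
    refine rg_cop ?_ hQ ht
    have : (Q : ℝ) ≤ (z : ℝ) := hQB.trans hzB
    exact_mod_cast this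
  have hWB : (W : ℝ) ≤ ℓ ^ B1 := by
    refine hlogW.trans ?_
    calc ℓ = ℓ ^ 1 := (pow_one _).symm
      _ ≤ ℓ ^ B1 := pow_le_pow_right₀ hℓ1 (by omega)
  -- the density of the primes modulo `W`
  have hη6 : η * ℓ ^ 2 ≤ 1 / 1000000 := by
    have e1 : ℓ ^ A1 = ℓ ^ (A + 2 * B1 + 1) * ℓ ^ 2 * ℓ := by rw [hA1]; ring
    rw [hη, e1]
    have h1 : 1 ≤ ℓ ^ (A + 2 * B1 + 1) := one_le_pow₀ hℓ1
    calc 1 / (ℓ ^ (A + 2 * B1 + 1) * ℓ ^ 2 * ℓ) * ℓ ^ 2 = 1 / (ℓ ^ (A + 2 * B1 + 1) * ℓ) := by field_simp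
      _ ≤ 1 / (1 * 1000000) := by gcongr
      _ = _ := by norm_num
  set G1 := (lifts 1 W 1).filter (fun r => IsCoprime r ((W : ℕ) : ZI)) with hG1
  have hd1 := dens_lift (g := f1 M c E) (q0 := 1) (Q := W) hW1 (one_dvd _) hX0 hXX
    (hf 1 le_rfl (by push_cast; exact one_le_pow₀ hℓ1)) (hf W hW1 hWB) (hfc W hW1 hWB)
  rw [← hG1, ← ha0] at hd1
  have hG1c : (G1.card : ℝ) ≤ (W : ℝ) ^ 2 := by
    refine le_trans ?_ (card_lifts 1 W 1)
    exact_mod_cast card_filter_le _ _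
  have hG0 : (0 : ℝ) ≤ G1.card := Nat.cast_nonneg _
  have hηℓ : η * ℓ ≤ 1 / 1000000 / ℓ := by
    rw [le_div_iff₀ hℓ0]
    calc η * ℓ * ℓ = η * ℓ ^ 2 := by ring
      _ ≤ _ := hη6
  have ha0lo : 1 / (10000 * (W : ℝ) ^ 2) ≤ ℓ * a0 := by
    have h1 : 1 / 5000 / ℓ ≤ dn (M ^ (c / 4)) 1 / ℓ := by gcongr
    have h2 := (abs_le.1 hd1).2
    have h3 : 2 * η * (1 + (G1.card : ℝ)) ≤ 1 / 10000 / ℓ / 2 := by
      have h4 : 2 * η * (1 + (G1.card : ℝ)) ≤ 2 * η * (2 * (W : ℝ) ^ 2) := by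
        have : (1 : ℝ) ≤ (W : ℝ) ^ 2 := one_le_pow₀ hw1
        gcongr
        linarith
      refine h4.trans ?_
      rw [div_div, le_div_iff₀ (by positivity)]
      have h5 : η * ℓ * ℓ ≤ 1 / 1000000 := by
        calc η * ℓ * ℓ = η * ℓ ^ 2 := by ring
          _ ≤ _ := hη6
      have h6 : η * ℓ * (W : ℝ) ^ 2 * 1000000 ≤ η * ℓ * ℓ := by
        calc η * ℓ * (W : ℝ) ^ 2 * 1000000 = η * ℓ * (1000000 * (W : ℝ) ^ 2) := by ring
          _ ≤ η * ℓ * ℓ := by gcongr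
      linarith
    have h7 : 1 / 10000 / ℓ ≤ (G1.card : ℝ) * a0 := by
      have e1 : 1 / 5000 / ℓ = 1 / 10000 / ℓ + 1 / 10000 / ℓ := by ring
      have h8 : 0 ≤ 1 / 10000 / ℓ := by positivity
      linarith
    have h9 : 0 < a0 := by
      by_contra hcon
      push Not at hcon
      have : (G1.card : ℝ) * a0 ≤ 0 := mul_nonpos_of_nonneg_of_nonpos hG0 hcon
      have h8 : 0 < 1 / 10000 / ℓ := by positivity
      linarith
    have h10 : 1 / 10000 / ℓ ≤ (W : ℝ) ^ 2 * a0 := h7.trans (mul_le_mul_of_nonneg_right hG1c h9.le)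
    rw [div_le_iff₀ (by positivity)]
    rw [div_le_iff₀ hℓ0] at h10
    linarith
  have ha0p : 0 < a0 := by
    have h1 : 0 < ℓ * a0 := lt_of_lt_of_le (by positivity) ha0lo
    exact (mul_pos_iff_of_pos_left hℓ0).1 h1
  -- the density of the rough numbers is not too small
  have hk0lo : a0 ≤ 2 * E * k0 := by
    have h1 := hf W hW1 hWB 1 isCoprime_one_left (M ^ c) (2 * M ^ c) le_rfl (by linarith) hXX
    have h2 := hr W hW1 hWB dvd_rfl 1 isCoprime_one_left (M ^ c) (2 * M ^ c) le_rfl (by linarith) hXX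
    rw [← ha0] at h1
    rw [← hk0] at h2
    have h3 : ∑ t ∈ ci W 1 (M ^ c) (2 * M ^ c), f1 M c E t ≤ E * ∑ t ∈ ci W 1 (M ^ c) (2 * M ^ c), rg z t := by
      rw [mul_sum]
      exact sum_le_sum fun t _ => f1_le_rg hM1' hzM t
    set S1 := ∑ t ∈ ci W 1 (M ^ c) (2 * M ^ c), f1 M c E t
    set S2 := ∑ t ∈ ci W 1 (M ^ c) (2 * M ^ c), rg z t
    have e3 : 2 * M ^ c - M ^ c = M ^ c := by ring
    rw [e3] at h1 h2
    have h4 := (abs_le.1 h1).1
    have h5 := (abs_le.1 h2).2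
    have h6 : a0 * M ^ c ≤ (E * (k0 + 2 * η) + 2 * η) * M ^ c := by
      have h7 : (E : ℝ) * S2 ≤ E * ((k0 + 2 * η) * M ^ c) := by
        apply mul_le_mul_of_nonneg_left _ hE0
        linarith
      linarith
    have h7 : a0 ≤ E * (k0 + 2 * η) + 2 * η := le_of_mul_le_mul_right h6 hX0
    have h8 : E * (2 * η) + 2 * η ≤ a0 / 2 := by
      have h9 : (1 / (10000 * (W : ℝ) ^ 2)) / ℓ ≤ a0 := by
        rw [div_le_iff₀ hℓ0]
        linarith
      have h10 : E * (2 * η) + 2 * η ≤ (1 / (10000 * (W : ℝ) ^ 2)) / ℓ / 2 := by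
        have e4 : (1 / (10000 * (W : ℝ) ^ 2)) / ℓ / 2 = 1 / (20000 * (W : ℝ) ^ 2 * ℓ) := by
          field_simp
          norm_num
        rw [e4, le_div_iff₀ (by positivity)]
        have h11 : η * ℓ ^ 2 ≤ 1 / 1000000 := hη6
        have h12 : (E + 1 : ℝ) * (W : ℝ) ^ 2 * 40000 ≤ ℓ := by
          have h13 : (E + 1 : ℝ) ≤ (E + 1) ^ 2 := le_self_pow₀ (by linarith) (by norm_num)
          have h14 : (W : ℝ) ^ 2 ≤ (W : ℝ) ^ 4 := pow_le_pow_right₀ hw1 (by norm_num)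
          calc (E + 1 : ℝ) * (W : ℝ) ^ 2 * 40000 ≤ (E + 1) ^ 2 * (W : ℝ) ^ 4 * 1000000 := by gcongr; norm_num
            _ ≤ ℓ := by linarith
        calc (E * (2 * η) + 2 * η) * (20000 * (W : ℝ) ^ 2 * ℓ) = η * ℓ * ((E + 1 : ℝ) * (W : ℝ) ^ 2 * 40000) := by ring
          _ ≤ η * ℓ * ℓ := by gcongr
          _ = η * ℓ ^ 2 := by ring
          _ ≤ 1 / 1000000 := h11
          _ ≤ 1 := by norm_num
      linarith
    linarith
  have hk0p : 0 < k0 := by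
    by_contra hcon
    have : k0 = 0 := le_antisymm (not_lt.1 hcon) hk0n
    rw [this] at hk0lo
    linarith
  have hk04 : k0 ≤ 4 := kq_le hW1
  have hSdef : Sf z0 c M = a0 / k0 := rfl
  have hS0 : 0 < Sf z0 c M := by rw [hSdef]; positivity
  have hS2 : Sf z0 c M ≤ 2 * E := by
    rw [hSdef, div_le_iff₀ hk0p]
    exact hk0lo
  refine ⟨?_, hS2, hk0p, ?_⟩
  · have e1 : Sf z0 c M * k0 = a0 := by rw [hSdef]; field_simp
    rw [e1]
    refine le_trans ?_ ha0lo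
    apply one_div_le_one_div_of_le (by positivity)
    linarith [sq_nonneg (W : ℝ)]
  · intro Q hQ hQB hWQ s hs Y1 Y2 hY1 hY12 hY2
    have hQB1 : (Q : ℝ) ≤ ℓ ^ B1 := hQB.trans (pow_le_pow_right₀ hℓ1 (by omega))
    set a := dn (M ^ (c / 4)) Q / ℓ with ha
    set k := kq z z0 Q with hk
    have hk4 : k ≤ 4 := kq_le hQ
    have hkn : 0 ≤ k := kq_nonneg _ _ _
    set G := (lifts W Q 1).filter (fun r => IsCoprime r ((Q : ℕ) : ZI)) with hG
    have d1 := dens_lift (g := f1 M c E) (q0 := W) (Q := Q) hQ hWQ hX0 hXX (hf W hW1 hWB) (hf Q hQ hQB1) (hfc Q hQ hQB1)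
    have d2 := dens_lift (g := rg z) (q0 := W) (Q := Q) hQ hWQ hX0 hXX (hr W hW1 hWB dvd_rfl) (hr Q hQ hQB1 hWQ)
      (hrc Q hQ hQB1)
    rw [← hG, ← ha0, ← ha] at d1
    rw [← hG, ← hk0, ← hk] at d2
    set N : ℝ := (G.card : ℝ) with hN
    have hN0 : 0 ≤ N := Nat.cast_nonneg _
    have hNQ : N ≤ (Q : ℝ) ^ 2 := by
      refine le_trans ?_ (card_lifts W Q 1)
      rw [hN]
      exact_mod_cast card_filter_le _ _
    have hNℓ : 1 + N ≤ 2 * ℓ ^ (2 * B1) := by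
      have h1 : (Q : ℝ) ^ 2 ≤ ℓ ^ (2 * B1) := by
        calc (Q : ℝ) ^ 2 ≤ (ℓ ^ B1) ^ 2 := by gcongr
          _ = ℓ ^ (2 * B1) := by rw [← pow_mul, mul_comm]
      have h2 : 1 ≤ ℓ ^ (2 * B1) := one_le_pow₀ hℓ1
      linarith
    have hN1 : 1 ≤ N := by
      by_contra hcon
      have h1 : G.card = 0 := by
        by_contra h2
        apply hcon
        rw [hN]
        exact_mod_cast Nat.one_le_iff_ne_zero.2 h2
      rw [hN, h1] at d1
      push_cast at d1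
      rw [zero_mul, sub_zero, abs_of_pos ha0p, add_zero, mul_one] at d1
      have h3 : 1 / (10000 * (W : ℝ) ^ 2) ≤ ℓ * (2 * η) := ha0lo.trans (mul_le_mul_of_nonneg_left d1 hℓ0.le)
      rw [div_le_iff₀ (by positivity)] at h3
      have h4 : ℓ * (2 * η) * (10000 * (W : ℝ) ^ 2) ≤ η * ℓ ^ 2 := by
        have : 20000 * (W : ℝ) ^ 2 ≤ ℓ := by linarith [sq_nonneg (W : ℝ)]
        calc ℓ * (2 * η) * (10000 * (W : ℝ) ^ 2) = η * ℓ * (20000 * (W : ℝ) ^ 2) := by ring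
          _ ≤ η * ℓ * ℓ := by gcongr
          _ = _ := by ring
      linarith
    have hεN : 2 * η * (1 + N) ≤ 4 / ℓ ^ (A + 4) := by
      calc 2 * η * (1 + N) ≤ 2 * η * (2 * ℓ ^ (2 * B1)) := by gcongr
        _ = 4 / ℓ ^ (A + 4) := by
            rw [hη, hA1, show A + 2 * B1 + 4 = (A + 4) + 2 * B1 by ring, pow_add ℓ (A + 4)]
            field_simp
            norm_num
    have h4A : 4 / ℓ ^ (A + 4) ≤ 1 := by
      rw [div_le_one (by positivity)]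
      calc (4 : ℝ) ≤ ℓ := by linarith
        _ = ℓ ^ 1 := (pow_one _).symm
        _ ≤ ℓ ^ (A + 4) := pow_le_pow_right₀ hℓ1 (by omega)
    have ha0up : a0 ≤ 8 * E := hk0lo.trans (by
      calc 2 * (E : ℝ) * k0 ≤ 2 * E * 4 := mul_le_mul_of_nonneg_left hk04 (by positivity)
        _ = 8 * E := by ring)
    have haup : |a| ≤ 8 * E + 1 := by
      have h1 : |N * a| ≤ a0 + 1 := by
        have e1 : N * a = a0 - (a0 - N * a) := by ring
        rw [e1]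
        refine (abs_sub _ _).trans ?_
        rw [abs_of_pos ha0p]
        linarith
      rw [abs_mul, abs_of_nonneg hN0] at h1
      have h2 : |a| ≤ N * |a| := le_mul_of_one_le_left (abs_nonneg _) hN1
      linarith
    -- the comparison of the densities
    have hdiff : |a - Sf z0 c M * k| ≤ 1 / ℓ ^ (A + 1) := by
      have e1 : a - Sf z0 c M * k = (a * (k0 - N * k) - k * (a0 - N * a)) / k0 := by
        rw [hSdef]
        field_simp
        ring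
      rw [e1, abs_div, abs_of_pos hk0p, div_le_iff₀ hk0p]
      have h1 : |a * (k0 - N * k) - k * (a0 - N * a)| ≤ (8 * E + 1) * (4 / ℓ ^ (A + 4)) + 4 * (4 / ℓ ^ (A + 4)) := by
        refine (abs_sub _ _).trans ?_
        rw [abs_mul, abs_mul, abs_of_nonneg hkn]
        apply add_le_add
        · exact mul_le_mul haup (d2.trans hεN) (abs_nonneg _) (by positivity)
        · exact mul_le_mul hk4 (d1.trans hεN) (abs_nonneg _) (by norm_num)
      refine h1.trans ?_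
      have h2 : a0 / (2 * E) ≤ k0 := by rw [div_le_iff₀ (by positivity)]; linarith
      have h3 : 1 / (10000 * (W : ℝ) ^ 2) / ℓ / (2 * E) ≤ k0 := by
        refine le_trans ?_ h2
        apply div_le_div_of_nonneg_right _ (by positivity)
        rw [div_le_iff₀ hℓ0]
        linarith
      calc (8 * E + 1) * (4 / ℓ ^ (A + 4)) + 4 * (4 / ℓ ^ (A + 4)) = (32 * E + 20) * (1 / ℓ ^ (A + 4)) := by ring
        _ ≤ 1 / ℓ ^ (A + 1) * (1 / (10000 * (W : ℝ) ^ 2) / ℓ / (2 * E)) := by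
            rw [show A + 4 = (A + 1) + 1 + 2 by ring, pow_add ℓ (A + 1 + 1) 2, pow_succ ℓ (A + 1)]
            have e2 : 1 / ℓ ^ (A + 1) * (1 / (10000 * (W : ℝ) ^ 2) / ℓ / (2 * E)) =
                1 / (ℓ ^ (A + 1) * ℓ * ℓ ^ 2) * (ℓ ^ 2 / (20000 * (W : ℝ) ^ 2 * E)) := by
              field_simp
              norm_num
            rw [e2, mul_comm]
            apply mul_le_mul_of_nonneg_left _ (by positivity)
            rw [le_div_iff₀ (by positivity)]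
            have h5 : (E : ℝ) ^ 2 * (W : ℝ) ^ 2 * 1000000 ≤ ℓ := by
              have h13 : (E : ℝ) ^ 2 ≤ (E + 1) ^ 2 := pow_le_pow_left₀ hE0 (by linarith) 2
              have h14 : (W : ℝ) ^ 2 ≤ (W : ℝ) ^ 4 := pow_le_pow_right₀ hw1 (by norm_num)
              calc (E : ℝ) ^ 2 * (W : ℝ) ^ 2 * 1000000 ≤ (E + 1) ^ 2 * (W : ℝ) ^ 4 * 1000000 := by gcongr
                _ ≤ ℓ := by linarith
            have h6 : (0 : ℝ) ≤ (W : ℝ) ^ 2 := by positivity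
            calc (32 * (E : ℝ) + 20) * (20000 * (W : ℝ) ^ 2 * E) ≤ (32 * (E : ℝ) + 10 * E) * (20000 * (W : ℝ) ^ 2 * E) := by
                  gcongr
                  linarith
              _ = (E : ℝ) ^ 2 * (W : ℝ) ^ 2 * 840000 := by ring
              _ ≤ ℓ := by linarith [mul_nonneg (sq_nonneg (E : ℝ)) h6]
              _ ≤ ℓ ^ 2 := le_self_pow₀ hℓ1 (by norm_num)
        _ ≤ 1 / ℓ ^ (A + 1) * k0 := mul_le_mul_of_nonneg_left h3 (by positivity)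
    -- the sums
    have h1 := hf Q hQ hQB1 s hs Y1 Y2 hY1 hY12 hY2
    have h2 := hr Q hQ hQB1 hWQ s hs Y1 Y2 hY1 hY12 hY2
    rw [← ha] at h1
    rw [← hk] at h2
    rw [sum_sub_distrib, ← mul_sum]
    set S1 := ∑ t ∈ ci Q s Y1 Y2, f1 M c E t
    set S2 := ∑ t ∈ ci Q s Y1 Y2, rg z t
    have e1 : S1 - Sf z0 c M * S2 = (S1 - a * (Y2 - Y1)) - Sf z0 c M * (S2 - k * (Y2 - Y1)) +
        (a - Sf z0 c M * k) * (Y2 - Y1) := by ring
    have hY0 : 0 < Y1 := lt_of_lt_of_le hX0 hY1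
    have hηA : η ≤ 1 / ℓ ^ (A + 1) := by
      rw [hη]
      apply one_div_le_one_div_of_le (by positivity)
      exact pow_le_pow_right₀ hℓ1 (by omega)
    rw [e1]
    calc |(S1 - a * (Y2 - Y1)) - Sf z0 c M * (S2 - k * (Y2 - Y1)) + (a - Sf z0 c M * k) * (Y2 - Y1)| ≤
        |(S1 - a * (Y2 - Y1)) - Sf z0 c M * (S2 - k * (Y2 - Y1))| + |(a - Sf z0 c M * k) * (Y2 - Y1)| := abs_add_le _ _
      _ ≤ (|S1 - a * (Y2 - Y1)| + |Sf z0 c M * (S2 - k * (Y2 - Y1))|) + |(a - Sf z0 c M * k) * (Y2 - Y1)| := by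
          linarith [abs_sub (S1 - a * (Y2 - Y1)) (Sf z0 c M * (S2 - k * (Y2 - Y1)))]
      _ ≤ (1 / ℓ ^ (A + 1) * Y2 + (2 * E) * (1 / ℓ ^ (A + 1) * Y2)) + 1 / ℓ ^ (A + 1) * Y2 := by
          apply add_le_add
          · apply add_le_add
            · exact h1.trans (mul_le_mul_of_nonneg_right hηA (by linarith))
            · rw [abs_mul, abs_of_pos hS0]
              exact mul_le_mul hS2 (h2.trans (mul_le_mul_of_nonneg_right hηA (by linarith))) (abs_nonneg _) (by positivity)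
          · rw [abs_mul, abs_of_nonneg (show 0 ≤ Y2 - Y1 by linarith)]
            exact mul_le_mul hdiff (by linarith) (by linarith) (by positivity)
      _ = (2 * E + 2) * (1 / ℓ ^ (A + 1) * Y2) := by ring
      _ ≤ ℓ * (1 / ℓ ^ (A + 1) * Y2) := by
          apply mul_le_mul_of_nonneg_right _ (mul_nonneg (by positivity) (by linarith))
          have h13 : (E + 1 : ℝ) ≤ (E + 1) ^ 2 := le_self_pow₀ (by linarith) (by norm_num)
          linarith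
      _ = 1 / ℓ ^ A * Y2 := by
          rw [pow_succ]
          field_simp

end Pool.Agent.J6H16.PR
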