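import Pool.Agent.J6H16.PR.Ls

/-!
# Project PR (helper16): the zeros of `x² + y²` modulo `D`, and Gaussian integers in a class whose norm is divisible by `D`
-/

set_option autoImplicit false

namespace Pool.Agent.J6H16.PR

open Finset Filter Topology MeasureTheory
open Pool.Agent.N782.GN Pool.Agent.N855.GN
open Pool.Agent.H304R3.HK (UH bb LamK CS)
open Pool.Agent.J6H16.PF

/-- the number of the zeros of `x² + y²` modulo `D` -/
noncomputable def N2 (D : ℕ) : ℕ := Nat.card {x : ZMod D × ZMod D // x.1 ^ 2 + x.2 ^ 2 = 0}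

/-- the number of the roots of `x² + 1` -/
noncomputable def r1 (D : ℕ) : ℕ := Nat.card {x : ZMod D // x ^ 2 + 1 = 0}

theorem N2_one : N2 1 = 1 := by
  unfold N2
  have : Subsingleton {x : ZMod 1 × ZMod 1 // x.1 ^ 2 + x.2 ^ 2 = 0} := by
    constructor
    rintro ⟨⟨a, b⟩, _⟩ ⟨⟨c, d⟩, _⟩
    apply Subtype.ext
    exact Prod.ext (Subsingleton.elim _ _) (Subsingleton.elim _ _)
  have : Nonempty {x : ZMod 1 × ZMod 1 // x.1 ^ 2 + x.2 ^ 2 = 0} := ⟨⟨(0, 0), Subsingleton.elim _ _⟩⟩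
  exact Nat.card_unique

theorem N2_mul {m n : ℕ} (h : Nat.Coprime m n) : N2 (m * n) = N2 m * N2 n := by
  unfold N2
  rw [← Nat.card_prod]
  let e := ZMod.chineseRemainder h
  let f : ZMod (m * n) × ZMod (m * n) ≃ (ZMod m × ZMod m) × (ZMod n × ZMod n) :=
    { toFun := fun x => (((e x.1).1, (e x.2).1), ((e x.1).2, (e x.2).2))
      invFun := fun y => (e.symm (y.1.1, y.2.1), e.symm (y.1.2, y.2.2))
      left_inv := fun x => by simp
      right_inv := fun y => by simp }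
  have hf : ∀ x : ZMod (m * n) × ZMod (m * n), x.1 ^ 2 + x.2 ^ 2 = 0 ↔
      ((f x).1.1 ^ 2 + (f x).1.2 ^ 2 = 0) ∧ ((f x).2.1 ^ 2 + (f x).2.2 ^ 2 = 0) := by
    intro x
    have h1 : x.1 ^ 2 + x.2 ^ 2 = 0 ↔ e (x.1 ^ 2 + x.2 ^ 2) = 0 := by
      rw [map_eq_zero_iff e e.injective]
    rw [h1, map_add, map_pow, map_pow, Prod.ext_iff]
    rfl
  refine Nat.card_congr ((Equiv.subtypeEquiv (q := fun y : (ZMod m × ZMod m) × (ZMod n × ZMod n) =>
    (y.1.1 ^ 2 + y.1.2 ^ 2 = 0) ∧ (y.2.1 ^ 2 + y.2.2 ^ 2 = 0)) f hf).trans ?_)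
  exact
    { toFun := fun y => (⟨y.1.1, y.2.1⟩, ⟨y.1.2, y.2.2⟩)
      invFun := fun y => ⟨(y.1.1, y.2.1), ⟨y.1.2, y.2.2⟩⟩
      left_inv := fun y => rfl
      right_inv := fun y => rfl }

theorem N2_prod (T : Finset ℕ) (hT : ∀ p ∈ T, p.Prime) : N2 (∏ p ∈ T, p) = ∏ p ∈ T, N2 p := by
  classical
  induction T using Finset.induction_on with
  | empty => rw [prod_empty, prod_empty]; exact N2_one
  | insert q S hq ih =>
    rw [prod_insert hq, prod_insert hq, N2_mul, ih fun p hp => hT p (mem_insert_of_mem hp)]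
    refine Nat.Coprime.prod_right fun p hp => ?_
    rw [Nat.coprime_primes (hT q (mem_insert_self _ _)) (hT p (mem_insert_of_mem hp))]
    rintro rfl
    exact hq hp

/-- the zeros modulo a prime -/
theorem N2_prime {p : ℕ} (hp : p.Prime) : N2 p = 1 + (p - 1) * r1 p := by
  classical
  have : Fact p.Prime := ⟨hp⟩
  have h1 : N2 p = (univ.filter (fun x : ZMod p × ZMod p => x.1 ^ 2 + x.2 ^ 2 = 0)).card := by
    unfold N2
    rw [Nat.card_eq_fintype_card, Fintype.card_subtype]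
  have h2 : r1 p = (univ.filter (fun x : ZMod p => x ^ 2 + 1 = 0)).card := by
    unfold r1
    rw [Nat.card_eq_fintype_card, Fintype.card_subtype]
  have h3 : (univ.filter (fun x : ZMod p × ZMod p => x.1 ^ 2 + x.2 ^ 2 = 0)).card =
      ∑ y : ZMod p, (univ.filter (fun x : ZMod p => x ^ 2 + y ^ 2 = 0)).card := by
    rw [card_eq_sum_card_fiberwise (f := Prod.snd) (t := univ) (fun x _ => mem_univ _)]
    refine sum_congr rfl fun y _ => ?_
    symm
    apply card_bij (fun x _ => (x, y))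
    · intro x hx
      rw [mem_filter] at hx
      rw [mem_filter, mem_filter]
      exact ⟨⟨mem_univ _, hx.2⟩, rfl⟩
    · intro a _ b _ h
      exact (Prod.ext_iff.1 h).1
    · rintro ⟨a, b⟩ hx
      rw [mem_filter, mem_filter] at hx
      refine ⟨a, ?_, ?_⟩
      · rw [mem_filter]
        refine ⟨mem_univ _, ?_⟩
        have := hx.1.2
        rw [← hx.2]
        exact this
      · rw [← hx.2]
  have h4 : ∀ y : ZMod p, y ≠ 0 → (univ.filter (fun x : ZMod p => x ^ 2 + y ^ 2 = 0)).card = r1 p := by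
    intro y hy
    rw [h2]
    apply card_bij (fun x _ => x * y⁻¹)
    · intro x hx
      rw [mem_filter] at hx ⊢
      refine ⟨mem_univ _, ?_⟩
      have h5 : (x * y⁻¹) ^ 2 + 1 = (x ^ 2 + y ^ 2) * (y⁻¹) ^ 2 := by
        field_simp
      rw [h5, hx.2, zero_mul]
    · intro a _ b _ h
      exact mul_right_cancel₀ (inv_ne_zero hy) h
    · intro x hx
      rw [mem_filter] at hx
      refine ⟨x * y, ?_, ?_⟩
      · rw [mem_filter]
        refine ⟨mem_univ _, ?_⟩
        have : (x * y) ^ 2 + y ^ 2 = (x ^ 2 + 1) * y ^ 2 := by ring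
        rw [this, hx.2, zero_mul]
      · rw [mul_assoc, mul_inv_cancel₀ hy, mul_one]
  have h5 : (univ.filter (fun x : ZMod p => x ^ 2 + (0 : ZMod p) ^ 2 = 0)).card = 1 := by
    rw [card_eq_one]
    refine ⟨0, ?_⟩
    ext x
    rw [mem_filter, mem_singleton]
    constructor
    · rintro ⟨-, h⟩
      have h' : x ^ 2 = 0 := by simpa using h
      exact pow_eq_zero_iff (by norm_num) |>.1 h'
    · rintro rfl
      exact ⟨mem_univ _, by ring⟩
  rw [h1, h3, ← add_sum_erase _ _ (mem_univ (0 : ZMod p)), h5, sum_congr rfl (g := fun _ => r1 p) fun y hy =>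
    h4 y (mem_erase.1 hy).1, sum_const, card_erase_of_mem (mem_univ _), card_univ, ZMod.card, smul_eq_mul]

theorem r1_le {p : ℕ} (hp : p.Prime) : r1 p ≤ 2 := by
  classical
  have : Fact p.Prime := ⟨hp⟩
  have h2 : r1 p = (univ.filter (fun x : ZMod p => x ^ 2 + 1 = 0)).card := by
    unfold r1
    rw [Nat.card_eq_fintype_card, Fintype.card_subtype]
  rw [h2]
  by_cases h : ∃ x : ZMod p, x ^ 2 + 1 = 0
  · obtain ⟨x, hx⟩ := h
    refine (card_le_card (t := {x, -x}) fun y hy => ?_).trans card_le_two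
    rw [mem_filter] at hy
    have h3 : y ^ 2 = x ^ 2 := by linear_combination hy.2 - hx
    rw [mem_insert, mem_singleton]
    exact sq_eq_sq_iff_eq_or_eq_neg.1 h3
  · push Not at h
    rw [filter_false_of_mem (fun x _ => h x), card_empty]
    omega

theorem N2_le {p : ℕ} (hp : p.Prime) : (N2 p : ℝ) ≤ 2 * p := by
  have h1 := N2_prime hp
  have h2 := r1_le hp
  have h3 := hp.two_le
  have h4 : N2 p ≤ 2 * p := by
    rw [h1]
    calc 1 + (p - 1) * r1 p ≤ 1 + (p - 1) * 2 := by gcongr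
      _ ≤ 2 * p := by omega
  exact_mod_cast h4

theorem N2_le_sq {D : ℕ} (hD : 1 ≤ D) : N2 D ≤ D ^ 2 := by
  have : NeZero D := ⟨by omega⟩
  unfold N2
  calc Nat.card {x : ZMod D × ZMod D // x.1 ^ 2 + x.2 ^ 2 = 0} ≤ Nat.card (ZMod D × ZMod D) :=
        Nat.card_le_card_of_injective _ Subtype.val_injective
    _ = D ^ 2 := by rw [Nat.card_prod, Nat.card_zmod, sq]

theorem nn_zmod (D : ℕ) (t : ZI) : D ∣ nn t ↔ ((t.re : ℤ) : ZMod D) ^ 2 + ((t.im : ℤ) : ZMod D) ^ 2 = 0 := by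
  have h1 : ((nn t : ℕ) : ℤ) = t.re ^ 2 + t.im ^ 2 := by
    unfold nn
    rw [Zsqrtd.norm_def]
    have : t.re * t.re - -1 * t.im * t.im = t.re ^ 2 + t.im ^ 2 := by ring
    rw [this, Int.natAbs_of_nonneg (by positivity)]
  rw [← ZMod.natCast_eq_zero_iff]
  have h2 : ((nn t : ℕ) : ZMod D) = ((((nn t : ℕ) : ℤ)) : ZMod D) := by push_cast; rfl
  rw [h2, h1]
  push_cast
  rfl

/-- the elements of a class whose norm is divisible by `D` -/
theorem cls_div : ∃ C : ℝ, 0 < C ∧ ∀ (Q D : ℕ) (s : ZI) (Y : ℝ), 1 ≤ Q → 1 ≤ D → Nat.Coprime Q D → 1 ≤ Y →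
    |(((cls Q s Y).filter (fun t => D ∣ nn t)).card : ℝ) - N2 D * (Real.pi / ((Q : ℝ) * D) ^ 2 * Y)| ≤
      N2 D * (C * Real.sqrt Y) := by
  classical
  obtain ⟨C, hC, h⟩ := el0
  refine ⟨C, hC, fun Q D s Y hQ hD hQD hY => ?_⟩
  have : NeZero D := ⟨by omega⟩
  set S : Finset (ZMod D × ZMod D) := univ.filter (fun x => x.1 ^ 2 + x.2 ^ 2 = 0) with hS
  have hN : N2 D = S.card := by
    unfold N2
    rw [Nat.card_eq_fintype_card, Fintype.card_subtype]
  set F : ZI → ZMod D × ZMod D := fun t => (((t.re : ℤ) : ZMod D), ((t.im : ℤ) : ZMod D)) with hF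
  have hmap : ∀ t ∈ (cls Q s Y).filter (fun t => D ∣ nn t), F t ∈ S := by
    intro t ht
    rw [mem_filter] at ht
    rw [hS, mem_filter]
    exact ⟨mem_univ _, (nn_zmod D t).1 ht.2⟩
  -- the fibres
  have hfib : ∀ x ∈ S, |((((cls Q s Y).filter (fun t => D ∣ nn t)).filter (fun t => F t = x)).card : ℝ) -
      Real.pi / ((Q : ℝ) * D) ^ 2 * Y| ≤ C * Real.sqrt Y := by
    intro x hx
    obtain ⟨e, f, hef⟩ : ∃ e f : ℤ, e * Q + f * D = 1 := by
      have h1 : IsCoprime (Q : ℤ) (D : ℤ) := Nat.isCoprime_iff_coprime.2 hQD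
      exact h1
    set u : ZI := ⟨((ZMod.val x.1 : ℕ) : ℤ), ((ZMod.val x.2 : ℕ) : ℤ)⟩ with hu
    set r : ZI := s * ((f : ℤ) : ZI) * ((D : ℕ) : ZI) + u * ((e : ℤ) : ZI) * ((Q : ℕ) : ZI) with hr
    have hefz : ((e : ℤ) : ZI) * ((Q : ℕ) : ZI) + ((f : ℤ) : ZI) * ((D : ℕ) : ZI) = 1 := by
      have := congrArg (fun z : ℤ => ((z : ℤ) : ZI)) hef
      push_cast at this
      exact this
    have hQz : ∀ t : ZI, ((Q : ℕ) : ZI) ∣ t - r ↔ ((Q : ℕ) : ZI) ∣ t - s := by
      intro t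
      have e1 : t - r = (t - s) + ((Q : ℕ) : ZI) * (((e : ℤ) : ZI) * (s - u)) := by
        rw [hr]
        linear_combination (-s) * hefz
      rw [e1]
      exact dvd_add_left (dvd_mul_right _ _)
    have hDz : ∀ t : ZI, ((D : ℕ) : ZI) ∣ t - r ↔ ((D : ℕ) : ZI) ∣ t - u := by
      intro t
      have e1 : t - r = (t - u) + ((D : ℕ) : ZI) * (((f : ℤ) : ZI) * (u - s)) := by
        rw [hr]
        linear_combination (-u) * hefz
      rw [e1]
      exact dvd_add_left (dvd_mul_right _ _)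
    have hDF : ∀ t : ZI, ((D : ℕ) : ZI) ∣ t - u ↔ F t = x := by
      intro t
      rw [dvd_ZI, Zsqrtd.re_sub, Zsqrtd.im_sub, hF, Prod.ext_iff]
      have h2 : ∀ (a : ℤ) (y : ZMod D), ((D : ℕ) : ℤ) ∣ a - ((ZMod.val y : ℕ) : ℤ) ↔ ((a : ℤ) : ZMod D) = y := by
        intro a y
        rw [← ZMod.intCast_zmod_eq_zero_iff_dvd]
        push_cast
        rw [ZMod.natCast_zmod_val, sub_eq_zero]
      exact and_congr (h2 _ _) (h2 _ _)
    have hcop : IsCoprime ((Q : ℕ) : ZI) ((D : ℕ) : ZI) := ⟨((e : ℤ) : ZI), ((f : ℤ) : ZI), hefz⟩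
    have hset : ((cls Q s Y).filter (fun t => D ∣ nn t)).filter (fun t => F t = x) = cls (Q * D) r Y := by
      ext t
      unfold cls
      rw [mem_filter, mem_filter, mem_filter, mem_filter]
      have h3 : (((Q * D : ℕ) : ℕ) : ZI) ∣ t - r ↔ ((Q : ℕ) : ZI) ∣ t - s ∧ F t = x := by
        rw [← hQz t, ← hDF t, ← hDz t]
        push_cast
        constructor
        · intro h4
          exact ⟨dvd_of_mul_right_dvd h4, dvd_of_mul_left_dvd h4⟩
        · rintro ⟨h4, h5⟩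
          exact hcop.mul_dvd h4 h5
      rw [h3]
      constructor
      · rintro ⟨⟨⟨h4, h5⟩, h6⟩, h7⟩
        exact ⟨h4, h5, h7⟩
      · rintro ⟨h4, h5, h7⟩
        refine ⟨⟨⟨h4, h5⟩, ?_⟩, h7⟩
        rw [nn_zmod]
        have h8 := (mem_filter.1 hx).2
        rw [← h7] at h8
        exact h8
    rw [hset]
    have h9 := h (Q * D) r Y (Nat.one_le_iff_ne_zero.2 (by positivity)) hY
    push_cast at h9
    exact h9
  rw [card_eq_sum_card_fiberwise hmap, hN]
  push_cast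
  have h10 : ∑ x ∈ S, ((((cls Q s Y).filter (fun t => D ∣ nn t)).filter (fun t => F t = x)).card : ℝ) -
      (S.card : ℝ) * (Real.pi / ((Q : ℝ) * D) ^ 2 * Y) =
      ∑ x ∈ S, (((((cls Q s Y).filter (fun t => D ∣ nn t)).filter (fun t => F t = x)).card : ℝ) -
        Real.pi / ((Q : ℝ) * D) ^ 2 * Y) := by
    rw [sum_sub_distrib, sum_const, nsmul_eq_mul]
  rw [h10]
  refine (abs_sum_le_sum_abs _ _).trans ((sum_le_sum hfib).trans (le_of_eq ?_))
  rw [sum_const, nsmul_eq_mul]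

end Pool.Agent.J6H16.PR
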