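import Pool.Agent.J6H16.PR.As

/-!
# Project PR (helper16): uniformity in the length
-/

set_option autoImplicit false

namespace Pool.Agent.J6H16.PR

open Finset Filter Topology MeasureTheory
open Pool.Agent.N782.GN Pool.Agent.N855.GN
open Pool.Agent.H304R3.HK (UH bb LamK CS)
open Pool.Agent.J6H16.PF

theorem nn_neg_im (l m : ℤ) : nn (⟨l, -m⟩ : ZI) = nn (⟨l, m⟩ : ZI) := by
  unfold nn
  rw [Zsqrtd.norm_def, Zsqrtd.norm_def]
  simp

theorem Good_neg (r : ℕ) (y : ℝ) (l m : ℤ) : Good r y (⟨l, -m⟩ : ZI) ↔ Good r y (⟨l, m⟩ : ZI) := by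
  unfold Good
  rw [nn_neg_im]

/-- the square is not a squarefree product of several primes -/
theorem Good_zero {r : ℕ} (hr : 1 ≤ r) (y : ℝ) (l : ℤ) : ¬ Good r y (⟨l, 0⟩ : ZI) := by
  intro h
  have h1 : nn (⟨l, 0⟩ : ZI) = l.natAbs * l.natAbs := by
    unfold nn
    rw [Zsqrtd.norm_def]
    simp [Int.natAbs_mul]
  obtain ⟨h2, h3, -⟩ := h
  rw [h1] at h2 h3
  have h4 := h2 l.natAbs (dvd_refl _)
  rw [Nat.isUnit_iff] at h4
  rw [h4] at h3
  simp at h3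
  omega

open Classical in
/-- the two signs -/
theorem half_good {r : ℕ} (hr : 1 ≤ r) (y : ℝ) (l : ℤ) (N : ℤ) :
    (((Icc (-N) N).filter (fun n => Good r y (⟨l, n⟩ : ZI))).card : ℝ) ≤
      2 * (((Icc (1 : ℤ) N).filter (fun n => Good r y (⟨l, n⟩ : ZI))).card : ℝ) := by
  set T := (Icc (1 : ℤ) N).filter (fun n => Good r y (⟨l, n⟩ : ZI)) with hT
  have hsub : (Icc (-N) N).filter (fun n => Good r y (⟨l, n⟩ : ZI)) ⊆ T ∪ T.image (fun m => -m) := by
    intro m hm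
    rw [mem_filter, mem_Icc] at hm
    obtain ⟨⟨h1, h2⟩, h3⟩ := hm
    rw [mem_union]
    rcases lt_trichotomy 0 m with h | h | h
    · left
      rw [hT, mem_filter, mem_Icc]
      exact ⟨⟨h, h2⟩, h3⟩
    · exfalso
      rw [← h] at h3
      exact Good_zero hr y l h3
    · right
      rw [mem_image]
      refine ⟨-m, ?_, neg_neg m⟩
      rw [hT, mem_filter, mem_Icc, Good_neg]
      exact ⟨⟨by omega, by omega⟩, h3⟩
  have h1 := (card_le_card hsub).trans (card_union_le _ _)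
  have h2 : (T.image (fun m => -m)).card ≤ T.card := card_image_le
  have h3 : ((Icc (-N) N).filter (fun n => Good r y (⟨l, n⟩ : ZI))).card ≤ 2 * T.card := by omega
  exact_mod_cast h3

theorem Good_mono {r : ℕ} {y y' : ℝ} (h : y' ≤ y) {ζ : ZI} (hg : Good r y ζ) : Good r y' ζ :=
  ⟨hg.1, hg.2.1, fun p hp => lt_of_le_of_lt h (hg.2.2 p hp)⟩

open Classical in
/-- **all lengths at once** -/
theorem fin_r (k : ℕ) (ε E : ℝ) (hε : 0 < ε) : ∃ c : ℝ, 0 < c ∧ ∀ A : ℕ, ∀ᶠ K : ℝ in atTop,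
    (((Icc (1 : ℤ) ⌊K⌋).filter (fun l => ¬ ∀ N : ℝ, K ^ (1 + ε) ≤ N → N ≤ K ^ E → c * fr l.natAbs * (N / Real.log N) ≤
      (((Icc (1 : ℤ) ⌊N⌋).filter (fun n : ℤ => Good (k + 3) (N ^ c) (⟨l, n⟩ : ZI))).card : ℝ))).card : ℝ) ≤
      K / (Real.log K) ^ A := by
  obtain ⟨E', hE'⟩ : ∃ x : ℝ, x = max E 1 := ⟨_, rfl⟩
  have hE'1 : 1 ≤ E' := by rw [hE']; exact le_max_right _ _
  have hEE' : E ≤ E' := by rw [hE']; exact le_max_left _ _
  obtain ⟨c, c3, hc, hc3, hmain⟩ := asm (ε1 := ε / (1 + ε)) (θ := 1 / (E' + 1)) (by positivity)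
    (by rw [div_le_one (by positivity)]; linarith) (by positivity) (by rw [div_le_one (by positivity)]; linarith) k
  refine ⟨min (c / 4) c3, lt_min (by positivity) hc3, ?_⟩
  intro A
  obtain ⟨M₁, hM₁⟩ := eventually_atTop.1 (hmain (A + 2))
  filter_upwards [eventually_ge_atTop (max M₁ 4), ev_log (2 * E' + 1)] with K hKm hlog
  have hK1 : M₁ ≤ K := (le_max_left _ _).trans hKm
  have hK4 : 4 ≤ K := (le_max_right _ _).trans hKm
  have hK0 : 0 < K := by linarith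
  have hK1' : 1 ≤ K := by linarith
  set ℓ := Real.log K with hℓ
  have hℓ1 : 1 ≤ ℓ := by linarith
  have hℓ0 : 0 < ℓ := by linarith
  set J := (range (⌊2 * E' * ℓ⌋₊ + 1)).filter (fun j => K ^ (1 + ε) ≤ 2 * 2 ^ j ∧ (2 : ℝ) ^ j ≤ K ^ E') with hJ
  set S := Icc (1 : ℤ) ⌊K⌋ with hS
  set bad : ℕ → Finset ℤ := fun j => S.filter (fun l => (((Icc (-⌊(2 * 2 ^ j : ℝ) / 2⌋) ⌊(2 * 2 ^ j : ℝ) / 2⌋).filter (fun n =>
        Good (k + 3) ((2 * 2 ^ j : ℝ) ^ c3) (⟨l, n⟩ : ZI))).card : ℝ) < c * fr l.natAbs * ((2 * 2 ^ j : ℝ) / Real.log (2 * 2 ^ j)))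
    with hbad
  have hbadc : ∀ j ∈ J, ((bad j).card : ℝ) ≤ K / ℓ ^ (A + 2) := by
    intro j hj
    rw [hJ, mem_filter] at hj
    obtain ⟨-, h1, h2⟩ := hj
    have h2j : (0 : ℝ) < 2 ^ j := by positivity
    have hKM' : K ≤ 2 * 2 ^ j := by
      refine le_trans ?_ h1
      calc K = K ^ (1 : ℝ) := (Real.rpow_one K).symm
        _ ≤ K ^ (1 + ε) := Real.rpow_le_rpow_of_exponent_le hK1' (by linarith)
    have h3 := hM₁ (2 * 2 ^ j) (hK1.trans hKM') K ?_ ?_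
    · refine h3.trans ?_
      apply div_le_div_of_nonneg_left hK0.le (by positivity)
      exact pow_le_pow_left₀ hℓ0.le (Real.log_le_log hK0 hKM') _
    · calc (2 * 2 ^ j : ℝ) ^ (1 / (E' + 1)) ≤ (K ^ (E' + 1)) ^ (1 / (E' + 1)) := by
            apply Real.rpow_le_rpow (by positivity) _ (by positivity)
            rw [Real.rpow_add hK0, Real.rpow_one]
            nlinarith [Real.rpow_pos_of_pos hK0 E']
        _ = K := by
            rw [← Real.rpow_mul hK0.le, mul_one_div_cancel (by positivity), Real.rpow_one]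
    · calc K = (K ^ (1 + ε)) ^ (1 - ε / (1 + ε)) := by
            rw [← Real.rpow_mul hK0.le]
            have : (1 + ε) * (1 - ε / (1 + ε)) = 1 := by field_simp; ring
            rw [this, Real.rpow_one]
        _ ≤ (2 * 2 ^ j) ^ (1 - ε / (1 + ε)) := by
            apply Real.rpow_le_rpow (by positivity) h1
            rw [sub_nonneg, div_le_one (by positivity)]
            linarith
  have hsub : S.filter (fun l => ¬ ∀ N : ℝ, K ^ (1 + ε) ≤ N → N ≤ K ^ E → min (c / 4) c3 * fr l.natAbs * (N / Real.log N) ≤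
      (((Icc (1 : ℤ) ⌊N⌋).filter (fun n : ℤ => Good (k + 3) (N ^ (min (c / 4) c3)) (⟨l, n⟩ : ZI))).card : ℝ)) ⊆ J.biUnion bad := by
    intro l hl
    rw [mem_filter] at hl
    obtain ⟨hlS, hl⟩ := hl
    by_contra hnot
    apply hl
    intro N hN1 hN2
    have hKε : K ≤ K ^ (1 + ε) := by
      calc K = K ^ (1 : ℝ) := (Real.rpow_one K).symm
        _ ≤ K ^ (1 + ε) := Real.rpow_le_rpow_of_exponent_le hK1' (by linarith)
    have hN4 : 4 ≤ N := hK4.trans (hKε.trans hN1)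
    have hN1' : 1 ≤ N := by linarith
    obtain ⟨j, hj1, hj2⟩ := exists_nat_pow_near hN1' (by norm_num : (1 : ℝ) < 2)
    rw [pow_succ] at hj2
    have h2j : (0 : ℝ) < 2 ^ j := by positivity
    have hjE : (2 : ℝ) ^ j ≤ K ^ E' := hj1.trans (hN2.trans (Real.rpow_le_rpow_of_exponent_le hK1' hEE'))
    have hjJ : j ∈ J := by
      rw [hJ, mem_filter, mem_range]
      refine ⟨?_, by linarith, hjE⟩
      rw [Nat.lt_succ_iff]
      apply Nat.le_floor
      have h1 := Real.log_le_log h2j hjE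
      rw [Real.log_pow, Real.log_rpow hK0, ← hℓ] at h1
      have h2 := Real.log_two_gt_d9
      have h3 : (0 : ℝ) ≤ j := Nat.cast_nonneg j
      nlinarith
    have hgood : c * fr l.natAbs * ((2 * 2 ^ j : ℝ) / Real.log (2 * 2 ^ j)) ≤
        (((Icc (-⌊(2 * 2 ^ j : ℝ) / 2⌋) ⌊(2 * 2 ^ j : ℝ) / 2⌋).filter (fun n =>
        Good (k + 3) ((2 * 2 ^ j : ℝ) ^ c3) (⟨l, n⟩ : ZI))).card : ℝ) := by
      by_contra hcon
      apply hnot
      rw [mem_biUnion]
      refine ⟨j, hjJ, ?_⟩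
      simp only [hbad, mem_filter]
      exact ⟨hlS, not_le.1 hcon⟩
    have h2 := half_good (r := k + 3) (by omega) ((2 * 2 ^ j : ℝ) ^ c3) l ⌊(2 * 2 ^ j : ℝ) / 2⌋
    have hNM : N ≤ 2 * 2 ^ j := by linarith
    have h3 : (((Icc (1 : ℤ) ⌊(2 * 2 ^ j : ℝ) / 2⌋).filter (fun n => Good (k + 3) ((2 * 2 ^ j : ℝ) ^ c3) (⟨l, n⟩ : ZI))).card : ℝ) ≤
        (((Icc (1 : ℤ) ⌊N⌋).filter (fun n : ℤ => Good (k + 3) (N ^ (min (c / 4) c3)) (⟨l, n⟩ : ZI))).card : ℝ) := by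
      have : (Icc (1 : ℤ) ⌊(2 * 2 ^ j : ℝ) / 2⌋).filter (fun n => Good (k + 3) ((2 * 2 ^ j : ℝ) ^ c3) (⟨l, n⟩ : ZI)) ⊆
          (Icc (1 : ℤ) ⌊N⌋).filter (fun n : ℤ => Good (k + 3) (N ^ (min (c / 4) c3)) (⟨l, n⟩ : ZI)) := by
        intro n hn
        rw [mem_filter, mem_Icc] at hn ⊢
        refine ⟨⟨hn.1.1, hn.1.2.trans (Int.floor_le_floor (by linarith))⟩, Good_mono ?_ hn.2⟩
        calc N ^ (min (c / 4) c3) ≤ N ^ c3 := Real.rpow_le_rpow_of_exponent_le hN1' (min_le_right _ _)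
          _ ≤ (2 * 2 ^ j) ^ c3 := Real.rpow_le_rpow (by linarith) hNM hc3.le
      exact_mod_cast card_le_card this
    -- the sizes
    have hlN : 0 < Real.log N := Real.log_pos (by linarith)
    have hlM : Real.log (2 * 2 ^ j) ≤ 2 * Real.log N := by
      have e1 : Real.log ((2 : ℝ) * 2 ^ j) ≤ Real.log (N ^ 2) := by
        apply Real.log_le_log (by positivity)
        nlinarith
      rw [Real.log_pow] at e1
      exact_mod_cast e1
    have hlM0 : 0 < Real.log (2 * 2 ^ j) := Real.log_pos (by linarith)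
    have h4 : N / Real.log N ≤ 2 * ((2 * 2 ^ j : ℝ) / Real.log (2 * 2 ^ j)) := by
      rw [mul_div_assoc', div_le_div_iff₀ hlN hlM0]
      have h5 : 0 < N := by linarith
      nlinarith [mul_le_mul_of_nonneg_left hlM h5.le]
    have hfr := fr_nonneg l.natAbs
    have h5 : min (c / 4) c3 * fr l.natAbs * (N / Real.log N) ≤ c / 4 * fr l.natAbs * (2 * ((2 * 2 ^ j : ℝ) / Real.log (2 * 2 ^ j))) := by
      have h6 : 0 ≤ N / Real.log N := by positivity
      have h7 : min (c / 4) c3 ≤ c / 4 := min_le_left _ _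
      have h8 : 0 < min (c / 4) c3 := lt_min (by positivity) hc3
      gcongr
    have h6 : c / 4 * fr l.natAbs * (2 * ((2 * 2 ^ j : ℝ) / Real.log (2 * 2 ^ j))) =
        1 / 2 * (c * fr l.natAbs * ((2 * 2 ^ j : ℝ) / Real.log (2 * 2 ^ j))) := by ring
    linarith
  have h1 : ((S.filter (fun l => ¬ ∀ N : ℝ, K ^ (1 + ε) ≤ N → N ≤ K ^ E → min (c / 4) c3 * fr l.natAbs * (N / Real.log N) ≤
      (((Icc (1 : ℤ) ⌊N⌋).filter (fun n : ℤ => Good (k + 3) (N ^ (min (c / 4) c3)) (⟨l, n⟩ : ZI))).card : ℝ))).card : ℝ) ≤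
      ∑ j ∈ J, ((bad j).card : ℝ) := by
    have := (card_le_card hsub).trans card_biUnion_le
    exact_mod_cast this
  refine h1.trans ((sum_le_sum hbadc).trans ?_)
  rw [sum_const, nsmul_eq_mul]
  have hJc : (J.card : ℝ) ≤ ℓ ^ 2 := by
    have h2 : J.card ≤ ⌊2 * E' * ℓ⌋₊ + 1 := (card_filter_le _ _).trans (by rw [card_range])
    have h3 : (J.card : ℝ) ≤ (⌊2 * E' * ℓ⌋₊ : ℝ) + 1 := by exact_mod_cast h2
    have h4 : (⌊2 * E' * ℓ⌋₊ : ℝ) ≤ 2 * E' * ℓ := Nat.floor_le (by positivity)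
    nlinarith
  calc (J.card : ℝ) * (K / ℓ ^ (A + 2)) ≤ ℓ ^ 2 * (K / ℓ ^ (A + 2)) := mul_le_mul_of_nonneg_right hJc (by positivity)
    _ = K / ℓ ^ A := by
        rw [pow_add]
        field_simp

end Pool.Agent.J6H16.PR
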