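import Pool.Agent.J6H16.PR.Cr
import Pool.Agent.N136.QL.FLC

/-!
# Project PR (helper16): the fundamental lemma for the Gaussian integers in a class
-/

set_option autoImplicit false

namespace Pool.Agent.J6H16.PR

open Finset Filter Topology MeasureTheory
open Pool.Agent.N782.GN Pool.Agent.N855.GN
open Pool.Agent.H304R3.HK (UH bb LamK CS)
open Pool.Agent.J6H16.PF

/-- the encoding of the Gaussian integers -/
def enc (t : ZI) : ℕ := Nat.pair (Equiv.intEquivNat t.re) (Equiv.intEquivNat t.im)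

def dec (n : ℕ) : ZI := ⟨Equiv.intEquivNat.symm n.unpair.1, Equiv.intEquivNat.symm n.unpair.2⟩

theorem dec_enc (t : ZI) : dec (enc t) = t := by
  unfold dec enc
  rw [Nat.unpair_pair]
  simp

theorem enc_inj : Function.Injective enc := fun a b h => by
  rw [← dec_enc a, ← dec_enc b, h]

/-- the local density -/
noncomputable def gp (p : ℕ) : ℝ := (N2 p : ℝ) / (p : ℝ) ^ 2

theorem gp_nonneg (p : ℕ) : 0 ≤ gp p := by
  unfold gp
  positivity

theorem gp_le {p : ℕ} (hp : p.Prime) : gp p ≤ 2 / p := by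
  unfold gp
  have h1 := N2_le hp
  have h2 : (0 : ℝ) < p := by exact_mod_cast hp.pos
  rw [div_le_div_iff₀ (by positivity) h2]
  nlinarith

theorem gp_lt {p : ℕ} (hp : p.Prime) : gp p < 1 := by
  rcases Nat.lt_or_ge 2 p with h | h
  · refine lt_of_le_of_lt (gp_le hp) ?_
    have h2 : (3 : ℝ) ≤ p := by exact_mod_cast h
    rw [div_lt_one (by linarith)]
    linarith
  · have h2 : p = 2 := le_antisymm h hp.two_le
    unfold gp
    have h3 := N2_prime hp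
    have h4 := r1_le hp
    rw [h2] at h3 h4 ⊢
    have h5 : N2 2 ≤ 3 := by omega
    have h6 : (N2 2 : ℝ) ≤ 3 := by exact_mod_cast h5
    rw [div_lt_one (by norm_num)]
    norm_num
    linarith

/-- **the fundamental lemma for the Gaussian integers in a class** -/
theorem sv2 : ∃ (C0 : ℕ) (C : ℝ), 1 ≤ C0 ∧ 0 < C ∧ ∀ (b J z0 Q : ℕ) (P : Finset ℕ) (s : ZI) (Y : ℝ),
    C0 ≤ b → C0 ≤ z0 → 1 ≤ Q → (∀ p ∈ P, p.Prime ∧ z0 < p ∧ p ≤ 2 ^ 2 ^ J ∧ ¬ p ∣ Q) → 1 ≤ Y →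
    |(((cls Q s Y).filter (fun t => ∀ p ∈ P, ¬ p ∣ nn t)).card : ℝ) -
      Real.pi / (Q : ℝ) ^ 2 * Y * ∏ p ∈ P, (1 - gp p)| ≤
      (1 / 2 : ℝ) ^ b * (Real.pi / (Q : ℝ) ^ 2 * Y * ∏ p ∈ P, (1 - gp p)) +
        ((J : ℝ) + 2) * ((((2 ^ 2 ^ J : ℕ) : ℝ) ^ (C0 * b)) ^ 3 * (C * Real.sqrt Y)) := by
  classical
  obtain ⟨C0, hC0, hfl⟩ := Pool.Agent.H20R2.fLem 2
  obtain ⟨C, hC, hcd⟩ := cls_div
  refine ⟨C0, C, hC0, hC, ?_⟩
  intro b J z0 Q P s Y hb hz0 hQ hP hY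
  have hQ0 : (0 : ℝ) < Q := by exact_mod_cast hQ
  set Ω : Finset ℕ := (cls Q s Y).map ⟨enc, enc_inj⟩ with hΩ
  set hit : ℕ → ℕ → Prop := fun p n => p ∣ nn (dec n) with hhit
  have hcard : ∀ (φ : ZI → Prop) (ψ : ℕ → Prop) (i1 : DecidablePred φ) (i2 : DecidablePred ψ),
      (∀ t, ψ (enc t) ↔ φ t) → ∑ m ∈ @filter ℕ ψ i2 Ω, (1 : ℝ) = ((@filter ZI φ i1 (cls Q s Y)).card : ℝ) := by
    intro φ ψ i1 i2 h
    rw [sum_const, nsmul_eq_mul, mul_one]
    congr 1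
    rw [hΩ, filter_map, card_map]
    congr 1
    ext t
    rw [mem_filter, mem_filter]
    refine and_congr_right fun _ => ?_
    exact h t
  set A : ℝ := Real.pi / (Q : ℝ) ^ 2 * Y with hA
  have hA0 : 0 ≤ A := by positivity
  set err : Finset ℕ → ℝ := fun T => ((∏ p ∈ T, (p : ℝ)) ^ 2) * (C * Real.sqrt Y) with herr
  have hmain : ∀ T ⊆ P, ∏ p ∈ T, p ≤ (2 ^ 2 ^ J) ^ (C0 * b) → ∀ i2 : DecidablePred (fun m => ∀ p ∈ T, hit p m),
      |∑ m ∈ @filter ℕ (fun m => ∀ p ∈ T, hit p m) i2 Ω, (1 : ℝ) - A * ∏ p ∈ T, gp p| ≤ err T := by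
    intro T hT _ i2
    have hTp : ∀ p ∈ T, p.Prime := fun p hp => (hP p (hT hp)).1
    set D := ∏ p ∈ T, p with hD
    have hD1 : 1 ≤ D := Nat.one_le_iff_ne_zero.2 (prod_ne_zero_iff.2 fun p hp => (hTp p hp).ne_zero)
    have hD0 : (0 : ℝ) < D := by exact_mod_cast hD1
    have hQD : Nat.Coprime Q D := by
      rw [hD]
      refine Nat.Coprime.prod_right fun p hp => ?_
      rw [Nat.coprime_comm, (hTp p hp).coprime_iff_not_dvd]
      exact (hP p (hT hp)).2.2.2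
    rw [hcard (fun t => ∀ p ∈ T, p ∣ nn t) (fun m => ∀ p ∈ T, hit p m) inferInstance i2 (fun t => by
      simp only [hhit, dec_enc])]
    have e1 : (cls Q s Y).filter (fun t => ∀ p ∈ T, p ∣ nn t) = (cls Q s Y).filter (fun t => D ∣ nn t) := by
      ext t
      rw [mem_filter, mem_filter]
      refine and_congr_right fun _ => ?_
      constructor
      · intro h
        rw [hD]
        exact Finset.prod_primes_dvd _ (fun p hp => (hTp p hp).prime) h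
      · intro h p hp
        exact (dvd_prod_of_mem _ hp).trans h
    rw [e1]
    have h1 := hcd Q D s Y hQ hD1 hQD hY
    have e2 : A * ∏ p ∈ T, gp p = N2 D * (Real.pi / ((Q : ℝ) * D) ^ 2 * Y) := by
      have e3 : ∏ p ∈ T, gp p = (N2 D : ℝ) / (D : ℝ) ^ 2 := by
        unfold gp
        rw [prod_div_distrib, prod_pow, hD, N2_prod T hTp]
        push_cast
        rfl
      rw [e3, hA]
      field_simp
    rw [e2]
    refine h1.trans ?_
    rw [herr]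
    simp only
    apply mul_le_mul_of_nonneg_right _ (by positivity)
    have e4 : ∏ p ∈ T, (p : ℝ) = (D : ℝ) := by rw [hD]; push_cast; rfl
    rw [e4]
    exact_mod_cast N2_le_sq hD1
  have h2 := hfl b J z0 P gp hb hz0 (fun p hp => ⟨(hP p hp).1, (hP p hp).2.1, (hP p hp).2.2.1⟩) (fun p hp => by
    refine ⟨gp_nonneg p, (gp_le (hP p hp).1).trans ?_⟩
    have h3 : (2 : ℝ) ≤ p := by exact_mod_cast (hP p hp).1.two_le
    push_cast
    apply div_le_div_of_nonneg_left (by norm_num) (by linarith) (by linarith)) Ω (fun _ => 1) hit A err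
    (fun _ _ => zero_le_one) hA0 (fun T hT hp => hmain T hT hp _)
  rw [hcard (fun t => ∀ p ∈ P, ¬ p ∣ nn t) (fun m => ∀ p ∈ P, ¬ hit p m) inferInstance _ (fun t => by
      simp only [hhit, dec_enc])] at h2
  refine h2.trans ?_
  apply add_le_add le_rfl
  apply mul_le_mul_of_nonneg_left _ (by positivity)
  have h4 : ∀ T ∈ P.powerset.filter (fun T : Finset ℕ => ∏ p ∈ T, p ≤ (2 ^ 2 ^ J) ^ (C0 * b)),
      err T ≤ ((((2 ^ 2 ^ J : ℕ) : ℝ) ^ (C0 * b)) ^ 2) * (C * Real.sqrt Y) := by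
    intro T hT
    rw [mem_filter] at hT
    rw [herr]
    simp only
    apply mul_le_mul_of_nonneg_right _ (by positivity)
    apply pow_le_pow_left₀ (prod_nonneg fun p _ => Nat.cast_nonneg p)
    have := hT.2
    have h5 : ((∏ p ∈ T, p : ℕ) : ℝ) ≤ (((2 ^ 2 ^ J) ^ (C0 * b) : ℕ) : ℝ) := by exact_mod_cast this
    push_cast at h5 ⊢
    exact h5
  refine (sum_le_sum h4).trans ?_
  rw [sum_const, nsmul_eq_mul]
  have h6 := Pool.Agent.TH882.FL.card_le P (fun p hp => (hP p hp).1) ((2 ^ 2 ^ J) ^ (C0 * b))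
  have h7 : (((P.powerset.filter (fun T : Finset ℕ => ∏ p ∈ T, p ≤ (2 ^ 2 ^ J) ^ (C0 * b))).card : ℕ) : ℝ) ≤
      ((2 ^ 2 ^ J : ℕ) : ℝ) ^ (C0 * b) := by
    exact_mod_cast h6
  calc (((P.powerset.filter (fun T : Finset ℕ => ∏ p ∈ T, p ≤ (2 ^ 2 ^ J) ^ (C0 * b))).card : ℕ) : ℝ) *
      ((((2 ^ 2 ^ J : ℕ) : ℝ) ^ (C0 * b)) ^ 2 * (C * Real.sqrt Y)) ≤ ((2 ^ 2 ^ J : ℕ) : ℝ) ^ (C0 * b) *
      ((((2 ^ 2 ^ J : ℕ) : ℝ) ^ (C0 * b)) ^ 2 * (C * Real.sqrt Y)) := mul_le_mul_of_nonneg_right h7 (by positivity)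
    _ = _ := by ring

end Pool.Agent.J6H16.PR
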