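import Pool.Agent.J6H16.PR.Lw
import Pool.Agent.J6H16.PF.Dn

/-!
# Project PR (helper16): the weights of the cofactors
-/

set_option autoImplicit false

namespace Pool.Agent.J6H16.PR

open Finset Filter Topology MeasureTheory
open Pool.Agent.N782.GN Pool.Agent.N855.GN
open Pool.Agent.H304R3.HK (UH bb LamK CS)
open Pool.Agent.J6H16.PF

/-- products of `k + 1` primes from given intervals -/
noncomputable def gm (M x h y1 y2 : ℝ) : ℕ → ZI → ℝ
  | 0 => f2 M y1 y2
  | k + 1 => cv (f2 M (x + k * h) (x + (k + 1) * h)) (gm M x h y1 y2 k)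

theorem gm_nonneg (M x h y1 y2 : ℝ) (k : ℕ) (v : ZI) : 0 ≤ gm M x h y1 y2 k v := by
  induction k generalizing v with
  | zero => exact f2_nonneg _ _ _ _
  | succ k ih => exact cf_nonneg (f2_nonneg _ _ _) ih _ _ _

theorem gm_supp {M x h y1 y2 X : ℝ} (hM : 1 ≤ M) (hh : 0 ≤ h) {k : ℕ} (hk : x + k * h ≤ X) {v : ZI}
    (hv : gm M x h y1 y2 k v ≠ 0) : v ≠ 0 ∧ M ^ y1 < nz v ∧ nz v ≤ M ^ (y2 + k * X) := by
  induction k generalizing v with
  | zero =>
    have h1 := f2_ne (show f2 M y1 y2 v ≠ 0 from hv)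
    refine ⟨np_ne h1.1, h1.2.1, ?_⟩
    simpa using h1.2.2
  | succ k ih =>
    obtain ⟨a, b, hab, ha, hb, ha0, hb0⟩ := cv_ne (show cv (f2 M (x + k * h) (x + (k + 1) * h)) (gm M x h y1 y2 k) v ≠ 0 from hv)
    push_cast at hk
    have hkh : x + k * h ≤ X := by nlinarith
    obtain ⟨-, h2, h3⟩ := ih hkh hb
    have h4 := f2_ne ha
    have hna := nz_one_le ha0
    have hnb := nz_pos hb0
    have hM0 : 0 < M := by linarith
    refine ⟨?_, ?_, ?_⟩
    · rw [← hab]
      exact mul_ne_zero ha0 hb0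
    · rw [← hab, Pool.Agent.N855.GN.nz_mul]
      nlinarith
    · rw [← hab, Pool.Agent.N855.GN.nz_mul]
      calc nz a * nz b ≤ M ^ (x + (k + 1) * h) * M ^ (y2 + k * X) :=
            mul_le_mul h4.2.2 h3 hnb.le (by positivity)
        _ = M ^ ((x + (k + 1) * h) + (y2 + k * X)) := (Real.rpow_add hM0 _ _).symm
        _ ≤ M ^ (y2 + ((k + 1 : ℕ) : ℝ) * X) := by
            apply Real.rpow_le_rpow_of_exponent_le hM
            push_cast
            linarith

theorem gm_pr {M x h y1 y2 : ℝ} (hM : 1 ≤ M) (hh : 0 ≤ h) {k : ℕ} (hk : x + k * h ≤ y1) {v : ZI}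
    (hv : gm M x h y1 y2 k v ≠ 0) : Squarefree (nn v) ∧ (nn v).primeFactors.card = k + 1 ∧
      ∀ p : ℕ, p.Prime → p ∣ nn v → (M ^ x < p ∧ (p : ℝ) ≤ M ^ (x + k * h)) ∨ M ^ y1 < p := by
  induction k generalizing v with
  | zero =>
    have h1 := f2_ne (show f2 M y1 y2 v ≠ 0 from hv)
    have hp : (nn v).Prime := h1.1
    refine ⟨(Nat.Prime.prime hp).irreducible.squarefree, ?_, ?_⟩
    · rw [Nat.Prime.primeFactors hp, card_singleton]
    · intro p hp' hd
      right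
      rw [(Nat.prime_dvd_prime_iff_eq hp' hp).1 hd, ← nz_nn]
      exact h1.2.1
  | succ k ih =>
    obtain ⟨a, b, hab, ha, hb, ha0, hb0⟩ := cv_ne (show cv (f2 M (x + k * h) (x + (k + 1) * h)) (gm M x h y1 y2 k) v ≠ 0 from hv)
    push_cast at hk
    have hkh : x + k * h ≤ y1 := by nlinarith
    obtain ⟨h1, h2, h3⟩ := ih hkh hb
    have h4 := f2_ne ha
    have hpa : (nn a).Prime := h4.1
    have e1 : M ^ (x + k * h) ≤ M ^ (x + (k + 1) * h) := Real.rpow_le_rpow_of_exponent_le hM (by linarith)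
    have e2 : M ^ (x + (k + 1) * h) ≤ M ^ y1 := Real.rpow_le_rpow_of_exponent_le hM hk
    have e3 : M ^ x ≤ M ^ (x + k * h) := Real.rpow_le_rpow_of_exponent_le hM (by
      have : 0 ≤ k * h := by positivity
      linarith)
    have hnd : ¬ nn a ∣ nn b := by
      intro hd
      have h5 := h3 _ hpa hd
      rw [← nz_nn] at h5
      rcases h5 with h5 | h5
      · linarith [h4.2.1, h5.2]
      · linarith [h4.2.2]
    refine ⟨?_, ?_, ?_⟩
    · rw [← hab]
      exact sqf_mul h4.1 h1 hnd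
    · rw [← hab, nn_mul, Nat.Coprime.primeFactors_mul, card_union_of_disjoint, Nat.Prime.primeFactors hpa,
        card_singleton, h2]
      · ring
      · exact Nat.Coprime.disjoint_primeFactors ((Nat.Prime.coprime_iff_not_dvd hpa).2 hnd)
      · exact (Nat.Prime.coprime_iff_not_dvd hpa).2 hnd
    · intro p hp hd
      rw [← hab, nn_mul] at hd
      push_cast
      rcases (Nat.Prime.dvd_mul hp).1 hd with h5 | h5
      · left
        rw [(Nat.prime_dvd_prime_iff_eq hp hpa).1 h5, ← nz_nn]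
        exact ⟨lt_of_le_of_lt e3 h4.2.1, h4.2.2⟩
      · rcases h3 p hp h5 with h6 | h6
        · exact Or.inl ⟨h6.1, h6.2.trans e1⟩
        · exact Or.inr h6

theorem f2_div {M c c' : ℝ} (hM : 1 < M) (hc : 0 < c) {z : ZI} (hz : z ≠ 0) (hz3 : nz z ≤ M ^ 3) :
    ∑ a ∈ Dv z, f2 M c c' a ≤ 12 / c := by
  have hl := Real.log_pos hM
  have h1 : ∑ a ∈ Dv z, f2 M c c' a ≤ ∑ a ∈ Dv z, 1 / (c * Real.log M) * Lp a := by
    refine sum_le_sum fun a _ => ?_
    have := f2_le (c' := c') hM hc a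
    rwa [abs_of_nonneg (f2_nonneg _ _ _ _)] at this
  refine h1.trans ?_
  rw [← mul_sum]
  have h2 := div_Lp hz
  have h3 : Real.log (nz z) ≤ 3 * Real.log M := by
    have := Real.log_le_log (nz_pos hz) hz3
    rw [Real.log_pow] at this
    exact_mod_cast this
  calc 1 / (c * Real.log M) * ∑ a ∈ Dv z, Lp a ≤ 1 / (c * Real.log M) * (4 * (3 * Real.log M)) := by
        apply mul_le_mul_of_nonneg_left _ (by positivity)
        linarith
    _ = 12 / c := by field_simp; norm_num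

theorem gm_div {M x h y1 y2 : ℝ} (hM : 1 < M) (hx : 0 < x) (hh : 0 ≤ h) (hxy : x ≤ y1) (k : ℕ) {z : ZI} (hz : z ≠ 0)
    (hz3 : nz z ≤ M ^ 3) : ∑ v ∈ Dv z, gm M x h y1 y2 k v ≤ (12 / x) ^ (k + 1) := by
  induction k with
  | zero =>
    rw [zero_add, pow_one]
    refine (f2_div hM (by linarith) hz hz3).trans ?_
    exact div_le_div_of_nonneg_left (by norm_num) hx hxy
  | succ k ih =>
    refine (cv_div (f2_nonneg _ _ _) (gm_nonneg _ _ _ _ _ k) hz).trans ?_
    rw [pow_succ, mul_comm]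
    have hkh : 0 ≤ k * h := by positivity
    apply mul_le_mul ih _ (sum_nonneg fun a _ => f2_nonneg _ _ _ _) (by positivity)
    refine (f2_div hM (by linarith) hz hz3).trans ?_
    exact div_le_div_of_nonneg_left (by norm_num) hx (by linarith)

/-- the conditions for the lower bound -/
theorem gm_Gam {M x h y1 y2 c4 : ℝ} (hM : 1 < M) (hx : 0 < x) (hh : 0 ≤ h) {k : ℕ} (hk : x + k * h ≤ y1) (h4 : c4 ≤ x) :
    Gam c4 M ((12 / x) ^ (k + 1)) (gm M x h y1 y2 k) := by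
  have hkh : 0 ≤ k * h := by positivity
  refine ⟨gm_nonneg _ _ _ _ _ k, fun v hv => (gm_pr hM.le hh hk hv).1, fun v hv p hp hd => ?_, fun z hz hz3 =>
    gm_div hM hx hh (by linarith) k hz hz3⟩
  have e1 : M ^ c4 ≤ M ^ x := Real.rpow_le_rpow_of_exponent_le hM.le h4
  have e2 : M ^ x ≤ M ^ y1 := Real.rpow_le_rpow_of_exponent_le hM.le (by linarith)
  rcases (gm_pr hM.le hh hk hv).2.2 p hp hd with h1 | h1
  · linarith [h1.1]
  · linarith

/-- the bound for the values -/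
theorem gm_le {M x h y1 y2 X : ℝ} (hM : 1 < M) (hx : 0 < x) (hh : 0 ≤ h) (hxy : x ≤ y1) {k : ℕ} (hk : x + k * h ≤ X)
    (hy : y2 + k * X ≤ 3) (v : ZI) : |gm M x h y1 y2 k v| ≤ (12 / x) ^ (k + 1) := by
  rw [abs_of_nonneg (gm_nonneg _ _ _ _ _ k v)]
  by_cases hv : gm M x h y1 y2 k v = 0
  · rw [hv]; positivity
  · obtain ⟨h1, h2, h3⟩ := gm_supp hM.le hh hk hv
    have h4 : nz v ≤ M ^ 3 := by
      refine h3.trans ?_
      calc M ^ (y2 + k * X) ≤ M ^ (3 : ℝ) := Real.rpow_le_rpow_of_exponent_le hM.le hy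
        _ = M ^ 3 := by norm_num
    refine le_trans ?_ (gm_div (y2 := y2) hM hx hh hxy k h1 h4)
    exact single_le_sum (f := gm M x h y1 y2 k) (fun v _ => gm_nonneg _ _ _ _ _ k v) ((mem_Dv h1).2 dvd_rfl)

theorem s2_win {x y : ℝ} (hx : 0 < x) (hxy : x < y) (hy : y ≤ 1) :
    ∀ᶠ M : ℝ in atTop, (y - x) / 24000 ≤ s2 M x y := by
  have hx2 : 0 < min x (1 / 2) := lt_min hx (by norm_num)
  filter_upwards [Lp_win hx2 (min_le_right _ _) 1, ev_log (2 / (y - x)), eventually_ge_atTop (3 : ℝ)] with M hw hlog hM3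
  have hM0 : 0 < M := by linarith
  have hM1 : 1 ≤ M := by linarith
  have hℓ0 : 0 < Real.log M := Real.log_pos (by linarith)
  have h43 : 0 < y - x := by linarith
  have h1 := (hw (M ^ x) (M ^ y) (Real.rpow_le_rpow_of_exponent_le hM1 (min_le_left _ _))
    (Real.rpow_le_rpow_of_exponent_le hM1 hxy.le) (by
    rw [pow_one]
    calc M ^ y ≤ M ^ (1 : ℝ) := Real.rpow_le_rpow_of_exponent_le hM1 (by linarith)
      _ = M := Real.rpow_one M)).2
  have h2 : Real.log (M ^ y / M ^ x) = (y - x) * Real.log M := by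
    rw [Real.log_div (by positivity) (by positivity), Real.log_rpow hM0, Real.log_rpow hM0]
    ring
  rw [h2] at h1
  have h3 : (∑ t ∈ bg (M ^ x) (M ^ y), Lp t / nz t) ≤ s2 M x y * Real.log M := by
    unfold s2
    rw [sum_mul]
    refine sum_le_sum fun a ha => ?_
    rw [mem_bg] at ha
    have hna := nz_pos ha.1
    have h4 : Lp a ≤ f2 M x y a * Real.log M := by
      unfold PF.Lp f2
      by_cases hp : np a
      · rw [if_pos hp, if_pos ⟨ha.2.2, ha.2.1, hp⟩, one_mul]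
        apply Real.log_le_log hna
        refine ha.2.1.trans ?_
        calc M ^ y ≤ M ^ (1 : ℝ) := Real.rpow_le_rpow_of_exponent_le hM1 (by linarith)
          _ = M := Real.rpow_one M
      · rw [if_neg hp, if_neg fun h => hp h.2.2]
        simp
    calc Lp a / nz a ≤ f2 M x y a * Real.log M / nz a := div_le_div_of_nonneg_right h4 hna.le
      _ = _ := by ring
  have h4 : 1 / 12000 * ((y - x) * Real.log M - 1) ≤ s2 M x y * Real.log M := h1.trans h3
  rw [div_le_iff₀ h43] at hlog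
  by_contra hcon
  push Not at hcon
  nlinarith

theorem cf_le_cv {f g : ZI → ℝ} (hf : ∀ a, 0 ≤ f a) (hg : ∀ a, 0 ≤ g a) {SA SM : Finset ZI} (hA : ∀ a ∈ SA, a ≠ 0)
    (hS : ∀ a ∈ SM, a ≠ 0) (t : ZI) : cf f g SA SM t ≤ cv f g t := by
  classical
  unfold cv cf
  apply sum_le_sum_of_subset_of_nonneg
  · intro p hp
    rw [mem_filter, mem_product] at hp
    rw [mem_filter, mem_product, mem_bl, mem_bl]
    have h1 := hA _ hp.1.1
    have h2 := hS _ hp.1.2
    have h3 : nz t = nz p.1 * nz p.2 := by rw [← hp.2, Pool.Agent.N855.GN.nz_mul]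
    have h4 := nz_one_le h1
    have h5 := nz_one_le h2
    refine ⟨⟨⟨h1, ?_⟩, h2, ?_⟩, hp.2⟩
    · rw [h3]; nlinarith
    · rw [h3]; nlinarith
  · intro p _ _
    exact mul_nonneg (hf _) (hg _)

theorem gm_mass {x h y1 y2 X : ℝ} (hx : 0 < x) (hh : 0 < h) (hy : y1 < y2) (hy2 : y2 ≤ 1) (hxy : X ≤ y1) (K : ℕ)
    (hK : x + K * h ≤ X) : ∃ c : ℝ, 0 < c ∧ ∀ᶠ M : ℝ in atTop, ∀ D0 D1 : ℝ, D0 ≤ M ^ y1 → M ^ (y2 + K * X) ≤ D1 →
      c ≤ ∑ v ∈ bg D0 D1, gm M x h y1 y2 K v / nz v := by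
  have hKh : 0 ≤ K * h := by positivity
  have hy1 : 0 < y1 := by linarith
  have hrestr : ∀ k : ℕ, ∀ M D0 D1 : ℝ, 1 ≤ M → x + k * h ≤ X → D0 ≤ M ^ y1 → M ^ (y2 + k * X) ≤ D1 →
      ∑ v ∈ bg (M ^ y1) (M ^ (y2 + k * X)), gm M x h y1 y2 k v / nz v ≤ ∑ v ∈ bg D0 D1, gm M x h y1 y2 k v / nz v := by
    intro k M D0 D1 hM hkX h1 h2
    apply sum_le_sum_of_subset_of_nonneg
    · intro v hv
      rw [mem_bg] at hv ⊢
      exact ⟨hv.1, hv.2.1.trans h2, lt_of_le_of_lt h1 hv.2.2⟩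
    · intro v _ _
      exact div_nonneg (gm_nonneg _ _ _ _ _ _ _) (nz_nonneg _)
  suffices hs : ∃ c : ℝ, 0 < c ∧ ∀ᶠ M : ℝ in atTop,
      c ≤ ∑ v ∈ bg (M ^ y1) (M ^ (y2 + K * X)), gm M x h y1 y2 K v / nz v by
    obtain ⟨c, hc, hs⟩ := hs
    refine ⟨c, hc, ?_⟩
    filter_upwards [hs, eventually_ge_atTop (1 : ℝ)] with M h1 hM D0 D1 h2 h3
    exact h1.trans (hrestr K M D0 D1 hM hK h2 h3)
  induction K with
  | zero =>
    refine ⟨(y2 - y1) / 24000, by linarith, ?_⟩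
    filter_upwards [s2_win hy1 hy hy2] with M h1
    refine h1.trans (le_of_eq ?_)
    unfold s2 gm
    simp
  | succ K ih =>
    push_cast at hK
    have hkX : x + K * h ≤ X := by linarith
    obtain ⟨c, hc, hs⟩ := ih hkX (by positivity)
    have hx1 : 0 < x + K * h := by positivity
    refine ⟨h / 24000 * c, by positivity, ?_⟩
    filter_upwards [hs, s2_win hx1 (show x + K * h < x + (K + 1) * h by linarith) (by linarith), eventually_ge_atTop (1 : ℝ)]
      with M h1 h2 hM1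
    have hM0 : 0 < M := by linarith
    have e1 : (x + (K + 1) * h - (x + K * h)) / 24000 = h / 24000 := by ring
    rw [e1] at h2
    set SA := bg (M ^ (x + K * h)) (M ^ (x + (K + 1) * h)) with hSA
    set SM := bg (M ^ y1) (M ^ (y2 + K * X)) with hSM
    set T := bg (M ^ y1) (M ^ (y2 + ((K + 1 : ℕ) : ℝ) * X)) with hT
    have hmap : ∀ a ∈ SA, ∀ m ∈ SM, a * m ∈ T := by
      intro a ha m hm
      rw [hSA, mem_bg] at ha
      rw [hSM, mem_bg] at hm
      rw [hT, mem_bg, Pool.Agent.N855.GN.nz_mul]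
      have h3 := nz_one_le ha.1
      have h4 := nz_pos hm.1
      refine ⟨mul_ne_zero ha.1 hm.1, ?_, by nlinarith⟩
      calc nz a * nz m ≤ M ^ (x + (K + 1) * h) * M ^ (y2 + K * X) := mul_le_mul ha.2.1 hm.2.1 h4.le (by positivity)
        _ = M ^ ((x + (K + 1) * h) + (y2 + K * X)) := (Real.rpow_add hM0 _ _).symm
        _ ≤ _ := by
            apply Real.rpow_le_rpow_of_exponent_le hM1
            push_cast
            linarith
    have h3 := grp (f2 M (x + K * h) (x + (K + 1) * h)) (gm M x h y1 y2 K) (fun t => 1 / nz t) SA SM T hmap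
    have h4 : ∑ a ∈ SA, ∑ m ∈ SM, f2 M (x + K * h) (x + (K + 1) * h) a * gm M x h y1 y2 K m * (1 / nz (a * m)) =
        s2 M (x + K * h) (x + (K + 1) * h) * ∑ v ∈ SM, gm M x h y1 y2 K v / nz v := by
      unfold s2
      rw [sum_mul_sum]
      refine sum_congr rfl fun a ha => sum_congr rfl fun m hm => ?_
      rw [Pool.Agent.N855.GN.nz_mul]
      have := nz_pos (mem_bg.1 ha).1
      have := nz_pos (mem_bg.1 hm).1
      field_simp
    rw [h4] at h3
    have h5 : h / 24000 * c ≤ s2 M (x + K * h) (x + (K + 1) * h) * ∑ v ∈ SM, gm M x h y1 y2 K v / nz v :=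
      mul_le_mul h2 h1 hc.le (s2_nonneg _ _ _)
    refine h5.trans ?_
    rw [h3]
    refine sum_le_sum fun t ht => ?_
    have h6 : cf (f2 M (x + K * h) (x + (K + 1) * h)) (gm M x h y1 y2 K) SA SM t ≤ gm M x h y1 y2 (K + 1) t :=
      cf_le_cv (f2_nonneg _ _ _) (gm_nonneg _ _ _ _ _ _) (fun a ha => (mem_bg.1 ha).1) (fun a ha => (mem_bg.1 ha).1) t
    have h7 := nz_nonneg t
    calc cf (f2 M (x + K * h) (x + (K + 1) * h)) (gm M x h y1 y2 K) SA SM t * (1 / nz t) ≤
          gm M x h y1 y2 (K + 1) t * (1 / nz t) := mul_le_mul_of_nonneg_right h6 (by positivity)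
      _ = _ := by ring

end Pool.Agent.J6H16.PR
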