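import Pool.Agent.J6H16.PR.Lc
import Pool.Agent.J6H16.PR.Ce
import Pool.Agent.J6H16.PF.Mq

/-!
# Project PR (helper16): the lower bound for the model
-/

set_option autoImplicit false

namespace Pool.Agent.J6H16.PR

open Finset Filter Topology MeasureTheory
open Pool.Agent.N782.GN Pool.Agent.N855.GN
open Pool.Agent.H304R3.HK (UH bb LamK CS)
open Pool.Agent.J6H16.PF

/-- a lower bound for a convolution -/
theorem cv_lo {f g : ZI → ℝ} (hf : ∀ a, 0 ≤ f a) (hg : ∀ a, 0 ≤ g a) {w : ZI} (hw : w ≠ 0) (A : Finset ZI)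
    (hA : ∀ a ∈ A, ∃ m, a * m = w ∧ 1 ≤ g m) : ∑ a ∈ A, f a ≤ cv f g w := by
  classical
  choose! m hm1 hm2 using hA
  have h1 : ∑ a ∈ A, f a ≤ ∑ a ∈ A, f a * g (m a) := by
    refine sum_le_sum fun a ha => ?_
    exact le_mul_of_one_le_right (hf a) (hm2 a ha)
  refine h1.trans ?_
  unfold cv cf
  have hinj : Set.InjOn (fun a : ZI => (a, m a)) (A : Set ZI) := by
    intro a _ b _ h
    exact congrArg Prod.fst h
  rw [← sum_image (f := fun p : ZI × ZI => f p.1 * g p.2) hinj]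
  apply sum_le_sum_of_subset_of_nonneg
  · intro p hp
    rw [mem_image] at hp
    obtain ⟨a, ha, rfl⟩ := hp
    rw [mem_filter, mem_product, mem_bl, mem_bl]
    have h2 := hm1 a ha
    have ha0 : a ≠ 0 := by rintro rfl; rw [zero_mul] at h2; exact hw h2.symm
    have hm0 : m a ≠ 0 := by intro h0; rw [h0, mul_zero] at h2; exact hw h2.symm
    have h3 : nz w = nz a * nz (m a) := by rw [← h2, Pool.Agent.N855.GN.nz_mul]
    have h4 := nz_one_le ha0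
    have h5 := nz_one_le hm0
    refine ⟨⟨⟨ha0, ?_⟩, hm0, ?_⟩, h2⟩
    · rw [h3]; nlinarith
    · rw [h3]; nlinarith
  · intro p _ _
    exact mul_nonneg (hf _) (hg _)

/-- the coefficients with the primes -/
noncomputable def uA (M c3 c4 R : ℝ) (w : ZI) : ℝ :=
  if (R ^ 2 < nz w ∧ nz w ≤ 4 * R ^ 2) ∧ ct w = 1 then cv (f1 M c3 c4) (f1 M c4 3) w else 0

/-- the coefficients with the rough numbers -/
noncomputable def uR (M c3 c4 R : ℝ) (w : ZI) : ℝ :=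
  if (R ^ 2 < nz w ∧ nz w ≤ 4 * R ^ 2) ∧ ct w = 1 then cv (f1 M c3 c4) (rg (zf M)) w else 0

theorem cv_lin (f g h : ZI → ℝ) (s : ℝ) (w : ZI) : cv f (fun m => g m - s * h m) w = cv f g w - s * cv f h w := by
  unfold cv cf
  rw [mul_sum, ← sum_sub_distrib]
  refine sum_congr rfl fun p _ => by ring

theorem bP_eq (z0 : ℕ) (c3 c4 M R : ℝ) :
    bP z0 c3 c4 M R = fun w => uA M c3 c4 R w - Sf z0 c4 M * uR M c3 c4 R w := by
  funext w
  have h1 : gP z0 c4 M = fun m => f1 M c4 3 m - Sf z0 c4 M * rg (zf M) m := by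
    funext m
    rfl
  unfold bP uA uR
  rw [h1, cv_lin]
  split_ifs <;> ring

theorem ct_dvd {m w : ZI} (h : m ∣ w) (hw : ct w = 1) : ct m = 1 := by
  have h1 : ((ct m : ℕ) : ZI) ∣ m := (Pool.Agent.N864.GN.MB.dvd_ct (ct m) m).2 dvd_rfl
  have h2 := (Pool.Agent.N864.GN.MB.dvd_ct (ct m) w).1 (h1.trans h)
  rw [hw] at h2
  exact Nat.dvd_one.1 h2

theorem rough_of_dvd {z : ℕ} {m w : ZI} (h : m ∣ w) (hw : rough z w) : rough z m := by
  obtain ⟨k, rfl⟩ := h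
  exact (rough_dvd hw).1

/-- the numbers with a common factor with `l` -/
noncomputable def Eb (z l : ℕ) (Y : ℝ) : Finset ℤ := (Icc 1 ⌊Y⌋).filter (fun n => ∃ p ∈ l.primeFactors, z < p ∧ (p : ℤ) ∣ n)

theorem Eb_card {z l : ℕ} (hz : 1 ≤ z) (hl : 1 ≤ l) {Y M : ℝ} (hY : 0 ≤ Y) (hlM : (l : ℝ) ≤ M) :
    ((Eb z l Y).card : ℝ) ≤ 2 * Real.log M * Y / z := by
  classical
  have hsub : Eb z l Y ⊆ (l.primeFactors.filter (fun p => z < p)).biUnion (fun p => (Icc 1 ⌊Y⌋).filter (fun n => (p : ℤ) ∣ n)) := by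
    intro n hn
    unfold Eb at hn
    rw [mem_filter] at hn
    obtain ⟨hn1, p, hp, hpz, hpn⟩ := hn
    rw [mem_biUnion]
    exact ⟨p, mem_filter.2 ⟨hp, hpz⟩, mem_filter.2 ⟨hn1, hpn⟩⟩
  have h1 : ((Eb z l Y).card : ℝ) ≤ ∑ p ∈ l.primeFactors.filter (fun p => z < p), Y / z := by
    have h2 : ((Eb z l Y).card : ℝ) ≤ ∑ p ∈ l.primeFactors.filter (fun p => z < p),
        (((Icc 1 ⌊Y⌋).filter (fun n => (p : ℤ) ∣ n)).card : ℝ) := by
      exact_mod_cast (card_le_card hsub).trans card_biUnion_le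
    refine h2.trans (sum_le_sum fun p hp => ?_)
    rw [mem_filter] at hp
    have hp0 : 0 < p := (Nat.prime_of_mem_primeFactors hp.1).pos
    have h3 : (Icc 1 ⌊Y⌋).filter (fun n => (p : ℤ) ∣ n) = (Ioc 0 ⌊Y⌋).filter (fun n => (p : ℤ) ∣ n) := by
      ext n
      rw [mem_filter, mem_filter, mem_Icc, mem_Ioc]
      constructor
      · rintro ⟨⟨h4, h5⟩, h6⟩; exact ⟨⟨by omega, h5⟩, h6⟩
      · rintro ⟨⟨h4, h5⟩, h6⟩; exact ⟨⟨by omega, h5⟩, h6⟩
    rw [h3]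
    have h4 := Int.Ioc_filter_dvd_card 0 ⌊Y⌋ (r := (p : ℤ)) (by exact_mod_cast hp0)
    have h5 : ((((Ioc 0 ⌊Y⌋).filter (fun n => (p : ℤ) ∣ n)).card : ℤ) : ℝ) ≤ Y / p := by
      rw [h4]
      have hq : (0 : ℚ) < ((p : ℤ) : ℚ) := by exact_mod_cast hp0
      have h6 : (0 : ℤ) ≤ ⌊((⌊Y⌋ : ℤ) : ℚ) / ((p : ℤ) : ℚ)⌋ - ⌊((0 : ℤ) : ℚ) / ((p : ℤ) : ℚ)⌋ := by
        have h7 : (0 : ℚ) ≤ ((⌊Y⌋ : ℤ) : ℚ) / ((p : ℤ) : ℚ) := by
          apply div_nonneg _ hq.le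
          exact_mod_cast Int.floor_nonneg.2 hY
        have := Int.floor_nonneg.2 h7
        simpa using this
      rw [max_eq_left h6]
      have h8 : (⌊((0 : ℤ) : ℚ) / ((p : ℤ) : ℚ)⌋ : ℤ) = 0 := by simp
      rw [h8, sub_zero]
      have h9 : ((⌊((⌊Y⌋ : ℤ) : ℚ) / ((p : ℤ) : ℚ)⌋ : ℤ) : ℚ) ≤ ((⌊Y⌋ : ℤ) : ℚ) / ((p : ℤ) : ℚ) := Int.floor_le _
      have h10 : (((⌊((⌊Y⌋ : ℤ) : ℚ) / ((p : ℤ) : ℚ)⌋ : ℤ)) : ℝ) ≤ ((⌊Y⌋ : ℤ) : ℝ) / ((p : ℤ) : ℝ) := by exact_mod_cast h9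
      refine h10.trans ?_
      push_cast
      gcongr
      exact Int.floor_le _
    refine le_trans (le_of_eq ?_) (h5.trans ?_)
    · push_cast
      rfl
    · have hpz : (z : ℝ) ≤ p := by exact_mod_cast hp.2.le
      have hz0 : (0 : ℝ) < z := by exact_mod_cast hz
      gcongr
  refine h1.trans ?_
  rw [sum_const, nsmul_eq_mul]
  have h2 : (2 : ℕ) ^ l.primeFactors.card ≤ l := by
    calc 2 ^ l.primeFactors.card = ∏ p ∈ l.primeFactors, 2 := by rw [prod_const]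
      _ ≤ ∏ p ∈ l.primeFactors, p := prod_le_prod' fun p hp => (Nat.prime_of_mem_primeFactors hp).two_le
      _ ≤ l := Nat.le_of_dvd hl (Nat.prod_primeFactors_dvd l)
  have hM : 1 ≤ M := le_trans (by exact_mod_cast hl) hlM
  have h3 : (l.primeFactors.card : ℝ) * Real.log 2 ≤ Real.log M := by
    rw [← Real.log_pow]
    apply Real.log_le_log (by positivity)
    refine le_trans ?_ hlM
    exact_mod_cast h2
  have h4 : ((l.primeFactors.filter (fun p => z < p)).card : ℝ) ≤ l.primeFactors.card := by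
    exact_mod_cast card_filter_le _ _
  have h5 := Real.log_two_gt_d9
  have h6 : (0 : ℝ) ≤ l.primeFactors.card := Nat.cast_nonneg _
  have h7 : ((l.primeFactors.filter (fun p => z < p)).card : ℝ) ≤ 2 * Real.log M := by nlinarith
  have hz0 : (0 : ℝ) < z := by exact_mod_cast hz
  calc ((l.primeFactors.filter (fun p => z < p)).card : ℝ) * (Y / z) ≤ (2 * Real.log M) * (Y / z) :=
        mul_le_mul_of_nonneg_right h7 (by positivity)
    _ = _ := by ring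

/-- a rough number which is not primitive has an exceptional imaginary part -/
theorem mem_Eb {z l : ℕ} {n : ℤ} {Y : ℝ} (hl : 1 ≤ l) (hn : n ∈ Icc 1 ⌊Y⌋) (hr : rough z (⟨l, n⟩ : ZI)) (hct : ct (⟨l, n⟩ : ZI) ≠ 1) :
    n ∈ Eb z l Y := by
  obtain ⟨p, hp, hpd⟩ := Nat.exists_prime_and_dvd hct
  have h1 : ct (⟨l, n⟩ : ZI) = Int.gcd (l : ℤ) n := rfl
  rw [h1] at hpd
  have h2 : (p : ℤ) ∣ (l : ℤ) := (Int.natCast_dvd_natCast.2 hpd).trans (Int.gcd_dvd_left _ _)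
  have h3 : (p : ℤ) ∣ n := (Int.natCast_dvd_natCast.2 hpd).trans (Int.gcd_dvd_right _ _)
  unfold Eb
  rw [mem_filter]
  refine ⟨hn, p, ?_, ?_, h3⟩
  · rw [Nat.mem_primeFactors]
    exact ⟨hp, Int.natCast_dvd_natCast.1 h2, by omega⟩
  · by_contra hcon
    apply hr p hp (by omega)
    rw [dvd_nn_mk]
    exact dvd_add (Dvd.dvd.pow h2 (by norm_num)) (Dvd.dvd.pow h3 (by norm_num))

open Classical in
/-- the count for a fixed divisor -/
theorem cntu {δ : ℝ} (hδ : 0 < δ) : ∀ᶠ M : ℝ in atTop, ∀ (l : ℕ) (u : ZI) (X : ℝ), ct u = 1 →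
    (∀ p : ℕ, p.Prime → p ≤ zf M → ¬ p ∣ nn u) → (nn u : ℝ) ≤ M ^ (1 - δ) → M / 8 ≤ X →
    M / 128 / nz u * Vp (zf M) l ≤
      (((Icc 1 ⌊3 / 2 * X⌋).filter (fun n : ℤ => (X < n ∧ rough (zf M) (⟨l, n⟩ : ZI)) ∧ u ∣ (⟨l, n⟩ : ZI))).card : ℝ) := by
  filter_upwards [cnt (show 0 < δ / 2 by positivity), ev_rp (show 0 < δ / 2 by positivity) 64,
    eventually_ge_atTop (3 : ℝ)] with M hcnt hbig hM3
  intro l u X hct hpu hU hX
  have hM0 : 0 < M := by linarith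
  have hM1 : 1 ≤ M := by linarith
  set U : ℕ := nn u with hUd
  have hu0 : u ≠ 0 := by
    rintro rfl
    have : ct (0 : ZI) = 0 := rfl
    omega
  have hnzU : nz u = (U : ℝ) := nz_nn u
  have hU1 : (1 : ℝ) ≤ U := by rw [← hnzU]; exact nz_one_le hu0
  have hU0 : (0 : ℝ) < U := by linarith
  obtain ⟨n0, hn0⟩ := line_cls hct (l : ℤ)
  -- the first number of the class
  set n1 : ℤ := n0 + (U : ℤ) * ⌊(X - n0) / U⌋ with hn1
  have h1 : (n1 : ℝ) ≤ X := by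
    have := Int.floor_le ((X - n0) / U)
    rw [le_div_iff₀ hU0] at this
    rw [hn1]
    push_cast
    linarith
  have h2 : X < n1 + U := by
    have := Int.lt_floor_add_one ((X - n0) / U)
    rw [div_lt_iff₀ hU0] at this
    rw [hn1]
    push_cast
    linarith
  have hdv : ∀ j : ℤ, u ∣ (⟨l, n1 + (U : ℤ) * j⟩ : ZI) := by
    intro j
    have h3 : n1 + (U : ℤ) * j = n0 + (nn u : ℤ) * (⌊(X - n0) / U⌋ + j) := by rw [hn1, hUd]; ring
    rw [h3]
    exact hn0 _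
  have hX0 : 0 < X := by linarith
  set n2 : ℕ := ⌊(3 / 2 * X - n1) / U⌋₊ with hn2
  have h3 : (n2 : ℝ) ≤ (3 / 2 * X - n1) / U := Nat.floor_le (div_nonneg (by linarith) hU0.le)
  have hMU : M ^ δ ≤ M / U := by
    rw [le_div_iff₀ hU0]
    calc M ^ δ * U ≤ M ^ δ * M ^ (1 - δ) := by gcongr
      _ = M := by rw [← Real.rpow_add hM0, show δ + (1 - δ) = 1 by ring, Real.rpow_one]
  have hMd : M ^ δ = M ^ (δ / 2) * M ^ (δ / 2) := by rw [← Real.rpow_add hM0]; ring_nf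
  have hMd2 : 64 * M ^ (δ / 2) ≤ M / U := by
    refine le_trans ?_ hMU
    rw [hMd]
    gcongr
  have hone : 1 ≤ M ^ (δ / 2) := Real.one_le_rpow hM1 (by positivity)
  have h4 : M / U / 32 ≤ n2 := by
    have h5 := Nat.lt_floor_add_one ((3 / 2 * X - n1) / U)
    have h6 : M / U / 16 ≤ (3 / 2 * X - n1) / U := by
      rw [div_right_comm]
      gcongr
      linarith
    have h7 : M / U / 16 < n2 + 1 := lt_of_le_of_lt h6 h5
    linarith
  have h5 := hcnt l U n1 n2 hpu (by linarith)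
  have hV := Vp_nonneg (zf M) l
  rw [hnzU]
  have h6 : M / 128 / U * Vp (zf M) l ≤ 1 / 4 * (n2 : ℝ) * Vp (zf M) l := by
    apply mul_le_mul_of_nonneg_right _ hV
    have : M / 128 / U = 1 / 4 * (M / U / 32) := by ring
    rw [this]
    linarith
  refine h6.trans (h5.trans ?_)
  have h7 : ((Ioc 0 n2).filter (fun j : ℕ => rough (zf M) (⟨l, n1 + (U : ℤ) * (j : ℤ)⟩ : ZI))).card ≤
      ((Icc 1 ⌊3 / 2 * X⌋).filter (fun n : ℤ => (X < n ∧ rough (zf M) (⟨l, n⟩ : ZI)) ∧ u ∣ (⟨l, n⟩ : ZI))).card := by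
    refine card_le_card_of_injOn (fun j : ℕ => n1 + (U : ℤ) * (j : ℤ)) ?_ ?_
    · intro j hj
      rw [mem_coe, mem_filter, mem_Ioc] at hj
      have hj1 : (1 : ℝ) ≤ j := by exact_mod_cast hj.1.1
      have hj2 : (j : ℝ) ≤ n2 := by exact_mod_cast hj.1.2
      have h8 : X < ((n1 + (U : ℤ) * (j : ℤ) : ℤ) : ℝ) := by
        push_cast
        have : (U : ℝ) ≤ U * j := le_mul_of_one_le_right hU0.le hj1
        linarith
      have h9 : ((n1 + (U : ℤ) * (j : ℤ) : ℤ) : ℝ) ≤ 3 / 2 * X := by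
        push_cast
        have h10 := hj2.trans h3
        rw [le_div_iff₀ hU0] at h10
        linarith
      rw [mem_coe, mem_filter, mem_Icc, Int.le_floor]
      refine ⟨⟨?_, h9⟩, ⟨h8, hj.2⟩, hdv _⟩
      have h11 : (0 : ℝ) < ((n1 + (U : ℤ) * (j : ℤ) : ℤ) : ℝ) := by linarith
      have : (0 : ℤ) < n1 + (U : ℤ) * (j : ℤ) := by exact_mod_cast h11
      show 1 ≤ n1 + (U : ℤ) * (j : ℤ)
      omega
    · intro j _ j' _ h
      have h8 : (U : ℤ) * (j : ℤ) = (U : ℤ) * (j' : ℤ) := by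
        have h9 : n1 + (U : ℤ) * (j : ℤ) = n1 + (U : ℤ) * (j' : ℤ) := h
        linarith
      have h9 : (U : ℤ) ≠ 0 := by
        have : (U : ℝ) ≠ 0 := hU0.ne'
        exact_mod_cast this
      exact_mod_cast mul_left_cancel₀ h9 h8
  exact_mod_cast h7

end Pool.Agent.J6H16.PR
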