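import Pool.Agent.J6H16.PF.Hy

/-!
# Project PR (helper16): mean value theorem for numbers with a large content
-/

set_option autoImplicit false

namespace Pool.Agent.J6H16.PR

open Finset Filter Topology MeasureTheory
open Pool.Agent.N782.GN Pool.Agent.N855.GN
open Pool.Agent.H304R3.HK (UH bb LamK CS)
open Pool.Agent.J6H16.PF

theorem ph_nat (k : ℤ) {e : ℕ} (he : 1 ≤ e) : ph k 0 ((e : ℕ) : ZI) = 1 := by
  unfold ph
  have h1 : (((e : ℕ) : ZI) : ℂ) = ((e : ℝ) : ℂ) := by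
    push_cast
    simp
  rw [h1, Complex.arg_ofReal_of_nonneg (Nat.cast_nonneg e)]
  simp

theorem ct_mul_nat (e : ℕ) (t : ZI) : ct (((e : ℕ) : ZI) * t) = e * ct t := by
  unfold ct
  have h1 : (((e : ℕ) : ZI) * t).re = (e : ℤ) * t.re := by
    rw [Zsqrtd.re_mul, Zsqrtd.re_natCast, Zsqrtd.im_natCast]; ring
  have h2 : (((e : ℕ) : ZI) * t).im = (e : ℤ) * t.im := by
    rw [Zsqrtd.im_mul, Zsqrtd.re_natCast, Zsqrtd.im_natCast]; ring
  rw [h1, h2, Int.gcd_mul_left, Int.natAbs_natCast]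

theorem nz_nat_mul (e : ℕ) (t : ZI) : nz (((e : ℕ) : ZI) * t) = (e : ℝ) ^ 2 * nz t := by
  rw [Pool.Agent.N855.GN.nz_mul, nz_eq, Zsqrtd.re_natCast, Zsqrtd.im_natCast]
  push_cast
  ring

theorem ct_pos {t : ZI} (ht : t ≠ 0) : 1 ≤ ct t := by
  by_contra h
  have h0 : ct t = 0 := by omega
  unfold ct at h0
  rw [Int.gcd_eq_zero_iff] at h0
  exact ht (Zsqrtd.ext h0.1 h0.2)

theorem ct_sq_le {t : ZI} (ht : t ≠ 0) : (ct t : ℝ) ^ 2 ≤ nz t := by
  obtain ⟨t', ht'⟩ := (Pool.Agent.N864.GN.MB.dvd_ct (ct t) t).2 dvd_rfl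
  have h1 : t' ≠ 0 := by
    rintro rfl
    rw [mul_zero] at ht'
    exact ht ht'
  have h2 : nz t = (ct t : ℝ) ^ 2 * nz t' := by
    conv_lhs => rw [ht']
    exact nz_nat_mul _ _
  rw [h2]
  exact le_mul_of_one_le_right (by positivity) (nz_one_le h1)

theorem H_le {V : ℝ} (hV : 1 ≤ V) : ∑ e ∈ Icc 1 ⌊V⌋₊, 1 / (e : ℝ) ≤ 1 + Real.log V := by
  have h1 := harmonic_le_one_add_log ⌊V⌋₊
  have h2 : ((harmonic ⌊V⌋₊ : ℚ) : ℝ) = ∑ e ∈ Icc 1 ⌊V⌋₊, 1 / (e : ℝ) := by
    rw [harmonic_eq_sum_Icc]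
    push_cast
    exact sum_congr rfl fun e _ => (one_div _).symm
  rw [h2] at h1
  refine h1.trans ?_
  have h3 : (1 : ℝ) ≤ (⌊V⌋₊ : ℝ) := by exact_mod_cast Nat.le_floor (by simpa using hV)
  have h4 := Real.log_le_log (by linarith) (Nat.floor_le (by linarith : (0 : ℝ) ≤ V))
  linarith

/-- the sum over the numbers with a given content -/
theorem sum_ct (V : ℝ) (hV : 0 ≤ V) {e : ℕ} (he : 1 ≤ e) (F : ZI → ℂ) :
    ∑ t ∈ (bl V).filter (fun t => ct t = e), F t =
      ∑ t ∈ (bl (V / (e : ℝ) ^ 2)).filter (fun t => ct t = 1), F (((e : ℕ) : ZI) * t) := by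
  classical
  have he0 : (0 : ℝ) < (e : ℝ) ^ 2 := by
    have : (0 : ℝ) < e := by exact_mod_cast he
    positivity
  have hez : ((e : ℕ) : ZI) ≠ 0 := by
    rw [Ne, Nat.cast_eq_zero]
    omega
  symm
  apply sum_bij (fun t _ => ((e : ℕ) : ZI) * t)
  · intro t ht
    rw [mem_filter, mem_bl] at ht ⊢
    refine ⟨⟨mul_ne_zero hez ht.1.1, ?_⟩, ?_⟩
    · rw [nz_nat_mul]
      have := (le_div_iff₀ he0).1 ht.1.2
      linarith
    · rw [ct_mul_nat, ht.2, mul_one]
  · intro a _ b _ h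
    exact mul_left_cancel₀ hez h
  · intro t ht
    rw [mem_filter, mem_bl] at ht
    obtain ⟨t', ht'⟩ := (Pool.Agent.N864.GN.MB.dvd_ct (ct t) t).2 dvd_rfl
    rw [ht.2] at ht'
    have h1 : t' ≠ 0 := by
      rintro rfl
      rw [mul_zero] at ht'
      exact ht.1.1 ht'
    refine ⟨t', ?_, ht'.symm⟩
    rw [mem_filter, mem_bl]
    refine ⟨⟨h1, ?_⟩, ?_⟩
    · rw [le_div_iff₀ he0]
      have := ht.1.2
      rw [ht', nz_nat_mul] at this
      linarith
    · have := ht.2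
      rw [ht', ct_mul_nat] at this
      exact Nat.eq_of_mul_eq_mul_left he (by rw [this, mul_one])
  · intro t _
    rfl

/-- **the mean value theorem for numbers with a large content** -/
theorem lsct {V : ℝ} (hV : 2 ≤ V) {K : ℕ} (hK : 1 ≤ K) (C0 T : ℝ) (hC0 : 0 ≤ C0) (hT : 1 ≤ T)
    (c : ZI → ℂ) (hc : ∀ t ∈ bl V, ‖c t‖ ≤ C0) (hcT : ∀ t, (ct t : ℝ) < T → c t = 0) :
    ∑ k ∈ Icc (-(K : ℤ)) K, ‖∑ t ∈ bl V, c t * ph k 0 t‖ ^ 2 ≤
      5184 * C0 ^ 2 * (1 + Real.log V) ^ 2 * (K * V + V ^ 2 / T ^ 2) := by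
  classical
  have hV0 : 0 < V := by linarith
  have hlog : 0 ≤ Real.log V := Real.log_nonneg (by linarith)
  set N : ℕ := ⌊V⌋₊ with hN
  set H : ℝ := ∑ e ∈ Icc 1 N, 1 / (e : ℝ) with hH
  have hHle : H ≤ 1 + Real.log V := H_le (by linarith)
  have hH0 : 0 ≤ H := sum_nonneg fun e _ => by positivity
  set S : ℕ → ℤ → ℂ := fun e k => ∑ t ∈ (bl V).filter (fun t => ct t = e), c t * ph k 0 t with hS
  have hmap : ∀ t ∈ bl V, ct t ∈ Icc 1 N := by
    intro t ht
    rw [mem_bl] at ht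
    rw [mem_Icc]
    refine ⟨ct_pos ht.1, ?_⟩
    apply Nat.le_floor
    have h1 := ct_sq_le ht.1
    have h2 : (1 : ℝ) ≤ ct t := by exact_mod_cast ct_pos ht.1
    nlinarith [ht.2]
  have hsplit : ∀ k : ℤ, ∑ t ∈ bl V, c t * ph k 0 t = ∑ e ∈ Icc 1 N, S e k := fun k =>
    (sum_fiberwise_of_maps_to hmap (fun t => c t * ph k 0 t)).symm
  have hCS : ∀ k : ℤ, ‖∑ t ∈ bl V, c t * ph k 0 t‖ ^ 2 ≤ H * ∑ e ∈ Icc 1 N, (e : ℝ) * ‖S e k‖ ^ 2 := by
    intro k
    rw [hsplit k]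
    have h1 : ‖∑ e ∈ Icc 1 N, S e k‖ ^ 2 ≤ (∑ e ∈ Icc 1 N, ‖S e k‖) ^ 2 :=
      pow_le_pow_left₀ (norm_nonneg _) (norm_sum_le _ _) 2
    refine h1.trans ?_
    have h2 := sum_mul_sq_le_sq_mul_sq (Icc 1 N) (fun e : ℕ => Real.sqrt (1 / (e : ℝ)))
      (fun e : ℕ => Real.sqrt (e : ℝ) * ‖S e k‖)
    have h3 : ∑ e ∈ Icc 1 N, Real.sqrt (1 / (e : ℝ)) * (Real.sqrt (e : ℝ) * ‖S e k‖) = ∑ e ∈ Icc 1 N, ‖S e k‖ := by
      refine sum_congr rfl fun e he => ?_
      rw [mem_Icc] at he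
      have he0 : (0 : ℝ) < e := by exact_mod_cast he.1
      rw [← mul_assoc, ← Real.sqrt_mul (by positivity), one_div, inv_mul_cancel₀ he0.ne', Real.sqrt_one, one_mul]
    have h4 : ∑ e ∈ Icc 1 N, Real.sqrt (1 / (e : ℝ)) ^ 2 = H :=
      sum_congr rfl fun e _ => Real.sq_sqrt (by positivity)
    have h5 : ∑ e ∈ Icc 1 N, (Real.sqrt (e : ℝ) * ‖S e k‖) ^ 2 = ∑ e ∈ Icc 1 N, (e : ℝ) * ‖S e k‖ ^ 2 :=
      sum_congr rfl fun e _ => by rw [mul_pow, Real.sq_sqrt (Nat.cast_nonneg e)]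
    rw [h3, h4, h5] at h2
    exact h2
  -- a single content
  have hone : ∀ e ∈ Icc 1 N, (e : ℝ) * ∑ k ∈ Icc (-(K : ℤ)) K, ‖S e k‖ ^ 2 ≤
      5184 * C0 ^ 2 * (K * V + V ^ 2 / T ^ 2) * (1 / (e : ℝ)) := by
    intro e he
    rw [mem_Icc] at he
    have he0 : (0 : ℝ) < e := by exact_mod_cast he.1
    have he1 : (1 : ℝ) ≤ e := by exact_mod_cast he.1
    have hpos : 0 ≤ 5184 * C0 ^ 2 * (K * V + V ^ 2 / T ^ 2) * (1 / (e : ℝ)) := by positivity
    rcases lt_or_ge (e : ℝ) T with hcase | hcase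
    · have h1 : ∀ k : ℤ, S e k = 0 := by
        intro k
        simp only [hS]
        refine sum_eq_zero fun t ht => ?_
        rw [mem_filter] at ht
        rw [hcT t (by rw [ht.2]; exact hcase), zero_mul]
      rw [sum_eq_zero (fun k _ => by rw [h1 k, norm_zero]; norm_num), mul_zero]
      exact hpos
    · rcases lt_or_ge V ((e : ℝ) ^ 2) with hcase2 | hcase2
      · have h1 : ∀ k : ℤ, S e k = 0 := by
          intro k
          simp only [hS]
          refine sum_eq_zero fun t ht => ?_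
          rw [mem_filter, mem_bl] at ht
          have h2 := ct_sq_le ht.1.1
          rw [ht.2] at h2
          linarith [ht.1.2]
        rw [sum_eq_zero (fun k _ => by rw [h1 k, norm_zero]; norm_num), mul_zero]
        exact hpos
      · set W : ℝ := max 2 (V / (e : ℝ) ^ 2) with hW
        have hVe : 1 ≤ V / (e : ℝ) ^ 2 := by rw [le_div_iff₀ (by positivity), one_mul]; exact hcase2
        have hW2 : W ≤ 2 * (V / (e : ℝ) ^ 2) := max_le (by linarith) (by linarith)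
        set d : ZI → ℂ := fun t => if t ∈ bl (V / (e : ℝ) ^ 2) ∧ ct t = 1 then c (((e : ℕ) : ZI) * t) else 0 with hd
        have h1 : ∀ k : ℤ, S e k = ∑ t ∈ bl W, d t * ph k 0 t := by
          intro k
          simp only [hS]
          rw [sum_ct V hV0.le he.1]
          have hsub : (bl (V / (e : ℝ) ^ 2)).filter (fun t => ct t = 1) ⊆ bl W := by
            intro t ht
            rw [mem_filter, mem_bl] at ht
            rw [mem_bl]
            exact ⟨ht.1.1, ht.1.2.trans (le_max_right _ _)⟩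
          rw [← sum_subset hsub (f := fun t => d t * ph k 0 t)]
          · refine sum_congr rfl fun t ht => ?_
            rw [mem_filter] at ht
            simp only [hd]
            rw [if_pos ht]
            have ht0 := ((mem_bl _ _).1 ht.1).1
            have hez : ((e : ℕ) : ZI) ≠ 0 := by
              rw [Ne, Nat.cast_eq_zero]
              omega
            rw [ph_mul k hez ht0, ph_nat k he.1, one_mul]
          · intro t _ ht
            simp only [hd]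
            rw [if_neg fun h => ht (mem_filter.2 h), zero_mul]
        have h2 := lsbp (V := W) (le_max_left _ _) hK d (fun t ht => by
          simp only [hd]
          rw [if_neg fun h => ht h.2])
        have h3 : ∑ t ∈ bl W, ‖d t‖ ^ 2 ≤ 9 * W * C0 ^ 2 := by
          calc ∑ t ∈ bl W, ‖d t‖ ^ 2 ≤ ∑ t ∈ bl W, C0 ^ 2 := by
                refine sum_le_sum fun t _ => ?_
                apply pow_le_pow_left₀ (norm_nonneg _)
                simp only [hd]
                split_ifs with h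
                · apply hc
                  have h4 := (mem_bl _ _).1 h.1
                  rw [mem_bl, nz_nat_mul]
                  refine ⟨mul_ne_zero (by rw [Ne, Nat.cast_eq_zero]; omega) h4.1, ?_⟩
                  have := (le_div_iff₀ (by positivity)).1 h4.2
                  linarith
                · rw [norm_zero]; exact hC0
            _ = ((bl W).card : ℝ) * C0 ^ 2 := by rw [sum_const, nsmul_eq_mul]
            _ ≤ 9 * W * C0 ^ 2 := mul_le_mul_of_nonneg_right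
                (card_bl (le_trans (by norm_num) (le_max_left 2 (V / (e : ℝ) ^ 2)))) (by positivity)
        have h4 : ∑ k ∈ Icc (-(K : ℤ)) K, ‖S e k‖ ^ 2 ≤ 72 * (K + W) * (9 * W * C0 ^ 2) := by
          simp only [h1]
          exact h2.trans (mul_le_mul_of_nonneg_left h3 (by positivity))
        have hW0 : 0 ≤ W := le_trans (by norm_num) (le_max_left 2 (V / (e : ℝ) ^ 2))
        have h5 : (K + W) * W ≤ 4 * (K * V / (e : ℝ) ^ 2 + V ^ 2 / (e : ℝ) ^ 4) := by
          have hK0 : (0 : ℝ) ≤ K := Nat.cast_nonneg _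
          have h6 : (K + W) * W ≤ (K + 2 * (V / (e : ℝ) ^ 2)) * (2 * (V / (e : ℝ) ^ 2)) := by gcongr
          refine h6.trans ?_
          have h7 : (K + 2 * (V / (e : ℝ) ^ 2)) * (2 * (V / (e : ℝ) ^ 2)) =
              2 * (K * V / (e : ℝ) ^ 2) + 4 * (V ^ 2 / (e : ℝ) ^ 4) := by
            field_simp
            ring
          rw [h7]
          have : 0 ≤ K * V / (e : ℝ) ^ 2 := by positivity
          linarith
        have h8 : V ^ 2 / (e : ℝ) ^ 4 ≤ V ^ 2 / T ^ 2 * (1 / (e : ℝ) ^ 2) := by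
          rw [div_mul_div_comm, mul_one]
          apply div_le_div_of_nonneg_left (by positivity) (by positivity)
          calc T ^ 2 * (e : ℝ) ^ 2 ≤ (e : ℝ) ^ 2 * (e : ℝ) ^ 2 := by gcongr
            _ = (e : ℝ) ^ 4 := by ring
        calc (e : ℝ) * ∑ k ∈ Icc (-(K : ℤ)) K, ‖S e k‖ ^ 2 ≤ (e : ℝ) * (72 * (K + W) * (9 * W * C0 ^ 2)) :=
              mul_le_mul_of_nonneg_left h4 he0.le
          _ = (e : ℝ) * (648 * C0 ^ 2) * ((K + W) * W) := by ring
          _ ≤ (e : ℝ) * (648 * C0 ^ 2) * (4 * (K * V / (e : ℝ) ^ 2 + V ^ 2 / T ^ 2 * (1 / (e : ℝ) ^ 2))) := by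
              apply mul_le_mul_of_nonneg_left _ (by positivity)
              refine h5.trans ?_
              linarith
          _ = 2592 * C0 ^ 2 * (K * V + V ^ 2 / T ^ 2) * (1 / (e : ℝ)) := by
              field_simp
              ring
          _ ≤ _ := by
              apply mul_le_mul_of_nonneg_right _ (by positivity)
              apply mul_le_mul_of_nonneg_right _ (by positivity)
              nlinarith [sq_nonneg C0]
  calc ∑ k ∈ Icc (-(K : ℤ)) K, ‖∑ t ∈ bl V, c t * ph k 0 t‖ ^ 2 ≤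
        ∑ k ∈ Icc (-(K : ℤ)) K, H * ∑ e ∈ Icc 1 N, (e : ℝ) * ‖S e k‖ ^ 2 := sum_le_sum fun k _ => hCS k
    _ = H * ∑ e ∈ Icc 1 N, (e : ℝ) * ∑ k ∈ Icc (-(K : ℤ)) K, ‖S e k‖ ^ 2 := by
        rw [← mul_sum, sum_comm]
        congr 1
        exact sum_congr rfl fun e _ => by rw [mul_sum]
    _ ≤ H * ∑ e ∈ Icc 1 N, 5184 * C0 ^ 2 * (K * V + V ^ 2 / T ^ 2) * (1 / (e : ℝ)) :=
        mul_le_mul_of_nonneg_left (sum_le_sum hone) hH0
    _ = 5184 * C0 ^ 2 * (K * V + V ^ 2 / T ^ 2) * H ^ 2 := by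
        rw [← mul_sum]
        ring
    _ ≤ 5184 * C0 ^ 2 * (K * V + V ^ 2 / T ^ 2) * (1 + Real.log V) ^ 2 := by
        apply mul_le_mul_of_nonneg_left _ (by positivity)
        exact pow_le_pow_left₀ hH0 hHle 2
    _ = _ := by ring

end Pool.Agent.J6H16.PR
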