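import Pool.Agent.J6H16.PR.Lr

/-!
# Project PR (helper16): the lower bound for the model, summed over the divisors
-/

set_option autoImplicit false

namespace Pool.Agent.J6H16.PR

open Finset Filter Topology MeasureTheory
open Pool.Agent.N782.GN Pool.Agent.N855.GN
open Pool.Agent.H304R3.HK (UH bb LamK CS)
open Pool.Agent.J6H16.PF

open Classical in
/-- the inner sum for a fixed `v` -/
theorem inner_lo {M c3 c4 R : ℝ} (hM : 3 ≤ M) (hR : 0 < R) {v : ZI} (hv : v ∈ bg ((M / (8 * R)) ^ 2) (4 * (M / (8 * R)) ^ 2))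
    {l : ℕ} (hl : (l : ℝ) ≤ M / 8) :
    ∑ a ∈ bg (M ^ c3) (M ^ c4), f1 M c3 c4 a * (((Icc 1 ⌊3 / 2 * (R * Real.sqrt (nz v))⌋).filter (fun n : ℤ =>
      ((R * Real.sqrt (nz v) < n ∧ rough (zf M) (⟨l, n⟩ : ZI)) ∧ a * v ∣ (⟨l, n⟩ : ZI)) ∧ ct (⟨l, n⟩ : ZI) = 1)).card : ℝ) ≤
    ∑ w ∈ bg (R ^ 2) (4 * R ^ 2), if (w * v).re = (l : ℤ) then uR M c3 c4 R w else 0 := by
  rw [mem_bg] at hv
  obtain ⟨hv0, -, hv2⟩ := hv
  set X := R * Real.sqrt (nz v) with hX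
  set z := zf M
  have hnv := nz_pos hv0
  have hM0 : 0 < M := by linarith
  have hX2 : X ^ 2 = R ^ 2 * nz v := by rw [hX, mul_pow, Real.sq_sqrt hnv.le]
  have hX8 : M / 8 ≤ X := by
    have h1 : M / (8 * R) ≤ Real.sqrt (nz v) := by
      apply Real.le_sqrt_of_sq_le
      exact hv2.le
    calc M / 8 = R * (M / (8 * R)) := by field_simp
      _ ≤ X := mul_le_mul_of_nonneg_left h1 hR.le
  have hX0 : 0 < X := by linarith
  set G := (Icc 1 ⌊3 / 2 * X⌋).filter (fun n : ℤ => ((X < n ∧ rough z (⟨l, n⟩ : ZI)) ∧ v ∣ (⟨l, n⟩ : ZI)) ∧ ct (⟨l, n⟩ : ZI) = 1) with hG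
  have hGm : ∀ n ∈ G, ∃ w : ZI, w * v = ⟨l, n⟩ := by
    intro n hn
    rw [hG, mem_filter] at hn
    obtain ⟨w, hw⟩ := hn.2.1.2
    exact ⟨w, by rw [hw, mul_comm]⟩
  choose! w hw using hGm
  have hζ : ∀ n ∈ G, (⟨l, n⟩ : ZI) ≠ 0 := by
    intro n hn h0
    have h1 := congrArg Zsqrtd.im h0
    rw [hG, mem_filter, mem_Icc] at hn
    simp only [Zsqrtd.im_zero] at h1
    omega
  have hw0 : ∀ n ∈ G, w n ≠ 0 := by
    intro n hn h0
    have h1 := hw n hn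
    rw [h0, zero_mul] at h1
    exact hζ n hn h1.symm
  have hwm : ∀ n ∈ G, R ^ 2 < nz (w n) ∧ nz (w n) ≤ 4 * R ^ 2 := by
    intro n hn
    have h1 : nz (w n) * nz v = (l : ℝ) ^ 2 + (n : ℝ) ^ 2 := by
      rw [← Pool.Agent.N855.GN.nz_mul, hw n hn, Pool.Agent.J6H16.PF.nz_mk]
      push_cast
      rfl
    rw [hG, mem_filter, mem_Icc, Int.le_floor] at hn
    have h2 : X < (n : ℝ) := hn.2.1.1.1
    have h3 : (n : ℝ) ≤ 3 / 2 * X := hn.1.2
    have hl0 : (0 : ℝ) ≤ l := Nat.cast_nonneg l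
    constructor
    · have h4 : R ^ 2 * nz v < nz (w n) * nz v := by
        rw [h1, ← hX2]
        nlinarith [sq_nonneg (l : ℝ)]
      exact lt_of_mul_lt_mul_right h4 hnv.le
    · have h4 : nz (w n) * nz v ≤ (4 * R ^ 2) * nz v := by
        rw [h1, mul_assoc, ← hX2]
        have h5 : (l : ℝ) ≤ X := hl.trans hX8
        nlinarith
      exact le_of_mul_le_mul_right h4 hnv
  have hf0 : ∀ a, 0 ≤ f1 M c3 c4 a := f1_nonneg (by linarith) _ _
  -- exchange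
  have h1 : ∑ a ∈ bg (M ^ c3) (M ^ c4), f1 M c3 c4 a * (((Icc 1 ⌊3 / 2 * X⌋).filter (fun n : ℤ =>
      ((X < n ∧ rough z (⟨l, n⟩ : ZI)) ∧ a * v ∣ (⟨l, n⟩ : ZI)) ∧ ct (⟨l, n⟩ : ZI) = 1)).card : ℝ) =
      ∑ n ∈ G, ∑ a ∈ (bg (M ^ c3) (M ^ c4)).filter (fun a => a * v ∣ (⟨l, n⟩ : ZI)), f1 M c3 c4 a := by
    simp only [sum_filter]
    rw [sum_comm]
    refine sum_congr rfl fun a _ => ?_
    have h2 : (Icc 1 ⌊3 / 2 * X⌋).filter (fun n : ℤ =>
      ((X < n ∧ rough z (⟨l, n⟩ : ZI)) ∧ a * v ∣ (⟨l, n⟩ : ZI)) ∧ ct (⟨l, n⟩ : ZI) = 1) = G.filter (fun n => a * v ∣ (⟨l, n⟩ : ZI)) := by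
      ext n
      rw [hG, mem_filter, mem_filter, mem_filter]
      constructor
      · rintro ⟨h3, ⟨h4, h5⟩, h6⟩
        exact ⟨⟨h3, ⟨h4, (Dvd.intro_left _ rfl).trans h5⟩, h6⟩, h5⟩
      · rintro ⟨⟨h3, ⟨h4, h5⟩, h6⟩, h7⟩
        exact ⟨h3, ⟨h4, h7⟩, h6⟩
    rw [h2, ← sum_filter, sum_const, nsmul_eq_mul, mul_comm]
  rw [h1]
  have h2 : ∀ n ∈ G, ∑ a ∈ (bg (M ^ c3) (M ^ c4)).filter (fun a => a * v ∣ (⟨l, n⟩ : ZI)), f1 M c3 c4 a ≤
      (if (w n * v).re = (l : ℤ) then uR M c3 c4 R (w n) else 0) := by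
    intro n hn
    have hn' := hn
    rw [hG, mem_filter] at hn'
    rw [hw n hn, if_pos rfl]
    unfold uR
    have hdv : w n ∣ (⟨l, n⟩ : ZI) := ⟨v, (hw n hn).symm⟩
    rw [if_pos ⟨hwm n hn, ct_dvd hdv hn'.2.2⟩]
    apply cv_lo hf0 (rg_nonneg _) (hw0 n hn)
    intro a ha
    rw [mem_filter] at ha
    obtain ⟨m, hm⟩ := ha.2
    have h3 : a * m = w n := by
      apply mul_right_cancel₀ hv0
      rw [hw n hn, hm]
      ring
    refine ⟨m, h3, ?_⟩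
    have h4 : m ∣ (⟨l, n⟩ : ZI) := (Dvd.intro_left _ h3).trans hdv
    unfold rg
    rw [if_pos ⟨rough_of_dvd h4 hn'.2.1.1.2, ct_dvd h4 hn'.2.2⟩]
  refine (sum_le_sum h2).trans ?_
  have hinj : Set.InjOn w (G : Set ℤ) := by
    intro n hn n' hn' h
    have h3 := hw n hn
    rw [h, hw n' hn'] at h3
    have h4 := congrArg Zsqrtd.im h3
    exact h4.symm
  rw [← sum_image (f := fun w : ZI => if (w * v).re = (l : ℤ) then uR M c3 c4 R w else 0) hinj]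
  apply sum_le_sum_of_subset_of_nonneg
  · intro x hx
    rw [mem_image] at hx
    obtain ⟨n, hn, rfl⟩ := hx
    rw [mem_bg]
    exact ⟨hw0 n hn, (hwm n hn).2, (hwm n hn).1⟩
  · intro x _ _
    split_ifs
    · unfold uR
      split_ifs
      · exact cf_nonneg hf0 (rg_nonneg _) _ _ _
      · exact le_rfl
    · exact le_rfl

/-- the conditions for the weights of the cofactor -/
structure Gam (c4 M Cγ : ℝ) (γ : ZI → ℝ) : Prop where
  nonneg : ∀ v, 0 ≤ γ v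
  sqf : ∀ v, γ v ≠ 0 → Squarefree (nn v)
  big : ∀ v, γ v ≠ 0 → ∀ p : ℕ, p.Prime → p ∣ nn v → M ^ c4 < p
  div : ∀ z : ZI, z ≠ 0 → nz z ≤ M ^ 3 → ∑ v ∈ Dv z, γ v ≤ Cγ

/-- **the lower bound for the model** -/
theorem lowR {c3 c4 δ : ℝ} (h34 : c3 ≤ c4) (hδ : 0 < δ) : ∀ᶠ M : ℝ in atTop, (zf M : ℝ) ≤ M ^ c3 →
    ∀ (R Cγ : ℝ) (γ : ZI → ℝ) (l : ℕ), 0 < R → M ^ c4 * (4 * (M / (8 * R)) ^ 2) ≤ M ^ (1 - δ) → Gam c4 M Cγ γ →
    1 ≤ l → (l : ℝ) ≤ M / 8 → 0 ≤ Cγ →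
    M / 128 * Vp (zf M) l * (s1 M c3 c4 * ∑ v ∈ bg ((M / (8 * R)) ^ 2) (4 * (M / (8 * R)) ^ 2), γ v / nz v) -
      12 * Cγ * (Real.log M * M / zf M) ≤ Th (uR M c3 c4 R) γ R (M / (8 * R)) l := by
  classical
  filter_upwards [cntu hδ, eventually_ge_atTop (3 : ℝ)] with M hcnt hM3
  intro hz R Cγ γ l hR hRP hγ hl1 hl8 hCγ
  have hM0 : 0 < M := by linarith
  have hM1 : 1 ≤ M := by linarith
  set P := M / (8 * R) with hP
  have hP0 : 0 < P := by positivity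
  set z := zf M with hzd
  have hz1 : 1 ≤ z := by rw [hzd]; unfold zf; exact Nat.one_le_two_pow
  have h34M : M ^ c3 ≤ M ^ c4 := Real.rpow_le_rpow_of_exponent_le hM1 h34
  have hf0 : ∀ a, 0 ≤ f1 M c3 c4 a := f1_nonneg hM1 _ _
  set E := Eb z l (M / 2) with hE
  -- the main count
  have hmain : ∀ v ∈ bg (P ^ 2) (4 * P ^ 2), ∀ a ∈ bg (M ^ c3) (M ^ c4), γ v ≠ 0 → f1 M c3 c4 a ≠ 0 →
      M / 128 / (nz a * nz v) * Vp z l - ((E.filter (fun n => a * v ∣ (⟨l, n⟩ : ZI))).card : ℝ) ≤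
      (((Icc 1 ⌊3 / 2 * (R * Real.sqrt (nz v))⌋).filter (fun n : ℤ =>
      ((R * Real.sqrt (nz v) < n ∧ rough z (⟨l, n⟩ : ZI)) ∧ a * v ∣ (⟨l, n⟩ : ZI)) ∧ ct (⟨l, n⟩ : ZI) = 1)).card : ℝ) := by
    intro v hv a ha hγv hfa
    rw [mem_bg] at hv ha
    have h1 := f1_ne hfa
    have h2 := hγ.sqf v hγv
    have h3 := hγ.big v hγv
    have hnd : ¬ (nn a ∣ nn v) := by
      intro hd
      have h4 := h3 (nn a) h1.1 hd
      rw [← nz_nn] at h4
      linarith [h1.2.2]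
    have hsq : Squarefree (nn (a * v)) := sqf_mul h1.1 h2 hnd
    have hX : M / 8 ≤ R * Real.sqrt (nz v) := by
      have h1 : P ≤ Real.sqrt (nz v) := by
        apply Real.le_sqrt_of_sq_le
        exact hv.2.2.le
      calc M / 8 = R * P := by rw [hP]; field_simp
        _ ≤ _ := mul_le_mul_of_nonneg_left h1 hR.le
    have hX2 : R * Real.sqrt (nz v) ≤ M / 4 := by
      have h1 : Real.sqrt (nz v) ≤ 2 * P := by
        apply Real.sqrt_le_iff.2 ⟨by positivity, by nlinarith [hv.2.1]⟩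
      calc R * Real.sqrt (nz v) ≤ R * (2 * P) := mul_le_mul_of_nonneg_left h1 hR.le
        _ = M / 4 := by rw [hP]; field_simp; norm_num
    have h4 := hcnt l (a * v) (R * Real.sqrt (nz v)) (ct_sqf hsq) (by
      intro p hp hpz hd
      have hpz' : (p : ℝ) ≤ (z : ℝ) := by exact_mod_cast hpz
      rw [nn_mul] at hd
      rcases (Nat.Prime.dvd_mul hp).1 hd with h | h
      · have h5 := (Nat.prime_dvd_prime_iff_eq hp (show (nn a).Prime from h1.1)).1 h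
        have h6 : M ^ c3 < (p : ℝ) := by rw [h5, ← nz_nn]; exact h1.2.1
        linarith
      · have h6 := h3 p hp h
        linarith) (by
      rw [← nz_nn, Pool.Agent.N855.GN.nz_mul]
      refine le_trans ?_ hRP
      have := nz_nonneg a
      exact mul_le_mul h1.2.2 hv.2.1 (nz_nonneg v) (by positivity)) hX
    rw [Pool.Agent.N855.GN.nz_mul] at h4
    rw [sub_le_iff_le_add]
    refine h4.trans ?_
    rw [← Nat.cast_add]
    have h5 := card_filter_add_card_filter_not (s := (Icc 1 ⌊3 / 2 * (R * Real.sqrt (nz v))⌋).filter (fun n : ℤ =>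
      (R * Real.sqrt (nz v) < n ∧ rough z (⟨l, n⟩ : ZI)) ∧ a * v ∣ (⟨l, n⟩ : ZI))) (fun n : ℤ => ct (⟨l, n⟩ : ZI) = 1)
    rw [← h5, filter_filter, filter_filter]
    have h6 : ((Icc 1 ⌊3 / 2 * (R * Real.sqrt (nz v))⌋).filter (fun n : ℤ =>
      ((R * Real.sqrt (nz v) < n ∧ rough z (⟨l, n⟩ : ZI)) ∧ a * v ∣ (⟨l, n⟩ : ZI)) ∧ ¬ ct (⟨l, n⟩ : ZI) = 1)).card ≤
        (E.filter (fun n => a * v ∣ (⟨l, n⟩ : ZI))).card := by
      apply card_le_card
      intro n hn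
      rw [mem_filter] at hn
      rw [mem_filter]
      refine ⟨mem_Eb hl1 ?_ hn.2.1.1.2 hn.2.2, hn.2.1.2⟩
      have h7 := hn.1
      rw [mem_Icc] at h7 ⊢
      refine ⟨h7.1, h7.2.trans (Int.floor_le_floor (by linarith))⟩
    exact_mod_cast Nat.add_le_add_left h6 _
  -- the sum
  have hTh : ∑ v ∈ bg (P ^ 2) (4 * P ^ 2), ∑ a ∈ bg (M ^ c3) (M ^ c4),
      (γ v * f1 M c3 c4 a * (M / 128 / (nz a * nz v) * Vp z l) -
        γ v * f1 M c3 c4 a * ((E.filter (fun n => a * v ∣ (⟨l, n⟩ : ZI))).card : ℝ)) ≤ Th (uR M c3 c4 R) γ R P l := by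
    unfold Th
    refine sum_le_sum fun v hv => ?_
    have h1 : ∑ w ∈ bg (R ^ 2) (4 * R ^ 2), (if (w * v).re = (l : ℤ) then γ v * uR M c3 c4 R w else 0) =
        γ v * ∑ w ∈ bg (R ^ 2) (4 * R ^ 2), (if (w * v).re = (l : ℤ) then uR M c3 c4 R w else 0) := by
      rw [mul_sum]
      refine sum_congr rfl fun w _ => ?_
      split_ifs <;> ring
    rw [h1]
    have h2 := inner_lo (c3 := c3) (c4 := c4) hM3 hR (v := v) hv hl8
    refine le_trans ?_ (mul_le_mul_of_nonneg_left h2 (hγ.nonneg v))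
    rw [mul_sum]
    refine sum_le_sum fun a ha => ?_
    by_cases hγv : γ v = 0
    · rw [hγv]; simp
    by_cases hfa : f1 M c3 c4 a = 0
    · rw [hfa]; simp
    have h3 := hmain v hv a ha hγv hfa
    have h4 := mul_le_mul_of_nonneg_left h3 (mul_nonneg (hγ.nonneg v) (hf0 a))
    calc _ = γ v * f1 M c3 c4 a * (M / 128 / (nz a * nz v) * Vp z l - ((E.filter (fun n => a * v ∣ (⟨l, n⟩ : ZI))).card : ℝ)) := by ring
      _ ≤ _ := h4
      _ = _ := by ring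
  refine le_trans ?_ hTh
  simp only [sum_sub_distrib]
  have e1 : ∑ v ∈ bg (P ^ 2) (4 * P ^ 2), ∑ a ∈ bg (M ^ c3) (M ^ c4), γ v * f1 M c3 c4 a * (M / 128 / (nz a * nz v) * Vp z l) =
      M / 128 * Vp z l * (s1 M c3 c4 * ∑ v ∈ bg (P ^ 2) (4 * P ^ 2), γ v / nz v) := by
    unfold s1
    rw [sum_mul_sum, mul_sum, sum_comm]
    refine sum_congr rfl fun a ha => ?_
    rw [mul_sum]
    refine sum_congr rfl fun v hv => ?_
    have := nz_pos (mem_bg.1 ha).1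
    have := nz_pos (mem_bg.1 hv).1
    field_simp
  rw [e1]
  apply sub_le_sub_left
  -- the exceptional numbers
  have e2 : ∑ v ∈ bg (P ^ 2) (4 * P ^ 2), ∑ a ∈ bg (M ^ c3) (M ^ c4), γ v * f1 M c3 c4 a *
      ((E.filter (fun n => a * v ∣ (⟨l, n⟩ : ZI))).card : ℝ) =
      ∑ n ∈ E, ∑ v ∈ bg (P ^ 2) (4 * P ^ 2), ∑ a ∈ bg (M ^ c3) (M ^ c4), if a * v ∣ (⟨l, n⟩ : ZI) then γ v * f1 M c3 c4 a else 0 := by
    have h1 : ∀ v a : ZI, γ v * f1 M c3 c4 a * ((E.filter (fun n => a * v ∣ (⟨l, n⟩ : ZI))).card : ℝ) =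
        ∑ n ∈ E, if a * v ∣ (⟨l, n⟩ : ZI) then γ v * f1 M c3 c4 a else 0 := by
      intro v a
      rw [← sum_filter, sum_const, nsmul_eq_mul, mul_comm]
    simp only [h1]
    rw [sum_comm (s := E)]
    refine sum_congr rfl fun v _ => ?_
    rw [sum_comm]
  rw [e2]
  have h3 : ∀ n ∈ E, ∑ v ∈ bg (P ^ 2) (4 * P ^ 2), ∑ a ∈ bg (M ^ c3) (M ^ c4),
      (if a * v ∣ (⟨l, n⟩ : ZI) then γ v * f1 M c3 c4 a else 0) ≤ 12 * Cγ := by
    intro n hn
    have hn' : 1 ≤ n ∧ (n : ℝ) ≤ M / 2 := by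
      rw [hE] at hn
      unfold Eb at hn
      rw [mem_filter, mem_Icc, Int.le_floor] at hn
      exact hn.1
    have hζ : (⟨l, n⟩ : ZI) ≠ 0 := by
      intro h0
      have h1 := congrArg Zsqrtd.im h0
      simp only [Zsqrtd.im_zero] at h1
      omega
    have hn1 : (1 : ℝ) ≤ n := by exact_mod_cast hn'.1
    have hnz : nz (⟨l, n⟩ : ZI) ≤ M ^ 3 := by
      rw [Pool.Agent.J6H16.PF.nz_mk]
      push_cast
      have hl0 : (0 : ℝ) ≤ l := Nat.cast_nonneg l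
      have h4 : (l : ℝ) ^ 2 ≤ M ^ 2 := pow_le_pow_left₀ hl0 (by linarith) 2
      have h5 : (n : ℝ) ^ 2 ≤ M ^ 2 := pow_le_pow_left₀ (by linarith) (by linarith [hn'.2]) 2
      nlinarith [sq_nonneg M]
    have h4 : ∑ v ∈ bg (P ^ 2) (4 * P ^ 2), ∑ a ∈ bg (M ^ c3) (M ^ c4),
        (if a * v ∣ (⟨l, n⟩ : ZI) then γ v * f1 M c3 c4 a else 0) ≤
        ∑ v ∈ Dv (⟨l, n⟩ : ZI), ∑ a ∈ Dv (⟨l, n⟩ : ZI), γ v * f1 M c3 c4 a := by
      calc ∑ v ∈ bg (P ^ 2) (4 * P ^ 2), ∑ a ∈ bg (M ^ c3) (M ^ c4),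
            (if a * v ∣ (⟨l, n⟩ : ZI) then γ v * f1 M c3 c4 a else 0) ≤
            ∑ v ∈ bg (P ^ 2) (4 * P ^ 2), (if v ∣ (⟨l, n⟩ : ZI) then ∑ a ∈ Dv (⟨l, n⟩ : ZI), γ v * f1 M c3 c4 a else 0) := by
              refine sum_le_sum fun v _ => ?_
              by_cases hv : v ∣ (⟨l, n⟩ : ZI)
              · rw [if_pos hv, ← sum_filter]
                apply sum_le_sum_of_subset_of_nonneg
                · intro a ha
                  rw [mem_filter] at ha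
                  rw [mem_Dv hζ]
                  exact (Dvd.intro _ rfl).trans ha.2
                · intro a _ _
                  exact mul_nonneg (hγ.nonneg v) (hf0 a)
              · rw [if_neg hv]
                apply le_of_eq
                apply sum_eq_zero
                intro a _
                rw [if_neg]
                exact fun h => hv ((Dvd.intro_left _ rfl).trans h)
        _ ≤ _ := by
              rw [← sum_filter]
              apply sum_le_sum_of_subset_of_nonneg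
              · intro v hv
                rw [mem_filter] at hv
                rw [mem_Dv hζ]
                exact hv.2
              · intro v _ _
                exact sum_nonneg fun a _ => mul_nonneg (hγ.nonneg v) (hf0 a)
    refine h4.trans ?_
    rw [← sum_mul_sum]
    have h5 := hγ.div _ hζ hnz
    have h6 := f1_div (c := c3) (c' := c4) (show 1 < M by linarith) hζ hnz
    calc (∑ v ∈ Dv (⟨l, n⟩ : ZI), γ v) * ∑ a ∈ Dv (⟨l, n⟩ : ZI), f1 M c3 c4 a ≤ Cγ * 12 :=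
          mul_le_mul h5 h6 (sum_nonneg fun a _ => hf0 a) hCγ
      _ = 12 * Cγ := by ring
  refine (sum_le_sum h3).trans ?_
  rw [sum_const, nsmul_eq_mul]
  have h4 := Eb_card (z := z) (l := l) (Y := M / 2) (M := M) hz1 hl1 (by positivity) (by linarith)
  rw [← hE] at h4
  calc (E.card : ℝ) * (12 * Cγ) ≤ (2 * Real.log M * (M / 2) / z) * (12 * Cγ) :=
        mul_le_mul_of_nonneg_right h4 (by positivity)
    _ = _ := by ring

end Pool.Agent.J6H16.PR
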