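import Pool.Agent.J6H16.PR.Ls

/-!
# Project PR (helper16): the mean square over the frequencies `k ≠ 0` of a product, primitive numbers
-/

set_option autoImplicit false

namespace Pool.Agent.J6H16.PR

open Finset Filter Topology MeasureTheory
open Pool.Agent.N782.GN Pool.Agent.N855.GN
open Pool.Agent.H304R3.HK (UH bb LamK CS)
open Pool.Agent.J6H16.PF

/-- **the mean square of a product over the frequencies `k ≠ 0`** -/
theorem ms2 : ∃ Cs : ℝ, 0 < Cs ∧ ∀ (f g : ZI → ℝ) (q : ℕ) (r : ZI) (K I : ℕ) (w0 w1 V η Y1 Y2 c C0 C1 T : ℝ),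
    1 ≤ q → IsCoprime r ((q : ℕ) : ZI) → 1 ≤ w0 → w1 ≤ V → w0 ≤ V → 0 < η → η ≤ 1 →
    V ≤ w0 * (1 + η) ^ I → 0 ≤ Y1 → Y1 ≤ Y2 → Y2 ≤ V → 0 ≤ c → 0 ≤ C0 → 0 ≤ C1 → 1 ≤ K → (K : ℝ) ≤ V / w1 → 1 ≤ w1 →
    2 ≤ V / w1 →
    (∀ a, f a ≠ 0 → nz a ≤ w1) →
    (∀ k : ℤ, k ≠ 0 → |(k : ℝ)| ≤ K → ∀ s : ZI, IsCoprime s ((q : ℕ) : ZI) → ∀ A0 A1 : ℝ, w0 ≤ A0 → A0 ≤ A1 →
      A1 ≤ 2 * A0 → ‖∑ a ∈ SA q s A0 A1, (f a : ℂ) * ph k 0 a‖ ≤ c * A0) →
    (∀ m, |g m| ≤ C1) → (∀ m, ct m ≠ 1 → g m = 0) → 1 ≤ T →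
    (∀ a m, f a ≠ 0 → g m ≠ 0 → ct (a * m) = 1 ∨ T ≤ (ct (a * m) : ℝ)) →
    (∀ t ∈ bl (2 * V), cf (fun a => |f a|) (fun m => |g m|) (bg w0 w1) (bl V) t ≤ C0) →
    ∑ k ∈ (Icc (-(K : ℤ)) K).erase 0, ‖∑ t ∈ (cls q r Y2).filter (fun t => Y1 < nz t),
      ((if ct t = 1 then cf f g (bg w0 w1) (bl V) t else 0 : ℝ) : ℂ) * ph k 0 t‖ ^ 2 ≤
      Cs * (((I : ℝ) * q ^ 4) ^ 2 * c ^ 2 * C1 ^ 2 * V ^ 2 + C0 ^ 2 * V * (η * V + Real.sqrt V) +
        C0 ^ 2 * (1 + Real.log (2 * V)) ^ 2 * (K * V + V ^ 2 / T ^ 2)) := by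
  classical
  obtain ⟨C, hC, hsh⟩ := shell
  refine ⟨400000 + 4000 * C, by positivity, ?_⟩
  intro f g q r K I w0 w1 V η Y1 Y2 c C0 C1 T hq hr hw0 hw1 hwV hη hη1 hI hY1 hY12 hY2V hc hC0 hC1 hK hKV hw10 hVw hf hA
    hg hgp hT hfg hcf
  have hV1 : 1 ≤ V := hw0.trans hwV
  have hV0 : 0 < V := by linarith
  -- the two parts
  set Mk : ℤ → ℂ := fun k => ∑ p ∈ Jx q r I, Ca f q w0 V η p k * Cm g q w0 V η Y1 Y2 p k with hMk
  set e : ZI → ℂ := fun t => ∑ p ∈ (bg w0 w1 ×ˢ bl V).filter (fun p => p.1 * p.2 = t),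
    (f p.1 : ℂ) * (g p.2 : ℂ) * ((Jn q r Y1 Y2 (p.1 * p.2) - Wt q r I w0 V η Y1 Y2 p.1 p.2 : ℝ) : ℂ) with he
  have hbgV : ∀ a ∈ bg w0 w1, a ∈ bg w0 V := by
    intro a ha
    rw [mem_bg] at ha ⊢
    exact ⟨ha.1, ha.2.1.trans hw1, ha.2.2⟩
  have he_le : ∀ t, ‖e t‖ ≤ cf (fun a => |f a|) (fun m => |g m|) (bg w0 w1) (bl V) t * sh η Y1 Y2 (nz t) := by
    intro t
    rw [he]
    simp only
    refine (norm_sum_le _ _).trans ?_
    unfold cf
    rw [sum_mul]
    refine sum_le_sum fun p hp => ?_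
    rw [mem_filter, mem_product] at hp
    rw [norm_mul, norm_mul, Complex.norm_real, Complex.norm_real, Complex.norm_real, Real.norm_eq_abs,
      Real.norm_eq_abs, Real.norm_eq_abs]
    apply mul_le_mul_of_nonneg_left _ (by positivity)
    have := Jn_err hq (r := r) (Y1 := Y1) (Y2 := Y2) hw0 hwV hη.le hI (hbgV _ hp.1.1) hp.1.2
    rwa [hp.2] at this ⊢
  have he_p : ∀ t, ct t ≠ 1 → (ct t : ℝ) < T → e t = 0 := by
    intro t ht htT
    rw [he]
    simp only
    refine sum_eq_zero fun p hp => ?_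
    rw [mem_filter] at hp
    by_cases h1 : f p.1 = 0
    · rw [h1]; push_cast; ring
    by_cases h2 : g p.2 = 0
    · rw [h2]; push_cast; ring
    rcases hfg _ _ h1 h2 with h3 | h3
    · exact absurd (by rw [← hp.2]; exact h3) ht
    · rw [hp.2] at h3
      exact absurd h3 (not_le.2 htT)
  have hcf_p : ∀ t, ct t ≠ 1 → (ct t : ℝ) < T → cf f g (bg w0 w1) (bl V) t = 0 := by
    intro t ht htT
    unfold cf
    refine sum_eq_zero fun p hp => ?_
    rw [mem_filter] at hp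
    by_cases h1 : f p.1 = 0
    · rw [h1]; ring
    by_cases h2 : g p.2 = 0
    · rw [h2]; ring
    rcases hfg _ _ h1 h2 with h3 | h3
    · exact absurd (by rw [← hp.2]; exact h3) ht
    · rw [hp.2] at h3
      exact absurd h3 (not_le.2 htT)
  have he_0 : e 0 = 0 := by
    rw [he]
    simp only
    refine sum_eq_zero fun p hp => ?_
    rw [mem_filter, mem_product, mem_bg, mem_bl] at hp
    exact absurd hp.2 (mul_ne_zero hp.1.1.1 hp.1.2.1)
  have he_out : ∀ t, 2 * V < nz t → e t = 0 := by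
    intro t ht
    have h1 := he_le t
    have h2 : sh η Y1 Y2 (nz t) = 0 := by
      unfold sh
      rw [if_neg, if_neg, add_zero]
      · rintro ⟨-, h⟩
        nlinarith
      · rintro ⟨-, h⟩
        nlinarith
    rw [h2, mul_zero] at h1
    exact norm_le_zero_iff.1 h1
  have hdecomp0 : ∀ k : ℤ, ∑ t ∈ (cls q r Y2).filter (fun t => Y1 < nz t), (cf f g (bg w0 w1) (bl V) t : ℂ) * ph k 0 t =
      Mk k + ∑ t ∈ bl (2 * V), e t * ph k 0 t := by
    intro k
    rw [cfC f g w0 w1 V q r Y1 Y2 hw0 hw1 hY2V k, hMk]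
    simp only
    rw [← cells f g hw0 hw1 hwV hη.le (hY1.trans hY12) hY2V hf k]
    have e1 : ∑ t ∈ bl (2 * V), e t * ph k 0 t = ∑ a ∈ bg w0 w1, ∑ m ∈ bl V, (f a : ℂ) * (g m : ℂ) *
        (((Jn q r Y1 Y2 (a * m) - Wt q r I w0 V η Y1 Y2 a m : ℝ) : ℂ) * ph k 0 (a * m)) := by
      have hsub : bl (2 * V) ⊆ bl (2 * V * V) := by
        intro t ht
        rw [mem_bl] at ht ⊢
        exact ⟨ht.1, by nlinarith [ht.2]⟩
      rw [sum_subset hsub (f := fun t => e t * ph k 0 t) (fun t _ ht => by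
        have : e t = 0 := by
          by_cases h0 : t = 0
          · rw [h0]; exact he_0
          · apply he_out
            by_contra hcon
            exact ht ((mem_bl _ _).2 ⟨h0, not_lt.1 hcon⟩)
        rw [this, zero_mul])]
      rw [← sum_product', ← sum_fiberwise_of_maps_to (s := bg w0 w1 ×ˢ bl V) (t := bl (2 * V * V))
        (g := fun p => p.1 * p.2) (fun p hp => by
          rw [mem_product, mem_bg, mem_bl] at hp
          rw [mem_bl, Pool.Agent.N855.GN.nz_mul]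
          refine ⟨mul_ne_zero hp.1.1 hp.2.1, ?_⟩
          calc nz p.1 * nz p.2 ≤ V * V := mul_le_mul (hp.1.2.1.trans hw1) hp.2.2 (nz_nonneg _) hV0.le
            _ ≤ 2 * V * V := by nlinarith)]
      refine sum_congr rfl fun t _ => ?_
      rw [he]
      simp only
      rw [sum_mul]
      refine sum_congr rfl fun p hp => ?_
      rw [(mem_filter.1 hp).2]
      ring
    rw [e1, ← sum_add_distrib]
    refine sum_congr rfl fun a _ => ?_
    rw [← sum_add_distrib]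
    refine sum_congr rfl fun m _ => ?_
    push_cast
    ring
  -- the coprime part and the rest
  set F : Finset ZI := (cls q r Y2).filter (fun t => Y1 < nz t) with hF
  set e1 : ZI → ℂ := fun t => if ct t = 1 then e t else 0 with he1
  set e2 : ZI → ℂ := fun t => if ct t = 1 then 0 else e t - (if t ∈ F then (cf f g (bg w0 w1) (bl V) t : ℂ) else 0) with he2
  have hFs : F ⊆ bl (2 * V) := by
    intro t ht
    rw [hF, mem_filter] at ht
    have := (mem_bl _ _).1 (cls_sub q r Y2 ht.1)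
    rw [mem_bl]
    exact ⟨this.1, by linarith [this.2]⟩
  have hdecomp : ∀ k : ℤ, ∑ t ∈ F, ((if ct t = 1 then cf f g (bg w0 w1) (bl V) t else 0 : ℝ) : ℂ) * ph k 0 t =
      (Mk k + ∑ t ∈ bl (2 * V), e1 t * ph k 0 t) + ∑ t ∈ bl (2 * V), e2 t * ph k 0 t := by
    intro k
    have h1 : ∑ t ∈ F, ((if ct t = 1 then cf f g (bg w0 w1) (bl V) t else 0 : ℝ) : ℂ) * ph k 0 t =
        ∑ t ∈ F, (cf f g (bg w0 w1) (bl V) t : ℂ) * ph k 0 t -
        ∑ t ∈ bl (2 * V), (if ct t = 1 then 0 else (if t ∈ F then (cf f g (bg w0 w1) (bl V) t : ℂ) else 0)) * ph k 0 t := by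
      have h2 : ∑ t ∈ bl (2 * V), (if ct t = 1 then 0 else (if t ∈ F then (cf f g (bg w0 w1) (bl V) t : ℂ) else 0)) *
          ph k 0 t = ∑ t ∈ F, (if ct t = 1 then 0 else (cf f g (bg w0 w1) (bl V) t : ℂ)) * ph k 0 t := by
        symm
        rw [← sum_subset hFs (f := fun t => (if ct t = 1 then 0 else
          (if t ∈ F then (cf f g (bg w0 w1) (bl V) t : ℂ) else 0)) * ph k 0 t)]
        · refine sum_congr rfl fun t ht => ?_
          rw [if_pos ht]
        · intro t _ ht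
          rw [if_neg ht, ite_self, zero_mul]
      rw [h2, ← sum_sub_distrib]
      refine sum_congr rfl fun t _ => ?_
      split_ifs <;> simp
    rw [h1, hdecomp0 k, add_assoc, ← sum_add_distrib, add_sub_assoc, ← sum_sub_distrib]
    congr 1
    refine sum_congr rfl fun t _ => ?_
    simp only [he1, he2]
    split_ifs <;> ring
  -- the error
  have hE : ∑ k ∈ Icc (-(K : ℤ)) K, ‖∑ t ∈ bl (2 * V), e1 t * ph k 0 t‖ ^ 2 ≤
      864 * C * (C0 ^ 2 * V * (η * V + Real.sqrt V)) := by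
    refine (lsbp (V := 2 * V) (by linarith) hK e1 (fun t ht => by
      simp only [he1]
      rw [if_neg ht])).trans ?_
    have hKV' : (K : ℝ) ≤ V := by
      refine hKV.trans ?_
      rw [div_le_iff₀ (by linarith)]
      nlinarith
    have h1 : ∑ t ∈ bl (2 * V), ‖e1 t‖ ^ 2 ≤ C0 ^ 2 * (4 * C * (η * V + Real.sqrt V)) := by
      have h2 : ∀ t ∈ bl (2 * V), ‖e1 t‖ ^ 2 ≤ C0 ^ 2 * (2 * (if Y1 < nz t ∧ nz t ≤ (1 + η) * Y1 then 1 else 0) +
          2 * (if Y2 < nz t ∧ nz t ≤ (1 + η) * Y2 then 1 else 0)) := by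
        intro t ht
        have h3 : ‖e1 t‖ ^ 2 ≤ (C0 * sh η Y1 Y2 (nz t)) ^ 2 := by
          apply pow_le_pow_left₀ (norm_nonneg _)
          have h31 : ‖e1 t‖ ≤ ‖e t‖ := by
            simp only [he1]
            split_ifs
            · exact le_rfl
            · rw [norm_zero]; exact norm_nonneg _
          exact h31.trans ((he_le t).trans (mul_le_mul_of_nonneg_right (hcf t ht) (sh_nonneg _ _ _ _)))
        refine h3.trans ?_
        rw [mul_pow]
        apply mul_le_mul_of_nonneg_left _ (by positivity)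
        unfold sh
        split_ifs <;> norm_num
      refine (sum_le_sum h2).trans ?_
      rw [← mul_sum, sum_add_distrib, ← mul_sum, ← mul_sum, ← sum_filter, ← sum_filter, sum_const, sum_const,
        nsmul_eq_mul, nsmul_eq_mul, mul_one, mul_one]
      apply mul_le_mul_of_nonneg_left _ (by positivity)
      have h4 := hsh Y1 V η hV1 hη.le hη1 (hY12.trans hY2V)
      have h5 := hsh Y2 V η hV1 hη.le hη1 hY2V
      linarith
    calc 72 * (K + 2 * V) * ∑ t ∈ bl (2 * V), ‖e1 t‖ ^ 2 ≤ 72 * (V + 2 * V) * (C0 ^ 2 * (4 * C * (η * V + Real.sqrt V))) := by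
          apply mul_le_mul _ h1 (sum_nonneg fun t _ => sq_nonneg _) (by positivity)
          linarith
      _ = _ := by ring
  -- the second error
  have hE2 : ∑ k ∈ Icc (-(K : ℤ)) K, ‖∑ t ∈ bl (2 * V), e2 t * ph k 0 t‖ ^ 2 ≤
      5184 * (3 * C0) ^ 2 * (1 + Real.log (2 * V)) ^ 2 * (K * (2 * V) + (2 * V) ^ 2 / T ^ 2) := by
    apply lsct (by linarith) hK (3 * C0) T (by positivity) hT e2
    · intro t ht
      have k1 := he_le t
      have k2 := hcf t ht
      have k3 : sh η Y1 Y2 (nz t) ≤ 2 := by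
        unfold sh
        split_ifs <;> norm_num
      have k4 : |cf f g (bg w0 w1) (bl V) t| ≤ C0 := (cf_abs _ _ _ _ _).trans k2
      have k5 : ‖e t‖ ≤ 2 * C0 := by
        refine k1.trans ?_
        calc cf (fun a => |f a|) (fun m => |g m|) (bg w0 w1) (bl V) t * sh η Y1 Y2 (nz t) ≤ C0 * 2 :=
              mul_le_mul k2 k3 (sh_nonneg _ _ _ _) hC0
          _ = 2 * C0 := by ring
      simp only [he2]
      split_ifs
      · rw [norm_zero]; positivity
      · refine (norm_sub_le _ _).trans ?_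
        rw [Complex.norm_real, Real.norm_eq_abs]
        linarith
      · rw [sub_zero]
        linarith
    · intro t ht
      simp only [he2]
      split_ifs with k1 k2
      · rfl
      · rw [he_p t k1 ht, hcf_p t k1 ht]; simp
      · rw [he_p t k1 ht]; simp
  -- the cells
  have hM : ∑ k ∈ (Icc (-(K : ℤ)) K).erase 0, ‖Mk k‖ ^ 2 ≤ 1296 * (((I : ℝ) * q ^ 4) ^ 2 * c ^ 2 * C1 ^ 2 * V ^ 2) := by
    have hJ : ((Jx q r I).card : ℝ) ≤ (I : ℝ) * q ^ 4 := by exact_mod_cast card_Jx q r I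
    have h1 : ∀ p ∈ Jx q r I, ∑ k ∈ (Icc (-(K : ℤ)) K).erase 0, ‖Ca f q w0 V η p k * Cm g q w0 V η Y1 Y2 p k‖ ^ 2 ≤
        1296 * (c ^ 2 * C1 ^ 2 * V ^ 2) := by
      intro p hp
      unfold Jx at hp
      rw [mem_filter] at hp
      have hcop : IsCoprime p.2.1 ((q : ℕ) : ZI) := coprime_of hr p.2.2 (by rw [mul_comm]; exact hp.2)
      have hAge : w0 ≤ As w0 V η p.1 := As_ge hwV (by linarith) hη.le p.1
      have hA0 : 0 < As w0 V η p.1 := by linarith
      rcases le_or_gt w1 (As w0 V η p.1) with hcase | hcase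
      · -- empty cell
        have h2 : ∀ k : ℤ, Ca f q w0 V η p k = 0 := by
          intro k
          unfold Ca
          refine sum_eq_zero fun a ha => ?_
          rw [mem_SA] at ha
          have : f a = 0 := by
            by_contra hcon
            have := hf a hcon
            linarith [ha.2.2.2]
          rw [this]; push_cast; ring
        have h3 : ∑ k ∈ (Icc (-(K : ℤ)) K).erase 0, ‖Ca f q w0 V η p k * Cm g q w0 V η Y1 Y2 p k‖ ^ 2 = 0 := by
          refine sum_eq_zero fun k _ => ?_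
          rw [h2 k, zero_mul, norm_zero]
          norm_num
        rw [h3]
        positivity
      · set Ai := As w0 V η p.1 with hAi
        set Vm := V / Ai with hVm
        have hVm1 : V / w1 ≤ Vm := div_le_div_of_nonneg_left hV0.le hA0 hcase.le
        have hVm2 : 2 ≤ Vm := hVw.trans hVm1
        have hKVm : (K : ℝ) ≤ Vm := hKV.trans hVm1
        have hCa : ∀ k ∈ (Icc (-(K : ℤ)) K).erase 0, ‖Ca f q w0 V η p k‖ ≤ c * Ai := by
          intro k hk
          rw [mem_erase, mem_Icc] at hk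
          have hkK : |(k : ℝ)| ≤ K := by
            have : |k| ≤ (K : ℤ) := abs_le.2 hk.2
            exact_mod_cast this
          unfold Ca
          refine hA k hk.1 hkK p.2.1 hcop _ _ hAge (As_mono (by linarith) hη.le (Nat.le_succ _)) ?_
          refine (As_succ (by linarith) hη.le p.1).trans ?_
          apply mul_le_mul_of_nonneg_right _ hA0.le
          linarith
        set S2 := SA q p.2.2 (Y1 / Ai) (Y2 / Ai) with hS2
        have hS2s : S2 ⊆ bl Vm := by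
          intro m hm
          rw [hS2, mem_SA] at hm
          rw [mem_bl]
          exact ⟨hm.1, hm.2.1.trans (div_le_div_of_nonneg_right hY2V hA0.le)⟩
        set gg : ZI → ℂ := fun m => if m ∈ S2 then (g m : ℂ) else 0 with hgg
        have hCm : ∀ k : ℤ, Cm g q w0 V η Y1 Y2 p k = ∑ m ∈ bl Vm, gg m * ph k 0 m := by
          intro k
          unfold Cm
          rw [← hAi, ← hS2, ← sum_subset hS2s (f := fun m => gg m * ph k 0 m)]
          · exact sum_congr rfl fun m hm => by rw [hgg]; simp only; rw [if_pos hm]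
          · intro m _ hm
            rw [hgg]
            simp only
            rw [if_neg hm, zero_mul]
        have h2 := lsbp (V := Vm) hVm2 hK gg (fun m hm => by
          rw [hgg]
          simp only
          split_ifs
          · rw [hgp m hm]; push_cast; rfl
          · rfl)
        have h3 : ∑ m ∈ bl Vm, ‖gg m‖ ^ 2 ≤ 9 * Vm * C1 ^ 2 := by
          calc ∑ m ∈ bl Vm, ‖gg m‖ ^ 2 ≤ ∑ m ∈ bl Vm, C1 ^ 2 := by
                refine sum_le_sum fun m _ => ?_
                apply pow_le_pow_left₀ (norm_nonneg _)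
                rw [hgg]
                simp only
                split_ifs
                · rw [Complex.norm_real, Real.norm_eq_abs]
                  exact hg m
                · rw [norm_zero]
                  exact hC1
            _ = ((bl Vm).card : ℝ) * C1 ^ 2 := by rw [sum_const, nsmul_eq_mul]
            _ ≤ 9 * Vm * C1 ^ 2 := mul_le_mul_of_nonneg_right (card_bl (by linarith)) (by positivity)
        calc ∑ k ∈ (Icc (-(K : ℤ)) K).erase 0, ‖Ca f q w0 V η p k * Cm g q w0 V η Y1 Y2 p k‖ ^ 2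
            ≤ ∑ k ∈ (Icc (-(K : ℤ)) K).erase 0, (c * Ai) ^ 2 * ‖∑ m ∈ bl Vm, gg m * ph k 0 m‖ ^ 2 := by
              refine sum_le_sum fun k hk => ?_
              rw [norm_mul, mul_pow, hCm k]
              apply mul_le_mul_of_nonneg_right _ (by positivity)
              exact pow_le_pow_left₀ (norm_nonneg _) (hCa k hk) 2
          _ ≤ ∑ k ∈ Icc (-(K : ℤ)) K, (c * Ai) ^ 2 * ‖∑ m ∈ bl Vm, gg m * ph k 0 m‖ ^ 2 :=
              sum_le_sum_of_subset_of_nonneg (erase_subset _ _) fun k _ _ => by positivity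
          _ = (c * Ai) ^ 2 * ∑ k ∈ Icc (-(K : ℤ)) K, ‖∑ m ∈ bl Vm, gg m * ph k 0 m‖ ^ 2 := by rw [mul_sum]
          _ ≤ (c * Ai) ^ 2 * (72 * (K + Vm) * (9 * Vm * C1 ^ 2)) := by
              apply mul_le_mul_of_nonneg_left _ (by positivity)
              exact h2.trans (mul_le_mul_of_nonneg_left h3 (by positivity))
          _ ≤ (c * Ai) ^ 2 * (72 * (Vm + Vm) * (9 * Vm * C1 ^ 2)) := by
              apply mul_le_mul_of_nonneg_left _ (by positivity)
              apply mul_le_mul_of_nonneg_right _ (by positivity)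
              linarith
          _ = 1296 * (c ^ 2 * C1 ^ 2 * V ^ 2) := by
              rw [hVm]
              field_simp
              ring
    calc ∑ k ∈ (Icc (-(K : ℤ)) K).erase 0, ‖Mk k‖ ^ 2 ≤ ∑ k ∈ (Icc (-(K : ℤ)) K).erase 0, ((Jx q r I).card : ℝ) *
          ∑ p ∈ Jx q r I, ‖Ca f q w0 V η p k * Cm g q w0 V η Y1 Y2 p k‖ ^ 2 :=
          sum_le_sum fun k _ => norm_sum_sq_le _ _
      _ = ((Jx q r I).card : ℝ) * ∑ p ∈ Jx q r I, ∑ k ∈ (Icc (-(K : ℤ)) K).erase 0,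
          ‖Ca f q w0 V η p k * Cm g q w0 V η Y1 Y2 p k‖ ^ 2 := by rw [← mul_sum, sum_comm]
      _ ≤ ((Jx q r I).card : ℝ) * (((Jx q r I).card : ℝ) * (1296 * (c ^ 2 * C1 ^ 2 * V ^ 2))) := by
          apply mul_le_mul_of_nonneg_left _ (Nat.cast_nonneg _)
          refine (sum_le_sum h1).trans (le_of_eq ?_)
          rw [sum_const, nsmul_eq_mul]
      _ = ((Jx q r I).card : ℝ) ^ 2 * (1296 * (c ^ 2 * C1 ^ 2 * V ^ 2)) := by ring
      _ ≤ ((I : ℝ) * q ^ 4) ^ 2 * (1296 * (c ^ 2 * C1 ^ 2 * V ^ 2)) := by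
          apply mul_le_mul_of_nonneg_right _ (by positivity)
          exact pow_le_pow_left₀ (Nat.cast_nonneg _) hJ 2
      _ = _ := by ring
  simp only [hdecomp]
  have hEE := (sum_le_sum_of_subset_of_nonneg (erase_subset (0 : ℤ) (Icc (-(K : ℤ)) K))
    (f := fun k => ‖∑ t ∈ bl (2 * V), e1 t * ph k 0 t‖ ^ 2) fun k _ _ => sq_nonneg _).trans hE
  have hEE2 := (sum_le_sum_of_subset_of_nonneg (erase_subset (0 : ℤ) (Icc (-(K : ℤ)) K))
    (f := fun k => ‖∑ t ∈ bl (2 * V), e2 t * ph k 0 t‖ ^ 2) fun k _ _ => sq_nonneg _).trans hE2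
  calc ∑ k ∈ (Icc (-(K : ℤ)) K).erase 0, ‖Mk k + ∑ t ∈ bl (2 * V), e1 t * ph k 0 t + ∑ t ∈ bl (2 * V), e2 t * ph k 0 t‖ ^ 2
      ≤ ∑ k ∈ (Icc (-(K : ℤ)) K).erase 0, (4 * ‖Mk k‖ ^ 2 + 4 * ‖∑ t ∈ bl (2 * V), e1 t * ph k 0 t‖ ^ 2 +
          2 * ‖∑ t ∈ bl (2 * V), e2 t * ph k 0 t‖ ^ 2) := by
        refine sum_le_sum fun k _ => ?_
        have y1 := norm_add_sq_le (Mk k + ∑ t ∈ bl (2 * V), e1 t * ph k 0 t) (∑ t ∈ bl (2 * V), e2 t * ph k 0 t)
        have y2 := norm_add_sq_le (Mk k) (∑ t ∈ bl (2 * V), e1 t * ph k 0 t)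
        linarith
    _ = 4 * ∑ k ∈ (Icc (-(K : ℤ)) K).erase 0, ‖Mk k‖ ^ 2 +
        4 * ∑ k ∈ (Icc (-(K : ℤ)) K).erase 0, ‖∑ t ∈ bl (2 * V), e1 t * ph k 0 t‖ ^ 2 +
        2 * ∑ k ∈ (Icc (-(K : ℤ)) K).erase 0, ‖∑ t ∈ bl (2 * V), e2 t * ph k 0 t‖ ^ 2 := by
        rw [sum_add_distrib, sum_add_distrib, ← mul_sum, ← mul_sum, ← mul_sum]
    _ ≤ 4 * (1296 * (((I : ℝ) * q ^ 4) ^ 2 * c ^ 2 * C1 ^ 2 * V ^ 2)) +
        4 * (864 * C * (C0 ^ 2 * V * (η * V + Real.sqrt V))) +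
        2 * (5184 * (3 * C0) ^ 2 * (1 + Real.log (2 * V)) ^ 2 * (K * (2 * V) + (2 * V) ^ 2 / T ^ 2)) := by
        linarith
    _ ≤ _ := by
        have x1 : 0 ≤ ((I : ℝ) * q ^ 4) ^ 2 * c ^ 2 * C1 ^ 2 * V ^ 2 := by positivity
        have x2 : 0 ≤ C0 ^ 2 * V * (η * V + Real.sqrt V) := by positivity
        have hT0 : 0 < T := by linarith
        have x4 : 0 ≤ C0 ^ 2 * (1 + Real.log (2 * V)) ^ 2 * (K * V) := by positivity
        have x5 : 0 ≤ C0 ^ 2 * (1 + Real.log (2 * V)) ^ 2 * (V ^ 2 / T ^ 2) := by positivity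
        have x6 : 2 * (5184 * (3 * C0) ^ 2 * (1 + Real.log (2 * V)) ^ 2 * (K * (2 * V) + (2 * V) ^ 2 / T ^ 2)) =
            186624 * (C0 ^ 2 * (1 + Real.log (2 * V)) ^ 2 * (K * V)) +
            373248 * (C0 ^ 2 * (1 + Real.log (2 * V)) ^ 2 * (V ^ 2 / T ^ 2)) := by
          rw [mul_pow 2 V 2]
          ring
        rw [x6]
        set X1 := ((I : ℝ) * q ^ 4) ^ 2 * c ^ 2 * C1 ^ 2 * V ^ 2
        set X2 := C0 ^ 2 * V * (η * V + Real.sqrt V)
        set X4 := C0 ^ 2 * (1 + Real.log (2 * V)) ^ 2 * (K * V)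
        set X5 := C0 ^ 2 * (1 + Real.log (2 * V)) ^ 2 * (V ^ 2 / T ^ 2)
        have x7 : C0 ^ 2 * (1 + Real.log (2 * V)) ^ 2 * (K * V + V ^ 2 / T ^ 2) = X4 + X5 := by
          simp only [X4, X5]
          ring
        rw [x7]
        have y1 : 0 ≤ C * X1 := by positivity
        have y2 : 0 ≤ C * X2 := by positivity
        have y4 : 0 ≤ C * (X4 + X5) := by positivity
        nlinarith

end Pool.Agent.J6H16.PR
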