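import Pool.Agent.J6H16.PR.Fs

/-!
# Project PR (helper16): the parameters of the sieve
-/

set_option autoImplicit false

namespace Pool.Agent.J6H16.PR

open Finset Filter Topology MeasureTheory
open Pool.Agent.N782.GN Pool.Agent.N855.GN
open Pool.Agent.H304R3.HK (UH bb LamK CS)
open Pool.Agent.J6H16.PF

noncomputable def Jf (M : ℝ) : ℕ := Nat.log 2 ⌊Real.log M / (Real.log (Real.log M)) ^ 3⌋₊

noncomputable def bf (M : ℝ) : ℕ := ⌈(Real.log (Real.log M)) ^ 2⌉₊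

noncomputable def zf (M : ℝ) : ℕ := 2 ^ 2 ^ (Jf M)

theorem ev_ll (K : ℝ) : ∀ᶠ M : ℝ in atTop, K ≤ Real.log (Real.log M) :=
  (Real.tendsto_log_atTop.comp Real.tendsto_log_atTop).eventually_ge_atTop K

theorem ev_x (K : ℝ) (n : ℕ) : ∀ᶠ M : ℝ in atTop, K * (Real.log (Real.log M)) ^ n ≤ Real.log M := by
  have h1 := logpow n (show (0 : ℝ) < 1 by norm_num) (show (0 : ℝ) < 1 / (|K| + 1) by positivity)
  have h2 := Real.tendsto_log_atTop.eventually h1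
  filter_upwards [h2, ev_ll 0] with M h hl
  rw [Real.rpow_one] at h
  have hK : K ≤ |K| + 1 := by linarith [le_abs_self K]
  have hp : 0 ≤ (Real.log (Real.log M)) ^ n := pow_nonneg hl n
  calc K * (Real.log (Real.log M)) ^ n ≤ (|K| + 1) * (Real.log (Real.log M)) ^ n := mul_le_mul_of_nonneg_right hK hp
    _ ≤ (|K| + 1) * (1 / (|K| + 1) * Real.log M) := mul_le_mul_of_nonneg_left h (by positivity)
    _ = Real.log M := by field_simp

theorem par_a (A : ℕ) : ∀ᶠ M : ℝ in atTop, (1 / 2 : ℝ) ^ (bf M) ≤ 1 / (Real.log M) ^ A := by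
  filter_upwards [ev_ll (2 * A), ev_ll 1, ev_log 1] with M h1 h2 h3
  set x := Real.log M
  set lam := Real.log x
  have hx0 : 0 < x := by linarith
  have h4 : lam ^ 2 ≤ (bf M : ℝ) := Nat.le_ceil _
  have h5 : (1 / 2 : ℝ) ^ (bf M) = Real.exp (-((bf M : ℝ) * Real.log 2)) := by
    rw [Real.exp_neg, ← Real.log_pow, Real.exp_log (by positivity), one_div, inv_pow]
  have h6 : (1 : ℝ) / x ^ A = Real.exp (-((A : ℝ) * lam)) := by
    rw [Real.exp_neg, ← Real.log_pow, Real.exp_log (by positivity), one_div]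
  rw [h5, h6]
  apply Real.exp_le_exp.2
  apply neg_le_neg
  have h7 : (1 / 2 : ℝ) ≤ Real.log 2 := by linarith [Real.log_two_gt_d9]
  calc (A : ℝ) * lam ≤ (lam / 2) * lam := by gcongr; linarith
    _ = lam ^ 2 * (1 / 2) := by ring
    _ ≤ (bf M : ℝ) * Real.log 2 := by gcongr

theorem two_J : ∀ᶠ M : ℝ in atTop, ((2 : ℝ) ^ (Jf M) ≤ Real.log M / (Real.log (Real.log M)) ^ 3) ∧
    Real.log M / (Real.log (Real.log M)) ^ 3 ≤ 4 * (2 : ℝ) ^ (Jf M) := by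
  filter_upwards [ev_ll 1, ev_x 1 3] with M h1 h2
  set x := Real.log M
  set lam := Real.log x
  have hl3 : 0 < lam ^ 3 := by positivity
  set y := x / lam ^ 3 with hy
  have hy1 : 1 ≤ y := by
    rw [hy, le_div_iff₀ hl3]
    exact h2
  have hf : 1 ≤ ⌊y⌋₊ := Nat.le_floor (by simpa using hy1)
  have h3 : 2 ^ Nat.log 2 ⌊y⌋₊ ≤ ⌊y⌋₊ := Nat.pow_log_le_self 2 (by omega)
  have h4 : ⌊y⌋₊ < 2 ^ (Nat.log 2 ⌊y⌋₊ + 1) := Nat.lt_pow_succ_log_self (by norm_num) _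
  have h5 : ((2 : ℝ)) ^ (Jf M) ≤ (⌊y⌋₊ : ℝ) := by
    unfold Jf
    exact_mod_cast h3
  have h6 : (⌊y⌋₊ : ℝ) ≤ 2 * (2 : ℝ) ^ (Jf M) := by
    have : (⌊y⌋₊ : ℝ) ≤ (2 : ℝ) ^ (Nat.log 2 ⌊y⌋₊ + 1) := by exact_mod_cast h4.le
    unfold Jf
    rw [pow_succ] at this
    linarith
  have h7 := Nat.floor_le (show 0 ≤ y by linarith)
  have h8 := (Nat.lt_floor_add_one y).le
  refine ⟨h5.trans h7, ?_⟩
  have h9 : (1 : ℝ) ≤ (⌊y⌋₊ : ℝ) := by exact_mod_cast hf
  linarith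

theorem zf_exp (M : ℝ) : (zf M : ℝ) = Real.exp ((2 : ℝ) ^ (Jf M) * Real.log 2) := by
  have h1 : Real.exp ((2 : ℝ) ^ (Jf M) * Real.log 2) = (2 : ℝ) ^ ((2 : ℕ) ^ (Jf M)) := by
    have : (2 : ℝ) ^ (Jf M) = (((2 : ℕ) ^ (Jf M) : ℕ) : ℝ) := by push_cast; rfl
    rw [this, ← Real.log_pow, Real.exp_log (by positivity)]
  rw [h1]
  unfold zf
  push_cast
  rfl

theorem par_b (C : ℕ) {c : ℝ} (hc : 0 < c) : ∀ᶠ M : ℝ in atTop, ((zf M : ℕ) : ℝ) ^ (C * bf M) ≤ M ^ c := by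
  filter_upwards [ev_ll (2 * C / c), ev_ll 1, ev_log 1, two_J, eventually_gt_atTop (0 : ℝ)] with M h1 h2 h3 h4 hM0
  set x := Real.log M with hx
  set lam := Real.log x
  have hl0 : 0 < lam := by linarith
  rw [zf_exp, ← Real.exp_nat_mul, Real.rpow_def_of_pos hM0]
  apply Real.exp_le_exp.2
  have hb : (bf M : ℝ) ≤ 2 * lam ^ 2 := by
    have := (Nat.ceil_lt_add_one (show 0 ≤ lam ^ 2 by positivity)).le
    unfold bf
    nlinarith
  have hl2 : Real.log 2 ≤ 1 := by linarith [Real.log_two_lt_d9]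
  have hl2' : 0 ≤ Real.log 2 := Real.log_nonneg (by norm_num)
  have h5 : (C : ℝ) * 2 ≤ c * lam := by
    rw [div_le_iff₀ hc] at h1
    linarith
  push_cast
  calc (C : ℝ) * (bf M : ℝ) * ((2 : ℝ) ^ (Jf M) * Real.log 2) ≤ (C : ℝ) * (2 * lam ^ 2) * ((x / lam ^ 3) * 1) := by
        apply mul_le_mul _ _ (by positivity) (by positivity)
        · gcongr
        · exact mul_le_mul h4.1 hl2 hl2' (by positivity)
    _ = (C : ℝ) * 2 * (x / lam) := by
        field_simp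
    _ ≤ c * lam * (x / lam) := by
        apply mul_le_mul_of_nonneg_right h5 (by positivity)
    _ = x * c := by field_simp

theorem par_c (B : ℕ) : ∀ᶠ M : ℝ in atTop, (Real.log M) ^ B ≤ (zf M : ℝ) := by
  filter_upwards [ev_ll 1, ev_log 1, two_J, ev_x (8 * B) 4] with M h2 h3 h4 h5
  set x := Real.log M with hx
  set lam := Real.log x with hlam
  have hl0 : 0 < lam := by linarith
  have hx0 : 0 < x := by linarith
  rw [zf_exp, show x ^ B = Real.exp ((B : ℝ) * lam) by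
    rw [hlam, ← Real.log_pow, Real.exp_log (by positivity)]]
  apply Real.exp_le_exp.2
  have hl2 : (1 / 2 : ℝ) ≤ Real.log 2 := by linarith [Real.log_two_gt_d9]
  have h6 : 8 * (B : ℝ) * lam ≤ x / lam ^ 3 := by
    rw [le_div_iff₀ (by positivity)]
    calc 8 * (B : ℝ) * lam * lam ^ 3 = 8 * (B : ℝ) * lam ^ 4 := by ring
      _ ≤ x := h5
  calc (B : ℝ) * lam ≤ (2 : ℝ) ^ (Jf M) * (1 / 2) := by linarith [h4.2]
    _ ≤ (2 : ℝ) ^ (Jf M) * Real.log 2 := by gcongr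

theorem par_d : ∀ᶠ M : ℝ in atTop, (Jf M : ℝ) + 2 ≤ Real.log M := by
  filter_upwards [ev_ll 2, ev_log 4, two_J] with M h2 h3 h4
  set x := Real.log M with hx
  set lam := Real.log x with hlam
  have h5 : (Jf M : ℝ) ≤ (2 : ℝ) ^ (Jf M) := by exact_mod_cast Nat.lt_two_pow_self.le
  have h6 : x / lam ^ 3 ≤ x / 2 := by
    apply div_le_div_of_nonneg_left (by linarith) (by norm_num)
    nlinarith [sq_nonneg lam]
  linarith [h4.1]

theorem par_e (K : ℕ) : ∀ᶠ M : ℝ in atTop, K ≤ bf M := by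
  filter_upwards [ev_ll (K + 1)] with M h
  have hK : (0 : ℝ) ≤ K := Nat.cast_nonneg K
  have h1 : (K : ℝ) ≤ (Real.log (Real.log M)) ^ 2 := by nlinarith
  have h2 : (K : ℝ) ≤ (bf M : ℝ) := h1.trans (Nat.le_ceil _)
  exact_mod_cast h2

end Pool.Agent.J6H16.PR
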