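import Pool.Agent.J6H16.PR.Pz

/-!
# Project PR (helper16): rough Gaussian integers in classes
-/

set_option autoImplicit false

namespace Pool.Agent.J6H16.PR

open Finset Filter Topology MeasureTheory
open Pool.Agent.N782.GN Pool.Agent.N855.GN
open Pool.Agent.H304R3.HK (UH bb LamK CS)
open Pool.Agent.J6H16.PF

/-- no prime `p ≤ z` divides the norm -/
def rough (z : ℕ) (t : ZI) : Prop := ∀ p : ℕ, p.Prime → p ≤ z → ¬ p ∣ nn t

open Classical in
/-- the indicator of the primitive rough numbers -/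
noncomputable def rg (z : ℕ) (t : ZI) : ℝ := if rough z t ∧ ct t = 1 then 1 else 0

theorem rg_nonneg (z : ℕ) (t : ZI) : 0 ≤ rg z t := by
  unfold rg
  split_ifs <;> norm_num

theorem rg_le (z : ℕ) (t : ZI) : rg z t ≤ 1 := by
  unfold rg
  split_ifs <;> norm_num

/-- the primes between `z₀` and `z` which do not divide `Q` -/
def PQ (z z0 Q : ℕ) : Finset ℕ := (Ioc z0 z).filter (fun p => p.Prime ∧ ¬ p ∣ Q)

theorem mem_PQ {z z0 Q p : ℕ} : p ∈ PQ z z0 Q ↔ (z0 < p ∧ p ≤ z) ∧ p.Prime ∧ ¬ p ∣ Q := by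
  unfold PQ
  rw [mem_filter, mem_Ioc]

/-- the density of the rough numbers in the classes modulo `Q` -/
noncomputable def kq (z z0 Q : ℕ) : ℝ := Real.pi / (Q : ℝ) ^ 2 * ∏ p ∈ PQ z z0 Q, (1 - gp p)

/-- the product of the primes up to `z₀` -/
def W0 (z0 : ℕ) : ℕ := ∏ p ∈ (range (z0 + 1)).filter Nat.Prime, p

theorem W0_pos (z0 : ℕ) : 1 ≤ W0 z0 := by
  unfold W0
  exact Nat.one_le_iff_ne_zero.2 (prod_ne_zero_iff.2 fun p hp => (mem_filter.1 hp).2.ne_zero)

theorem dvd_W0 {z0 p : ℕ} (hp : p.Prime) (h : p ≤ z0) : p ∣ W0 z0 := by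
  unfold W0
  apply dvd_prod_of_mem (fun p => p)
  rw [mem_filter, mem_range]
  exact ⟨by omega, hp⟩

theorem prod_gp_nonneg (S : Finset ℕ) (hS : ∀ p ∈ S, p.Prime) : 0 ≤ ∏ p ∈ S, (1 - gp p) :=
  prod_nonneg fun p hp => by linarith [gp_lt (hS p hp)]

theorem prod_gp_le (S : Finset ℕ) (hS : ∀ p ∈ S, p.Prime) : ∏ p ∈ S, (1 - gp p) ≤ 1 :=
  prod_le_one (fun p hp => by linarith [gp_lt (hS p hp)]) fun p hp => by linarith [gp_nonneg p]

theorem kq_nonneg (z z0 Q : ℕ) : 0 ≤ kq z z0 Q := by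
  unfold kq
  have := prod_gp_nonneg (PQ z z0 Q) (fun p hp => (mem_PQ.1 hp).2.1)
  positivity

theorem kq_le {z z0 Q : ℕ} (hQ : 1 ≤ Q) : kq z z0 Q ≤ 4 := by
  unfold kq
  have h1 := prod_gp_le (PQ z z0 Q) (fun p hp => (mem_PQ.1 hp).2.1)
  have h0 := prod_gp_nonneg (PQ z z0 Q) (fun p hp => (mem_PQ.1 hp).2.1)
  have hQ' : (1 : ℝ) ≤ Q := by exact_mod_cast hQ
  have h2 : Real.pi / (Q : ℝ) ^ 2 ≤ 4 := by
    rw [div_le_iff₀ (by positivity)]
    have := Real.pi_le_four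
    nlinarith
  calc Real.pi / (Q : ℝ) ^ 2 * ∏ p ∈ PQ z z0 Q, (1 - gp p) ≤ 4 * 1 := mul_le_mul h2 h1 h0 (by norm_num)
    _ = 4 := mul_one _

/-- an element of a coprime class is coprime to the modulus -/
theorem cls_cop {q : ℕ} {r t : ZI} {Z : ℝ} (ht : t ∈ cls q r Z) (hc : IsCoprime r ((q : ℕ) : ZI)) :
    IsCoprime t ((q : ℕ) : ZI) := by
  classical
  unfold cls at ht
  rw [mem_filter] at ht
  obtain ⟨x, hx⟩ := ht.2
  obtain ⟨u, v, huv⟩ := hc
  refine ⟨u, v - u * x, ?_⟩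
  have : t = r + ((q : ℕ) : ZI) * x := by linear_combination hx
  rw [this]
  linear_combination huv

/-- a number coprime to `q` has a norm coprime to `q` -/
theorem cop_nn {q : ℕ} {t : ZI} (h : IsCoprime t ((q : ℕ) : ZI)) {p : ℕ} (hp : p.Prime) (hpq : p ∣ q) : ¬ p ∣ nn t := by
  intro hd
  -- `p ∣ t * conj t`
  have h1 : IsCoprime t ((p : ℕ) : ZI) := by
    obtain ⟨k, hk⟩ := hpq
    have : ((q : ℕ) : ZI) = ((p : ℕ) : ZI) * ((k : ℕ) : ZI) := by rw [hk]; push_cast; rfl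
    rw [this] at h
    exact h.of_mul_right_left
  have h2 : IsCoprime (star t) ((p : ℕ) : ZI) := by
    obtain ⟨u, v, huv⟩ := h1
    refine ⟨star u, star v, ?_⟩
    have h3 := congrArg star huv
    rw [star_add, star_mul', star_mul', star_one] at h3
    have h4 : star ((p : ℕ) : ZI) = ((p : ℕ) : ZI) := by
      apply Zsqrtd.ext
      · rw [Zsqrtd.re_star]
      · rw [Zsqrtd.im_star, Zsqrtd.im_natCast, neg_zero]
    rw [h4] at h3
    exact h3
  have h3 : IsCoprime (t * star t) ((p : ℕ) : ZI) := IsCoprime.mul_left h1 h2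
  have h4 : t * star t = ((nn t : ℕ) : ZI) := by
    have h5 : t * star t = ((Zsqrtd.norm t : ℤ) : ZI) := (Zsqrtd.norm_eq_mul_conj t).symm
    rw [h5]
    have h6 : (Zsqrtd.norm t : ℤ) = ((nn t : ℕ) : ℤ) := by
      unfold nn
      rw [Int.natAbs_of_nonneg (GaussianInt.norm_nonneg t)]
    rw [h6]
    push_cast
    rfl
  rw [h4] at h3
  obtain ⟨k, hk⟩ := hd
  rw [hk] at h3
  push_cast at h3
  have h5 : IsCoprime ((p : ℕ) : ZI) ((p : ℕ) : ZI) := h3.of_mul_left_left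
  rw [isCoprime_self] at h5
  have h6 := Zsqrtd.norm_eq_one_iff.2 h5
  rw [Zsqrtd.norm_natCast, Int.natAbs_mul, Int.natAbs_natCast] at h6
  have := hp.two_le
  nlinarith

/-- the number of the elements with a large content -/
theorem ct_big {Y : ℝ} (hY : 1 ≤ Y) {z : ℕ} (hz : 1 ≤ z) :
    (((bl Y).filter (fun t => z < ct t)).card : ℝ) ≤ 9 * Y / z := by
  classical
  set N : ℕ := ⌊Y⌋₊ with hN
  have hmap : ∀ t ∈ (bl Y).filter (fun t => z < ct t), ct t ∈ Ioc z (max z N) := by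
    intro t ht
    rw [mem_filter, mem_bl] at ht
    rw [mem_Ioc]
    refine ⟨ht.2, le_trans ?_ (le_max_right _ _)⟩
    apply Nat.le_floor
    have h1 := ct_sq_le ht.1.1
    have h2 : (1 : ℝ) ≤ ct t := by exact_mod_cast ct_pos ht.1.1
    nlinarith [ht.1.2]
  rw [card_eq_sum_card_fiberwise hmap]
  push_cast
  have h1 : ∀ e ∈ Ioc z (max z N), ((((bl Y).filter (fun t => z < ct t)).filter (fun t => ct t = e)).card : ℝ) ≤
      9 * Y * ((e : ℝ) ^ 2)⁻¹ := by
    intro e he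
    rw [mem_Ioc] at he
    have he1 : 1 ≤ e := by omega
    have he0 : (0 : ℝ) < e := by exact_mod_cast he1
    have h2 : ((((bl Y).filter (fun t => z < ct t)).filter (fun t => ct t = e)).card : ℝ) ≤
        (((bl Y).filter (fun t => ct t = e)).card : ℝ) := by
      exact_mod_cast card_le_card (fun t ht => by
        rw [mem_filter, mem_filter] at ht
        rw [mem_filter]
        exact ⟨ht.1.1, ht.2⟩)
    refine h2.trans ?_
    have h3 := sum_ct Y (by linarith) he1 (fun _ => (1 : ℂ))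
    rw [sum_const, sum_const, nsmul_eq_mul, nsmul_eq_mul, mul_one, mul_one] at h3
    have h4 : ((bl Y).filter (fun t => ct t = e)).card = ((bl (Y / (e : ℝ) ^ 2)).filter (fun t => ct t = 1)).card := by
      exact_mod_cast h3
    rw [h4]
    rcases lt_or_ge Y ((e : ℝ) ^ 2) with h5 | h5
    · have h6 : (bl (Y / (e : ℝ) ^ 2)).filter (fun t => ct t = 1) = ∅ := by
        rw [eq_empty_iff_forall_notMem]
        intro t ht
        rw [mem_filter, mem_bl] at ht
        have h7 := nz_one_le ht.1.1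
        have h8 := ht.1.2
        rw [le_div_iff₀ (by positivity)] at h8
        nlinarith
      rw [h6, card_empty]
      push_cast
      positivity
    · have h6 : (1 : ℝ) ≤ Y / (e : ℝ) ^ 2 := by rw [le_div_iff₀ (by positivity), one_mul]; exact h5
      calc ((((bl (Y / (e : ℝ) ^ 2)).filter (fun t => ct t = 1)).card : ℕ) : ℝ) ≤ ((bl (Y / (e : ℝ) ^ 2)).card : ℝ) := by
            exact_mod_cast card_filter_le _ _
        _ ≤ 9 * (Y / (e : ℝ) ^ 2) := card_bl h6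
        _ = _ := by ring
  refine (sum_le_sum h1).trans ?_
  rw [← mul_sum]
  have h2 := sum_Ioc_inv_sq_le_sub (α := ℝ) (k := z) (n := max z N) (by omega) (le_max_left _ _)
  have h3 : ∑ i ∈ Ioc z (max z N), ((i : ℝ) ^ 2)⁻¹ ≤ (z : ℝ)⁻¹ := by
    have : (0 : ℝ) ≤ ((max z N : ℕ) : ℝ)⁻¹ := by positivity
    linarith
  calc 9 * Y * ∑ i ∈ Ioc z (max z N), ((i : ℝ) ^ 2)⁻¹ ≤ 9 * Y * (z : ℝ)⁻¹ := mul_le_mul_of_nonneg_left h3 (by positivity)
    _ = _ := by rw [div_eq_mul_inv]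

/-- a rough number which is not primitive has a large content -/
theorem rough_ct {z : ℕ} {t : ZI} (h : rough z t) (ht : t ≠ 0) (hct : ct t ≠ 1) : z < ct t := by
  obtain ⟨p, hp, hpd⟩ := Nat.exists_prime_and_dvd hct
  have h1 : p ∣ nn t := by
    have h2 : ((p : ℕ) : ZI) ∣ t := (Pool.Agent.N864.GN.MB.dvd_ct p t).2 hpd
    obtain ⟨u, hu⟩ := h2
    rw [hu, nn_mul]
    refine Dvd.dvd.mul_right ?_ _
    unfold nn
    rw [Zsqrtd.norm_natCast, Int.natAbs_mul, Int.natAbs_natCast]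
    exact dvd_mul_right _ _
  by_contra hcon
  push Not at hcon
  have h3 : p ≤ ct t := Nat.le_of_dvd (ct_pos ht) hpd
  exact h p hp (by omega) h1

open Classical in
/-- **rough numbers in classes** -/
theorem reg_rg : ∃ z0 : ℕ, ∀ (A B E : ℕ) (c : ℝ), 0 < c → ∀ᶠ M : ℝ in atTop, ∀ Q : ℕ, 1 ≤ Q →
    (Q : ℝ) ≤ (Real.log M) ^ B → W0 z0 ∣ Q →
    Reg (rg (zf M)) Q (kq (zf M) z0 Q) (1 / (Real.log M) ^ A) (M ^ c) (M ^ (E : ℝ)) := by
  obtain ⟨C0, C, hC0, hC, hsv⟩ := sv2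
  refine ⟨C0, fun A B E c hc => ?_⟩
  filter_upwards [par_a (A + 1), par_b (3 * C0) (show 0 < c / 4 by positivity), par_c (A + 1), par_c 1, par_c B, par_d, par_e C0,
    ev_log (2 * (4 + C + 9)), ev_qM (show 0 < c / 4 by positivity) (A + 2), eventually_ge_atTop (3 : ℝ)] with M
    ha hb hcA hc1 hcB hd he hlog hqM hM3
  intro Q hQ hQB hW s hs Y1 Y2 hY1 hY12 hY2
  have hM0 : 0 < M := by linarith
  have hM1 : 1 ≤ M := by linarith
  set ℓ := Real.log M with hℓ
  have hℓ1 : 1 ≤ ℓ := by linarith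
  have hℓ0 : 0 < ℓ := by linarith
  set z := zf M with hz
  have hz1 : 1 ≤ z := by
    have : (1 : ℝ) ≤ (z : ℝ) := by rw [pow_one] at hc1; linarith
    exact_mod_cast this
  have hzA : ℓ ^ (A + 1) ≤ (z : ℝ) := hcA
  have hzpos : (0 : ℝ) < z := by exact_mod_cast hz1
  set κ := kq z C0 Q with hκ
  have hκ0 : 0 ≤ κ := kq_nonneg _ _ _
  have hκ4 : κ ≤ 4 := kq_le hQ
  -- the count up to `Y`
  have key : ∀ Y : ℝ, M ^ c ≤ Y → |∑ t ∈ cls Q s Y, rg z t - κ * Y| ≤ Y / ℓ ^ A / 2 := by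
    intro Y hY
    have hMc : 1 ≤ M ^ c := Real.one_le_rpow hM1 hc.le
    have hY1' : 1 ≤ Y := hMc.trans hY
    have hY0 : 0 < Y := by linarith
    have h1 := hsv (bf M) (Jf M) C0 Q (PQ z C0 Q) s Y he le_rfl hQ (fun p hp => by
      rw [mem_PQ] at hp
      exact ⟨hp.2.1, hp.1.1, hp.1.2, hp.2.2⟩) hY1'
    have e1 : (cls Q s Y).filter (fun t => ∀ p ∈ PQ z C0 Q, ¬ p ∣ nn t) = (cls Q s Y).filter (fun t => rough z t) := by
      ext t
      rw [mem_filter, mem_filter]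
      refine and_congr_right fun ht => ?_
      constructor
      · intro h p hp hpz
        by_cases hpQ : p ∣ Q
        · exact cop_nn (cls_cop ht hs) hp hpQ
        · apply h p
          rw [mem_PQ]
          refine ⟨⟨?_, hpz⟩, hp, hpQ⟩
          by_contra hcon
          exact hpQ ((dvd_W0 hp (by omega)).trans hW)
      · intro h p hp
        rw [mem_PQ] at hp
        exact h p hp.2.1 hp.1.2
    have e1' : (((cls Q s Y).filter (fun t => ∀ p ∈ PQ z C0 Q, ¬ p ∣ nn t)).card : ℝ) =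
        (((cls Q s Y).filter (fun t => rough z t)).card : ℝ) := by
      congr 1
      rw [← e1]
    rw [e1'] at h1
    have e2 : Real.pi / (Q : ℝ) ^ 2 * Y * ∏ p ∈ PQ z C0 Q, (1 - gp p) = κ * Y := by
      rw [hκ]
      unfold kq
      ring
    rw [e2] at h1
    -- the primitive ones
    have e3 : ∑ t ∈ cls Q s Y, rg z t = (((cls Q s Y).filter (fun t => rough z t ∧ ct t = 1)).card : ℝ) := by
      unfold rg
      rw [← sum_filter, sum_const, nsmul_eq_mul, mul_one]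
    have e4 : (((cls Q s Y).filter (fun t => rough z t)).card : ℝ) =
        (((cls Q s Y).filter (fun t => rough z t ∧ ct t = 1)).card : ℝ) +
        (((cls Q s Y).filter (fun t => rough z t ∧ ¬ ct t = 1)).card : ℝ) := by
      rw [← Nat.cast_add, ← card_filter_add_card_filter_not (s := (cls Q s Y).filter (fun t => rough z t))
        (fun t => ct t = 1), filter_filter, filter_filter]
    have e5 : (((cls Q s Y).filter (fun t => rough z t ∧ ¬ ct t = 1)).card : ℝ) ≤ 9 * Y / z := by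
      refine le_trans ?_ (ct_big hY1' hz1)
      exact_mod_cast card_le_card fun t ht => by
        rw [mem_filter] at ht
        have ht' := cls_sub Q s Y ht.1
        rw [mem_filter]
        exact ⟨ht', rough_ct ht.2.1 ((mem_bl _ _).1 ht').1 ht.2.2⟩
    -- the errors
    have r1 : (1 / 2 : ℝ) ^ (bf M) * (κ * Y) ≤ 4 * (Y / ℓ ^ (A + 1)) := by
      calc (1 / 2 : ℝ) ^ (bf M) * (κ * Y) ≤ (1 / ℓ ^ (A + 1)) * (4 * Y) := by gcongr
        _ = _ := by ring
    have r2 : ((Jf M : ℝ) + 2) * ((((2 ^ 2 ^ (Jf M) : ℕ) : ℝ) ^ (C0 * bf M)) ^ 3 * (C * Real.sqrt Y)) ≤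
        C * (Y / ℓ ^ (A + 1)) := by
      have e6 : ((((2 ^ 2 ^ (Jf M) : ℕ) : ℝ) ^ (C0 * bf M)) ^ 3) = (z : ℝ) ^ (3 * C0 * bf M) := by
        rw [hz]
        unfold zf
        rw [← pow_mul]
        congr 1
        ring
      rw [e6]
      have e7 : Real.sqrt Y * M ^ (c / 2) ≤ Y := by
        have h3 : M ^ (c / 2) ≤ Real.sqrt Y := by
          apply Real.le_sqrt_of_sq_le
          rw [← Real.rpow_natCast, ← Real.rpow_mul hM0.le]
          refine le_trans (le_of_eq ?_) hY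
          congr 1
          push_cast
          ring
        calc Real.sqrt Y * M ^ (c / 2) ≤ Real.sqrt Y * Real.sqrt Y := mul_le_mul_of_nonneg_left h3 (Real.sqrt_nonneg _)
          _ = Y := Real.mul_self_sqrt hY0.le
      have e8 : M ^ (c / 2) = M ^ (c / 4) * M ^ (c / 4) := by rw [← Real.rpow_add hM0]; ring_nf
      have hMp : 0 < M ^ (c / 4) := Real.rpow_pos_of_pos hM0 _
      have e9 : Real.sqrt Y ≤ Y / (M ^ (c / 4) * M ^ (c / 4)) := by
        rw [le_div_iff₀ (by positivity), ← e8]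
        exact e7
      calc ((Jf M : ℝ) + 2) * ((z : ℝ) ^ (3 * C0 * bf M) * (C * Real.sqrt Y)) ≤
            ℓ * (M ^ (c / 4) * (C * (Y / (M ^ (c / 4) * M ^ (c / 4))))) := by gcongr
        _ = C * Y * (ℓ / M ^ (c / 4)) := by field_simp
        _ ≤ C * Y * (1 / ℓ ^ (A + 1)) := by
            apply mul_le_mul_of_nonneg_left _ (by positivity)
            rw [div_le_div_iff₀ hMp (by positivity), one_mul]
            calc ℓ * ℓ ^ (A + 1) = ℓ ^ (A + 2) := by ring
              _ ≤ _ := hqM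
        _ = _ := by ring
    have r3 : 9 * Y / z ≤ 9 * (Y / ℓ ^ (A + 1)) := by
      rw [mul_div_assoc]
      apply mul_le_mul_of_nonneg_left _ (by norm_num)
      exact div_le_div_of_nonneg_left hY0.le (by positivity) hzA
    have r4 : (4 + C + 9) * (Y / ℓ ^ (A + 1)) ≤ Y / ℓ ^ A / 2 := by
      rw [pow_succ]
      have : (4 + C + 9) ≤ ℓ / 2 := by linarith
      calc (4 + C + 9) * (Y / (ℓ ^ A * ℓ)) ≤ (ℓ / 2) * (Y / (ℓ ^ A * ℓ)) := by gcongr
        _ = Y / ℓ ^ A / 2 := by field_simp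
    set N1 := (((cls Q s Y).filter (fun t => rough z t ∧ ct t = 1)).card : ℝ)
    set N2' := (((cls Q s Y).filter (fun t => rough z t ∧ ¬ ct t = 1)).card : ℝ)
    have hN2 : 0 ≤ N2' := Nat.cast_nonneg _
    rw [e4] at h1
    rw [e3]
    have h2 := h1.trans (add_le_add r1 r2)
    rw [abs_le] at h2 ⊢
    constructor
    · linarith [h2.1]
    · linarith [h2.2]
  have hY1' := key Y1 hY1
  have hY2' := key Y2 (hY1.trans hY12)
  rw [ci_sum (rg z) Q s hY12]
  have e1 : ∑ t ∈ cls Q s Y2, rg z t - ∑ t ∈ cls Q s Y1, rg z t - κ * (Y2 - Y1) =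
      (∑ t ∈ cls Q s Y2, rg z t - κ * Y2) - (∑ t ∈ cls Q s Y1, rg z t - κ * Y1) := by ring
  rw [e1]
  refine (abs_sub _ _).trans ?_
  have h3 : Y1 / ℓ ^ A / 2 ≤ Y2 / ℓ ^ A / 2 := by gcongr
  have e2 : 1 / ℓ ^ A * Y2 = Y2 / ℓ ^ A := by ring
  rw [e2]
  linarith

end Pool.Agent.J6H16.PR
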