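import Pool.Agent.J6H16.PR.Gm

/-!
# Project PR (helper16): from the weighted sums to the number
-/

set_option autoImplicit false

namespace Pool.Agent.J6H16.PR

open Finset Filter Topology MeasureTheory
open Pool.Agent.N782.GN Pool.Agent.N855.GN
open Pool.Agent.H304R3.HK (UH bb LamK CS)
open Pool.Agent.J6H16.PF

/-- the norm is a squarefree product of `r` primes larger than `y` -/
def Good (r : ℕ) (y : ℝ) (ζ : ZI) : Prop :=
  Squarefree (nn ζ) ∧ (nn ζ).primeFactors.card = r ∧ ∀ p ∈ (nn ζ).primeFactors, y < (p : ℝ)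

theorem good_step {a b : ZI} {r : ℕ} {y : ℝ} (ha : np a) (hy : y < nz a) (hb : Good r y b) (hd : ¬ nn a ∣ nn b) :
    Good (r + 1) y (a * b) := by
  have hpa : (nn a).Prime := ha
  have hcop : Nat.Coprime (nn a) (nn b) := (Nat.Prime.coprime_iff_not_dvd hpa).2 hd
  refine ⟨sqf_mul ha hb.1 hd, ?_, ?_⟩
  · rw [nn_mul, Nat.Coprime.primeFactors_mul hcop, card_union_of_disjoint (Nat.Coprime.disjoint_primeFactors hcop),
      Nat.Prime.primeFactors hpa, card_singleton, hb.2.1, add_comm]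
  · intro p hp
    rw [nn_mul, Nat.Coprime.primeFactors_mul hcop, mem_union] at hp
    rcases hp with h | h
    · rw [Nat.Prime.primeFactors hpa, mem_singleton] at h
      rw [h, ← nz_nn]
      exact hy
    · exact hb.2.2 p h

/-- the structure of the terms -/
theorem good_term {M c3 c4 δ R Cγ : ℝ} {γ : ZI → ℝ} {r : ℕ} (hM : 1 ≤ M) (h34 : c3 ≤ c4) (h4δ : c4 ≤ δ)
    (hR : M ^ (1 + δ) ≤ R ^ 2) (hγ : Gam c4 M Cγ γ) (hγr : ∀ v, γ v ≠ 0 → (nn v).primeFactors.card = r)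
    {w v : ZI} (hw : uA M c3 c4 R w ≠ 0) (hv : γ v ≠ 0) (hv0 : v ≠ 0) (hvM : nz v ≤ M) : Good (r + 2) (M ^ c3) (w * v) := by
  have hM0 : 0 < M := by linarith
  unfold uA at hw
  split_ifs at hw with h1
  · obtain ⟨a, m, ham, ha, hm, ha0, hm0⟩ := cv_ne hw
    have h2 := f1_ne ha
    have h3 := f1_ne hm
    have hpm : (nn m).Prime := h3.1
    have e1 : M ^ c3 ≤ M ^ c4 := Real.rpow_le_rpow_of_exponent_le hM h34
    have hgv : Good r (M ^ c3) v := by
      refine ⟨hγ.sqf v hv, hγr v hv, fun p hp => ?_⟩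
      rw [Nat.mem_primeFactors] at hp
      exact lt_of_le_of_lt e1 (hγ.big v hv p hp.1 hp.2.1)
    have hna := nz_pos ha0
    have hmM : M < nz m := by
      have h4 : M ^ (1 + δ) < nz a * nz m := by
        rw [← Pool.Agent.N855.GN.nz_mul, ham]
        exact lt_of_le_of_lt hR h1.1.1
      have h5 : M ^ (1 + δ) < M ^ c4 * nz m :=
        lt_of_lt_of_le h4 (mul_le_mul_of_nonneg_right h2.2.2 (nz_nonneg _))
      have h6 : M ^ c4 * M ≤ M ^ (1 + δ) := by
        calc M ^ c4 * M ≤ M ^ δ * M := by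
              apply mul_le_mul_of_nonneg_right _ hM0.le
              exact Real.rpow_le_rpow_of_exponent_le hM h4δ
          _ = M ^ (1 + δ) := by rw [add_comm, Real.rpow_add hM0, Real.rpow_one]
      have h7 : 0 < M ^ c4 := by positivity
      exact lt_of_mul_lt_mul_left (lt_of_le_of_lt h6 h5) h7.le
    have hnm : ¬ nn m ∣ nn v := by
      intro hd
      have h4 : nn v ≠ 0 := by
        intro h0
        have := nz_pos hv0
        rw [nz_nn, h0] at this
        simp at this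
      have h5 := Nat.le_of_dvd (Nat.pos_of_ne_zero h4) hd
      have h6 : nz m ≤ nz v := by rw [nz_nn, nz_nn]; exact_mod_cast h5
      linarith
    have h34' : M ^ c3 < nz m := lt_of_le_of_lt e1 h3.2.1
    have hmv := good_step h3.1 h34' hgv hnm
    have hna2 : ¬ nn a ∣ nn (m * v) := by
      intro hd
      rw [nn_mul] at hd
      rcases (Nat.Prime.dvd_mul (show (nn a).Prime from h2.1)).1 hd with h | h
      · have h4 := (Nat.prime_dvd_prime_iff_eq (show (nn a).Prime from h2.1) hpm).1 h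
        have h5 : nz a = nz m := by rw [nz_nn, nz_nn, h4]
        linarith [h2.2.2, h3.2.1]
      · have h4 := hγ.big v hv (nn a) h2.1 h
        rw [← nz_nn] at h4
        linarith [h2.2.2]
    have := good_step h2.1 h2.2.1 hmv hna2
    rw [← mul_assoc, ham] at this
    exact this
  · exact absurd rfl hw

open Classical in
/-- **from the weighted sums to the number** -/
theorem upT {M c3 c4 δ Cγ R₀ : ℝ} {γ : ZI → ℝ} {r J : ℕ} (hM : 2 ≤ M) (h34 : c3 ≤ c4) (h4δ : c4 ≤ δ) (hc3 : 0 ≤ c3) (hδ : 0 ≤ δ)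
    (hR₀ : 0 < R₀) (hR : M ^ (1 + δ) ≤ R₀ ^ 2) (hγ : Gam c4 M Cγ γ) (hγr : ∀ v, γ v ≠ 0 → (nn v).primeFactors.card = r)
    {l : ℤ} (hl1 : 1 ≤ l) (hlM : (l : ℝ) ≤ M) :
    ∑ j ∈ range J, Th (uA M c3 c4 (2 ^ j * R₀)) γ (2 ^ j * R₀) (M / (8 * (2 ^ j * R₀))) l ≤
      144 * Cγ * (((Icc (-⌊M / 2⌋) ⌊M / 2⌋).filter (fun n => Good (r + 2) (M ^ c3) (⟨l, n⟩ : ZI))).card : ℝ) := by
  have hM0 : 0 < M := by linarith
  have hM1 : 1 ≤ M := by linarith
  set I := (Icc (-⌊M / 2⌋) ⌊M / 2⌋).filter (fun n => Good (r + 2) (M ^ c3) (⟨l, n⟩ : ZI)) with hI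
  have hA0 : ∀ w, 0 ≤ cv (f1 M c3 c4) (f1 M c4 3) w := fun w =>
    cf_nonneg (f1_nonneg hM1 _ _) (f1_nonneg hM1 _ _) _ _ _
  have hu0 : ∀ R w, 0 ≤ uA M c3 c4 R w := by
    intro R w
    unfold uA
    split_ifs
    · exact hA0 w
    · exact le_rfl
  set Wd : ℕ → ZI → Prop := fun j w => (2 ^ j * R₀) ^ 2 < nz w ∧ nz w ≤ 4 * (2 ^ j * R₀) ^ 2 with hWd
  set S : ℤ → Finset (ZI × ZI) := fun n => (bl (nz (⟨l, n⟩ : ZI)) ×ˢ bl (nz (⟨l, n⟩ : ZI))).filter
    (fun p => p.1 * p.2 = (⟨l, n⟩ : ZI)) with hS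
  -- one window
  have hj : ∀ j ∈ range J, Th (uA M c3 c4 (2 ^ j * R₀)) γ (2 ^ j * R₀) (M / (8 * (2 ^ j * R₀))) l ≤
      ∑ n ∈ I, ∑ p ∈ S n, (if Wd j p.1 then bA M c3 c4 3 p.1 * γ p.2 else 0) := by
    intro j _
    set R := 2 ^ j * R₀ with hRd
    set P := M / (8 * R) with hPd
    have hR0 : 0 < R := by positivity
    have hP0 : 0 < P := by positivity
    have hRR : M ^ (1 + δ) ≤ R ^ 2 := by
      refine hR.trans ?_
      rw [hRd, mul_pow]
      have : (1 : ℝ) ≤ (2 ^ j) ^ 2 := one_le_pow₀ (one_le_pow₀ (by norm_num))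
      nlinarith [sq_nonneg R₀]
    have hRM : M ≤ R ^ 2 := by
      refine le_trans ?_ hRR
      calc M = M ^ (1 : ℝ) := (Real.rpow_one M).symm
        _ ≤ M ^ (1 + δ) := Real.rpow_le_rpow_of_exponent_le hM1 (by linarith)
    have hPM : 4 * P ^ 2 ≤ M := by
      have h1 : P ^ 2 = M ^ 2 / (64 * R ^ 2) := by rw [hPd, div_pow]; ring
      rw [h1, ← mul_div_assoc, div_le_iff₀ (by positivity)]
      nlinarith
    set T := ((bg (R ^ 2) (4 * R ^ 2)) ×ˢ (bg (P ^ 2) (4 * P ^ 2))).filter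
      (fun p => (p.1 * p.2).re = l ∧ γ p.2 * uA M c3 c4 R p.1 ≠ 0) with hT
    have e1 : Th (uA M c3 c4 R) γ R P l = ∑ p ∈ T, γ p.2 * uA M c3 c4 R p.1 := by
      unfold Th
      rw [sum_comm, ← sum_product', hT, sum_filter]
      refine sum_congr rfl fun p _ => ?_
      by_cases h1 : (p.1 * p.2).re = l
      · rw [if_pos h1]
        by_cases h2 : γ p.2 * uA M c3 c4 R p.1 = 0
        · rw [if_neg (fun h => h.2 h2), h2]
        · rw [if_pos ⟨h1, h2⟩]
      · rw [if_neg h1, if_neg fun h => h1 h.1]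
    rw [e1]
    have hζ : ∀ p ∈ T, (⟨l, (p.1 * p.2).im⟩ : ZI) = p.1 * p.2 := by
      intro p hp
      rw [hT, mem_filter] at hp
      apply Zsqrtd.ext
      · exact hp.2.1.symm
      · rfl
    have hmap : ∀ p ∈ T, (p.1 * p.2).im ∈ I := by
      intro p hp
      have hp' := hp
      rw [hT, mem_filter, mem_product, mem_bg, mem_bg] at hp'
      obtain ⟨⟨⟨hw0, hw1, hw2⟩, hv0, hv1, hv2⟩, h1, h2⟩ := hp'
      rw [hI, mem_filter, mem_Icc]
      constructor
      · have h3 : ((p.1 * p.2).im : ℝ) ^ 2 ≤ (M / 2) ^ 2 := by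
          have h4 : nz (p.1 * p.2) = ((p.1 * p.2).re : ℝ) ^ 2 + ((p.1 * p.2).im : ℝ) ^ 2 := nz_eq _
          have h5 : nz (p.1 * p.2) ≤ (M / 2) ^ 2 := by
            rw [Pool.Agent.N855.GN.nz_mul]
            calc nz p.1 * nz p.2 ≤ (4 * R ^ 2) * (4 * P ^ 2) := mul_le_mul hw1 hv1 (nz_nonneg _) (by positivity)
              _ = (M / 2) ^ 2 := by rw [hPd]; field_simp; norm_num
          nlinarith [sq_nonneg ((p.1 * p.2).re : ℝ)]
        have h4 := abs_le_of_sq_le_sq' h3 (by positivity)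
        constructor
        · have h5 : (-((p.1 * p.2).im : ℝ)) ≤ M / 2 := by linarith [h4.1]
          have h6 : -(p.1 * p.2).im ≤ ⌊M / 2⌋ := Int.le_floor.2 (by push_cast; exact h5)
          omega
        · exact Int.le_floor.2 h4.2
      · rw [hζ p hp]
        have h3 : γ p.2 ≠ 0 := fun h => h2 (by rw [h, zero_mul])
        have h4 : uA M c3 c4 R p.1 ≠ 0 := fun h => h2 (by rw [h, mul_zero])
        exact good_term hM1 h34 h4δ hRR hγ hγr h4 h3 hv0 (hv1.trans hPM)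
    rw [← sum_fiberwise_of_maps_to hmap]
    refine sum_le_sum fun n hn => ?_
    have h1 : ∑ p ∈ T.filter (fun p => (p.1 * p.2).im = n), γ p.2 * uA M c3 c4 R p.1 =
        ∑ p ∈ T.filter (fun p => (p.1 * p.2).im = n), (if Wd j p.1 then bA M c3 c4 3 p.1 * γ p.2 else 0) := by
      refine sum_congr rfl fun p hp => ?_
      rw [mem_filter, hT, mem_filter] at hp
      have h4 : uA M c3 c4 R p.1 ≠ 0 := fun h => hp.1.2.2 (by rw [h, mul_zero])
      unfold uA at h4 ⊢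
      split_ifs at h4 with h5
      · rw [if_pos h5, if_pos h5.1]
        unfold bA
        ring
      · exact absurd rfl h4
    rw [h1]
    apply sum_le_sum_of_subset_of_nonneg
    · intro p hp
      rw [mem_filter] at hp
      have h2 := hζ p hp.1
      rw [hp.2] at h2
      have hp1 := hp.1
      rw [hT, mem_filter, mem_product, mem_bg, mem_bg] at hp1
      rw [hS]
      simp only
      rw [mem_filter, mem_product, mem_bl, mem_bl, h2]
      have h3 := nz_one_le hp1.1.1.1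
      have h4 := nz_one_le hp1.1.2.1
      have h5 : nz (p.1 * p.2) = nz p.1 * nz p.2 := Pool.Agent.N855.GN.nz_mul _ _
      refine ⟨⟨⟨hp1.1.1.1, ?_⟩, hp1.1.2.1, ?_⟩, rfl⟩
      · rw [h5]; nlinarith
      · rw [h5]; nlinarith
    · intro p _ _
      split_ifs
      · exact mul_nonneg (hA0 _) (hγ.nonneg _)
      · exact le_rfl
  refine (sum_le_sum hj).trans ?_
  rw [sum_comm]
  have hn : ∀ n ∈ I, ∑ j ∈ range J, ∑ p ∈ S n, (if Wd j p.1 then bA M c3 c4 3 p.1 * γ p.2 else 0) ≤ 144 * Cγ := by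
    intro n hn
    rw [hI, mem_filter, mem_Icc] at hn
    have hlζ : (⟨l, n⟩ : ZI) ≠ 0 := by
      intro h0
      have h1 := congrArg Zsqrtd.re h0
      simp only [Zsqrtd.re_zero] at h1
      omega
    have hnz : nz (⟨l, n⟩ : ZI) ≤ M ^ 3 := by
      rw [Pool.Agent.J6H16.PF.nz_mk]
      have h1 : (1 : ℝ) ≤ l := by exact_mod_cast hl1
      have h4 : (l : ℝ) ^ 2 ≤ M ^ 2 := pow_le_pow_left₀ (by linarith) hlM 2
      have h5 : (n : ℝ) ≤ M / 2 := (by exact_mod_cast hn.1.2 : (n : ℝ) ≤ ⌊M / 2⌋).trans (Int.floor_le _)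
      have h6 : -(M / 2) ≤ (n : ℝ) := by
        have h7 : (-(⌊M / 2⌋ : ℝ)) ≤ (n : ℝ) := by exact_mod_cast hn.1.1
        have h8 := Int.floor_le (M / 2)
        linarith
      have h7 : (n : ℝ) ^ 2 ≤ M ^ 2 := by nlinarith
      nlinarith [sq_nonneg M]
    rw [sum_comm]
    have h1 : ∀ p ∈ S n, ∑ j ∈ range J, (if Wd j p.1 then bA M c3 c4 3 p.1 * γ p.2 else 0) ≤ bA M c3 c4 3 p.1 * γ p.2 := by
      intro p _
      rw [← sum_filter, sum_const, nsmul_eq_mul]
      have h2 : (((range J).filter (fun j => Wd j p.1)).card : ℝ) ≤ 1 := by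
        have h3 : ((range J).filter (fun j => Wd j p.1)).card ≤ 1 := by
          rw [card_le_one]
          have key : ∀ a b : ℕ, a < b → Wd a p.1 → Wd b p.1 → False := by
            intro a b hab ha hb
            have h5 : (2 : ℝ) * 2 ^ a ≤ 2 ^ b := by
              calc (2 : ℝ) * 2 ^ a = 2 ^ (a + 1) := by ring
                _ ≤ 2 ^ b := pow_le_pow_right₀ (by norm_num) hab
            have h6 : 4 * (2 ^ a * R₀) ^ 2 ≤ (2 ^ b * R₀) ^ 2 := by
              calc 4 * (2 ^ a * R₀) ^ 2 = (2 * 2 ^ a * R₀) ^ 2 := by ring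
                _ ≤ (2 ^ b * R₀) ^ 2 := by gcongr
            linarith [ha.2, hb.1]
          intro a ha b hb
          rw [mem_filter] at ha hb
          by_contra hne
          rcases Nat.lt_or_gt_of_ne hne with h | h
          · exact key a b h ha.2 hb.2
          · exact key b a h hb.2 ha.2
        exact_mod_cast h3
      have h3 : 0 ≤ bA M c3 c4 3 p.1 * γ p.2 := mul_nonneg (hA0 _) (hγ.nonneg _)
      calc (((range J).filter (fun j => Wd j p.1)).card : ℝ) * (bA M c3 c4 3 p.1 * γ p.2) ≤ 1 * (bA M c3 c4 3 p.1 * γ p.2) :=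
            mul_le_mul_of_nonneg_right h2 h3
        _ = _ := one_mul _
    refine (sum_le_sum h1).trans ?_
    have h2 : ∑ p ∈ S n, bA M c3 c4 3 p.1 * γ p.2 = cv (bA M c3 c4 3) γ (⟨l, n⟩ : ZI) := rfl
    rw [h2]
    have hcv0 : ∀ x, 0 ≤ cv (bA M c3 c4 3) γ x := fun x => cf_nonneg hA0 hγ.nonneg _ _ _
    have h3 : cv (bA M c3 c4 3) γ (⟨l, n⟩ : ZI) ≤ ∑ x ∈ Dv (⟨l, n⟩ : ZI), cv (bA M c3 c4 3) γ x :=
      single_le_sum (f := cv (bA M c3 c4 3) γ) (fun x _ => hcv0 x) ((mem_Dv hlζ).2 dvd_rfl)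
    refine h3.trans ((cv_div hA0 hγ.nonneg hlζ).trans ?_)
    have h4 : ∑ a ∈ Dv (⟨l, n⟩ : ZI), bA M c3 c4 3 a ≤ 144 := by
      unfold bA
      refine (cv_div (f1_nonneg hM1 _ _) (f1_nonneg hM1 _ _) hlζ).trans ?_
      have h2 := f1_div (c := c3) (c' := c4) (show 1 < M by linarith) hlζ hnz
      have h3 := f1_div (c := c4) (c' := 3) (show 1 < M by linarith) hlζ hnz
      have h4 : 0 ≤ ∑ m ∈ Dv (⟨l, n⟩ : ZI), f1 M c4 3 m := sum_nonneg fun m _ => f1_nonneg hM1 _ _ _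
      calc (∑ a ∈ Dv (⟨l, n⟩ : ZI), f1 M c3 c4 a) * ∑ m ∈ Dv (⟨l, n⟩ : ZI), f1 M c4 3 m ≤ 12 * 12 := mul_le_mul h2 h3 h4 (by norm_num)
        _ = 144 := by norm_num
    have h5 := hγ.div _ hlζ hnz
    exact mul_le_mul h4 h5 (sum_nonneg fun v _ => hγ.nonneg v) (by norm_num)
  refine (sum_le_sum hn).trans (le_of_eq ?_)
  rw [sum_const, nsmul_eq_mul]
  ring

end Pool.Agent.J6H16.PR
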